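import Pool.Agent.Lib.MP_4dd93e_co.Ker

/-!
# The exponent walk

A walk in `ℤ^4` with two classes of times, obtained from Keranen's word by a block map with blocks
of length `13`.
-/

set_option autoImplicit false

namespace Pool.Agent.Lib.MP_4dd93e_co.Blk

open Finset Pool.Agent.Lib.MP_4dd93e_co.Ker

/-- packed table of positions, shifted by `16` -/
def qN : ℕ := 6949455808293484686264643348306968839034515391563663692017368340668395984102003220444636285947785467732773607693312673992156908070784595847167280470405119823289553409019262276905008965148527930678016182004618844097555755839171873004796212436851609826035519570748821017791472046559655564193240100734814844459145144009584400173539280830992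

/-- table of positions in the blocks, shifted by `16` -/
def q (x s y : ℕ) : ℕ := (qN >>> (5 * (4 * (14 * x + s) + y))) % 32

/-- packed table of classes -/
def cN : ℕ := 23803641925539156

/-- table of classes -/
def cl (x s : ℕ) : ℕ := (cN >>> (14 * x + s)) % 2

/-- packed table of weighted sums -/
def hN : ℕ := 3100737580964448352119264830187735603788132706574500224680571008496233685316904819917947798694795584773048280289104087585881971033206678025768981587641776824273438720

/-- table of weighted sums -/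
def hs (x s : ℕ) : ℕ := (hN >>> (10 * (14 * x + s))) % 1024

/-- the resolution of a coincidence -/
def rs (L a s b r c t e1 e2 e : ℕ) : Bool :=
  ((List.range 4).all fun y =>
    Nat.beq (q a s y + q b r y + 2 * e * q c 13 y + 16 * (e1 + e2))
      (q c t y + q c (t + L) y + e1 * q a 13 y + e2 * q b 13 y + 32 * e)) &&
  (!((Nat.beq e1 e == Nat.beq a c) && (Nat.beq e2 e == Nat.beq b c) &&
      (Nat.beq e1 e2 == Nat.beq a b)) ||
    ((Nat.beq (13 * e + s) (13 * e1 + t) && Nat.beq (13 * e + r) (13 * e2 + t + L)) ||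
      (Nat.beq (13 * e + s) (13 * e1 + t + L) && Nat.beq (13 * e + r) (13 * e2 + t))))

/-- the finite check -/
def chk (L a s b r c t : ℕ) : Bool :=
  !Nat.beq (cl a s) (cl b r) ||
    (!Nat.beq ((hs a s + hs b r) % 862) ((hs c t + hs c (t + L)) % 862) ||
    ((Nat.beq L 1 && Nat.beq (q c t 0) (q c (t + 1) 0)) ||
    (rs L a s b r c t 0 0 0 || rs L a s b r c t 1 0 0 || rs L a s b r c t 0 1 0 ||
      rs L a s b r c t 1 1 0 || rs L a s b r c t 0 0 1 || rs L a s b r c t 1 0 1 ||
      rs L a s b r c t 0 1 1 || rs L a s b r c t 1 1 1)))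

lemma chk_all : ((List.range 2).all fun L => (List.range 4).all fun a => (List.range 13).all fun s =>
    (List.range 4).all fun b => (List.range 13).all fun r => (List.range 4).all fun c =>
    (List.range 13).all fun t => chk L a s b r c t) = true := by
  decide +kernel

lemma chk_at (L a s b r c t : ℕ) (hL : L < 2) (ha : a < 4) (hs : s < 13) (hb : b < 4) (hr : r < 13)
    (hc : c < 4) (ht : t < 13) : chk L a s b r c t = true := by
  have h := chk_all
  rw [List.all_eq_true] at h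
  have h1 := h L (List.mem_range.mpr hL)
  rw [List.all_eq_true] at h1
  have h2 := h1 a (List.mem_range.mpr ha)
  rw [List.all_eq_true] at h2
  have h3 := h2 s (List.mem_range.mpr hs)
  rw [List.all_eq_true] at h3
  have h4 := h3 b (List.mem_range.mpr hb)
  rw [List.all_eq_true] at h4
  have h5 := h4 r (List.mem_range.mpr hr)
  rw [List.all_eq_true] at h5
  have h6 := h5 c (List.mem_range.mpr hc)
  rw [List.all_eq_true] at h6
  exact h6 t (List.mem_range.mpr ht)

/-- positions in the blocks -/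
def pz (x : Fin 4) (s : ℕ) (y : Fin 4) : ℤ := (q x s y : ℤ) - 16

/-- the incidence matrix of the block map -/
def mb (u : Fin 4 → ℤ) (y : Fin 4) : ℤ := ∑ b, u b * pz b 13 y

/-- the walk -/
def X (k : ℕ) (y : Fin 4) : ℤ := mb (pv (k / 13)) y + pz (fw (k / 13)) (k % 13) y

/-- the classes -/
def cls (k : ℕ) : ℕ := cl (fw (k / 13)) (k % 13)

lemma q_zero : ∀ x y : Fin 4, q x 0 y = 16 := by decide +kernel

lemma cl_zero : ∀ x : Fin 4, cl x 0 = 0 ∧ cl x 13 = 0 := by decide +kernel

lemma pz_zero (x y : Fin 4) : pz x 0 y = 0 := by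
  unfold pz; rw [q_zero]; norm_num

lemma mb_pv_succ (p : ℕ) (y : Fin 4) : mb (pv (p + 1)) y = mb (pv p) y + pz (fw p) 13 y := by
  unfold mb
  simp only [pv_succ, add_mul, sum_add_distrib, ite_mul, one_mul, zero_mul]
  simp

lemma X_block (p s : ℕ) (h : s ≤ 13) (y : Fin 4) :
    X (13 * p + s) y = mb (pv p) y + pz (fw p) s y := by
  unfold X
  rcases Nat.lt_or_ge s 13 with h1 | h1
  · have e1 : (13 * p + s) / 13 = p := by omega
    have e2 : (13 * p + s) % 13 = s := by omega
    rw [e1, e2]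
  · have e0 : s = 13 := by omega
    subst e0
    have e1 : (13 * p + 13) / 13 = p + 1 := by omega
    have e2 : (13 * p + 13) % 13 = 0 := by omega
    rw [e1, e2, mb_pv_succ, pz_zero, add_zero]

lemma cls_block (p s : ℕ) (h : s ≤ 13) : cls (13 * p + s) = cl (fw p) s := by
  unfold cls
  rcases Nat.lt_or_ge s 13 with h1 | h1
  · have e1 : (13 * p + s) / 13 = p := by omega
    have e2 : (13 * p + s) % 13 = s := by omega
    rw [e1, e2]
  · have e0 : s = 13 := by omega
    subst e0
    have e1 : (13 * p + 13) / 13 = p + 1 := by omega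
    have e2 : (13 * p + 13) % 13 = 0 := by omega
    rw [e1, e2, (cl_zero _).1, (cl_zero _).2]

/-- coefficients of the weighted sums -/
def cf : Fin 4 → ℕ := ![98, 1, 563, 537]

lemma hs_spec : ∀ x : Fin 4, ∀ s : Fin 14,
    (hs x s + 16 * 1199) % 862 = (∑ y : Fin 4, cf y * q x s y) % 862 := by
  decide +kernel

lemma hs_pz (x : Fin 4) (s : ℕ) (h : s ≤ 13) :
    (862 : ℤ) ∣ (hs x s : ℤ) - ∑ y : Fin 4, (cf y : ℤ) * pz x s y := by
  have h1 := hs_spec x ⟨s, by omega⟩
  simp only at h1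
  have h2 : ∑ y : Fin 4, (cf y : ℤ) * pz x s y =
      ((∑ y : Fin 4, cf y * q x s y : ℕ) : ℤ) - 16 * 1199 := by
    unfold pz
    push_cast
    simp only [mul_sub, sum_sub_distrib, ← sum_mul]
    congr 1
  rw [h2]
  omega

lemma mb_inj (u : Fin 4 → ℤ) (h : ∀ a, mb u a = 0) : ∀ a, u a = 0 := by
  have hc : ∀ b y : Fin 4, pz b 13 y =
      (![![1, -2, 5, 1], ![-1, -1, 0, 5], ![3, 5, 1, 0], ![-3, 4, 3, -1]] :
        Fin 4 → Fin 4 → ℤ) b y := by
    decide +kernel
  unfold mb at h
  simp only [Fin.sum_univ_four, hc] at h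
  have h0 : u 0 * 1 + u 1 * (-1) + u 2 * 3 + u 3 * (-3) = 0 := h 0
  have h1 : u 0 * (-2) + u 1 * (-1) + u 2 * 5 + u 3 * 4 = 0 := h 1
  have h2 : u 0 * 5 + u 1 * 0 + u 2 * 1 + u 3 * 3 = 0 := h 2
  have h3 : u 0 * 1 + u 1 * 5 + u 2 * 0 + u 3 * (-1) = 0 := h 3
  have k0 : 862 * u 0 = 0 := by
    linear_combination (56)*h0 + (-61)*h1 + (137)*h2 + (-1)*h3
  have k1 : 862 * u 1 = 0 := by
    linear_combination (-38)*h0 + (26)*h1 + (-16)*h2 + (170)*h3
  have k2 : 862 * u 2 = 0 := by
    linear_combination (122)*h0 + (98)*h1 + (6)*h2 + (44)*h3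
  have k3 : 862 * u 3 = 0 := by
    linear_combination (-134)*h0 + (69)*h1 + (57)*h2 + (-13)*h3
  intro a
  fin_cases a
  · exact (mul_eq_zero.mp k0).resolve_left (by norm_num)
  · exact (mul_eq_zero.mp k1).resolve_left (by norm_num)
  · exact (mul_eq_zero.mp k2).resolve_left (by norm_num)
  · exact (mul_eq_zero.mp k3).resolve_left (by norm_num)

lemma mb_comb (u v w : Fin 4 → ℤ) (a : Fin 4) :
    mb (fun a => u a + v a - 2 * w a) a = mb u a + mb v a - 2 * mb w a := by
  unfold mb
  rw [mul_sum, ← sum_add_distrib, ← sum_sub_distrib]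
  refine sum_congr rfl fun b _ => ?_
  ring

lemma mb_cancel (u v w : Fin 4 → ℤ) (h : ∀ a, mb u a + mb v a = 2 * mb w a) :
    ∀ a, u a + v a = 2 * w a := by
  have := mb_inj (fun a => u a + v a - 2 * w a) (fun a => by rw [mb_comb, h a, sub_self])
  intro a
  have := this a
  linarith

lemma mb_add (p e : ℕ) (he : e ≤ 1) (a : Fin 4) :
    mb (pv (p + e)) a = mb (pv p) a + e * pz (fw p) 13 a := by
  rcases Nat.le_one_iff_eq_zero_or_eq_one.mp he with h | h <;> subst h
  · simp
  · rw [mb_pv_succ]; simp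

lemma weight_mb (u : Fin 4 → ℤ) : (862 : ℤ) ∣ ∑ y, (cf y : ℤ) * mb u y := by
  have : ∑ y, (cf y : ℤ) * mb u y = ∑ b, u b * ∑ y : Fin 4, (cf y : ℤ) * pz b 13 y := by
    unfold mb
    simp only [mul_sum]
    rw [sum_comm]
    refine sum_congr rfl fun b _ => sum_congr rfl fun y _ => ?_
    ring
  rw [this]
  refine dvd_sum fun b _ => Dvd.dvd.mul_left ?_ _
  have h1 := hs_pz b 13 le_rfl
  have h2 : ∀ b : Fin 4, hs b 13 = 0 := by decide +kernel
  rw [h2] at h1
  simpa using h1

lemma rs_spec (L : ℕ) (a b c : Fin 4) (s r t e1 e2 e : ℕ) (h : rs L a s b r c t e1 e2 e = true) :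
    (∀ y : Fin 4, q a s y + q b r y + 2 * e * q c 13 y + 16 * (e1 + e2) =
      q c t y + q c (t + L) y + e1 * q a 13 y + e2 * q b 13 y + 32 * e) ∧
    ((e1 = e ↔ a = c) → (e2 = e ↔ b = c) → (e1 = e2 ↔ a = b) →
      (13 * e + s = 13 * e1 + t ∧ 13 * e + r = 13 * e2 + t + L) ∨
      (13 * e + s = 13 * e1 + t + L ∧ 13 * e + r = 13 * e2 + t)) := by
  unfold rs at h
  rw [Bool.and_eq_true] at h
  obtain ⟨h1, h2⟩ := h
  constructor
  · intro y
    rw [List.all_eq_true] at h1
    exact Nat.eq_of_beq_eq_true (h1 y.val (List.mem_range.mpr y.isLt))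
  · intro c1 c2 c3
    rw [Bool.or_eq_true] at h2
    have e1' : (Nat.beq e1 e == Nat.beq a.val c.val) = true := by
      rw [beq_iff_eq, Bool.eq_iff_iff, Nat.beq_eq, Nat.beq_eq, c1]
      exact ⟨fun h => by rw [h], fun h => Fin.ext h⟩
    have e2' : (Nat.beq e2 e == Nat.beq b.val c.val) = true := by
      rw [beq_iff_eq, Bool.eq_iff_iff, Nat.beq_eq, Nat.beq_eq, c2]
      exact ⟨fun h => by rw [h], fun h => Fin.ext h⟩
    have e3' : (Nat.beq e1 e2 == Nat.beq a.val b.val) = true := by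
      rw [beq_iff_eq, Bool.eq_iff_iff, Nat.beq_eq, Nat.beq_eq, c3]
      exact ⟨fun h => by rw [h], fun h => Fin.ext h⟩
    rw [e1', e2', e3'] at h2
    rcases h2 with h2 | h2
    · exact absurd h2 (by decide)
    · rw [Bool.or_eq_true, Bool.and_eq_true, Bool.and_eq_true, Nat.beq_eq, Nat.beq_eq, Nat.beq_eq,
        Nat.beq_eq] at h2
      exact h2

/-- the walk has no nontrivial symmetric pairs -/
theorem noSym (L : ℕ) (hL : L ≤ 1) (i j k : ℕ) (hik : cls i = cls k)
    (h0 : L = 1 → X (j + 1) 0 ≠ X j 0) (H : ∀ y, X i y + X k y = X j y + X (j + L) y) :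
    (i = j ∧ k = j + L) ∨ (i = j + L ∧ k = j) := by
  obtain ⟨α, s, hs', rfl⟩ : ∃ p s, s < 13 ∧ i = 13 * p + s :=
    ⟨i / 13, i % 13, Nat.mod_lt _ (by norm_num), by omega⟩
  obtain ⟨β, t, ht, rfl⟩ : ∃ p s, s < 13 ∧ j = 13 * p + s :=
    ⟨j / 13, j % 13, Nat.mod_lt _ (by norm_num), by omega⟩
  obtain ⟨γ, r, hr, rfl⟩ : ∃ p s, s < 13 ∧ k = 13 * p + s :=
    ⟨k / 13, k % 13, Nat.mod_lt _ (by norm_num), by omega⟩
  have E : ∀ y, mb (pv α) y + pz (fw α) s y + (mb (pv γ) y + pz (fw γ) r y) =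
      (mb (pv β) y + pz (fw β) t y) + (mb (pv β) y + pz (fw β) (t + L) y) := by
    intro y
    rw [← X_block α s hs'.le, ← X_block β t ht.le, ← X_block γ r hr.le,
      ← X_block β (t + L) (by omega), ← add_assoc (13 * β) t L]
    exact H y
  rw [cls_block α s hs'.le, cls_block γ r hr.le] at hik
  have hC := chk_at L (fw α).val s (fw γ).val r (fw β).val t (by omega) (Fin.isLt _) hs'
    (Fin.isLt _) hr (Fin.isLt _) ht
  have hmod : (hs (fw α) s + hs (fw γ) r) % 862 = (hs (fw β) t + hs (fw β) (t + L)) % 862 := by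
    have w1 := hs_pz (fw α) s hs'.le
    have w2 := hs_pz (fw γ) r hr.le
    have w3 := hs_pz (fw β) t ht.le
    have w4 := hs_pz (fw β) (t + L) (by omega)
    have w5 := weight_mb (fun a => pv α a + pv γ a - 2 * pv β a)
    have w6 : ∑ y, (cf y : ℤ) * mb (fun a => pv α a + pv γ a - 2 * pv β a) y =
        ∑ y : Fin 4, (cf y : ℤ) * pz (fw β) t y + ∑ y : Fin 4, (cf y : ℤ) * pz (fw β) (t + L) y -
          ∑ y : Fin 4, (cf y : ℤ) * pz (fw α) s y - ∑ y : Fin 4, (cf y : ℤ) * pz (fw γ) r y := by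
      rw [← sum_add_distrib, ← sum_sub_distrib, ← sum_sub_distrib]
      refine sum_congr rfl fun y _ => ?_
      rw [mb_comb]
      linear_combination (cf y : ℤ) * E y
    omega
  unfold chk at hC
  rw [hik, hmod, Nat.beq_refl, Nat.beq_refl, Bool.not_true, Bool.false_or, Bool.false_or,
    Bool.or_eq_true] at hC
  have hC' : (rs L (fw α) s (fw γ) r (fw β) t 0 0 0 || rs L (fw α) s (fw γ) r (fw β) t 1 0 0 ||
      rs L (fw α) s (fw γ) r (fw β) t 0 1 0 || rs L (fw α) s (fw γ) r (fw β) t 1 1 0 ||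
      rs L (fw α) s (fw γ) r (fw β) t 0 0 1 || rs L (fw α) s (fw γ) r (fw β) t 1 0 1 ||
      rs L (fw α) s (fw γ) r (fw β) t 0 1 1 || rs L (fw α) s (fw γ) r (fw β) t 1 1 1) = true := by
    rcases hC with hC | hC
    · rw [Bool.and_eq_true, Nat.beq_eq, Nat.beq_eq] at hC
      exfalso
      refine h0 hC.1 ?_
      rw [add_assoc, X_block β (t + 1) (by omega), X_block β t ht.le]
      congr 1
      unfold pz
      have := hC.2
      simp only [Fin.val_zero] at this ⊢
      rw [this]
    · exact hC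
  clear hC
  -- the resolution
  have key : ∀ e1 e2 e : ℕ, e1 ≤ 1 → e2 ≤ 1 → e ≤ 1 →
      rs L (fw α) s (fw γ) r (fw β) t e1 e2 e = true →
      (13 * α + s = 13 * β + t ∧ 13 * γ + r = 13 * β + t + L) ∨
        (13 * α + s = 13 * β + t + L ∧ 13 * γ + r = 13 * β + t) := by
    intro e1 e2 e he1 he2 he hrs
    obtain ⟨r1, r2⟩ := rs_spec _ _ _ _ _ _ _ _ _ _ hrs
    have E2 : ∀ a, mb (pv (α + e1)) a + mb (pv (γ + e2)) a = 2 * mb (pv (β + e)) a := by
      intro a
      rw [mb_add _ _ he1, mb_add _ _ he2, mb_add _ _ he]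
      have h1 := E a
      have h2 := r1 a
      unfold pz at h1 ⊢
      have h3 : ((q (fw α) s a : ℤ) + q (fw γ) r a + 2 * e * q (fw β) 13 a + 16 * (e1 + e2)) =
          q (fw β) t a + q (fw β) (t + L) a + e1 * q (fw α) 13 a + e2 * q (fw γ) 13 a + 32 * e := by
        exact_mod_cast h2
      linarith
    have E3 := mb_cancel _ _ _ E2
    obtain ⟨g1, g2⟩ := asf (β + e) (α + e1) (γ + e2) E3
    have l1 := lab α β e1 e he1 he g1
    have l2 := lab γ β e2 e he2 he g2
    have l3 := lab α γ e1 e2 he1 he2 (by omega)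
    rcases r2 l1 l2 l3 with ⟨f1, f2⟩ | ⟨f1, f2⟩
    · left; omega
    · right; omega
  simp only [Bool.or_eq_true] at hC'
  rcases hC' with ((((((hC | hC) | hC) | hC) | hC) | hC) | hC) | hC
  · exact key _ _ _ (by norm_num) (by norm_num) (by norm_num) hC
  · exact key _ _ _ (by norm_num) (by norm_num) (by norm_num) hC
  · exact key _ _ _ (by norm_num) (by norm_num) (by norm_num) hC
  · exact key _ _ _ (by norm_num) (by norm_num) (by norm_num) hC
  · exact key _ _ _ (by norm_num) (by norm_num) (by norm_num) hC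
  · exact key _ _ _ (by norm_num) (by norm_num) (by norm_num) hC
  · exact key _ _ _ (by norm_num) (by norm_num) (by norm_num) hC
  · exact key _ _ _ (by norm_num) (by norm_num) (by norm_num) hC

lemma step_tab : ∀ x : Fin 4, ∀ t : Fin 13,
    (cl x t = 0 ∧ cl x (t + 1 : ℕ) = 0 ∧ (q x (t + 1 : ℕ) 0 = q x t 0 + 1 ∨
        q x t 0 = q x (t + 1 : ℕ) 0 + 1) ∧ ∀ y : Fin 4, y ≠ 0 → q x (t + 1 : ℕ) y = q x t y) ∨
      (cl x t + cl x (t + 1 : ℕ) = 1 ∧ ∃ y : Fin 4, y ≠ 0 ∧ (q x (t + 1 : ℕ) y = q x t y + 1 ∨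
        q x t y = q x (t + 1 : ℕ) y + 1) ∧
        ∀ y' : Fin 4, y' ≠ y → q x (t + 1 : ℕ) y' = q x t y') := by
  decide +kernel

/-- the steps of the walk -/
theorem step (k : ℕ) : (cls k = 0 ∧ cls (k + 1) = 0 ∧ (X (k + 1) 0 = X k 0 + 1 ∨
      X (k + 1) 0 = X k 0 - 1) ∧ ∀ y : Fin 4, y ≠ 0 → X (k + 1) y = X k y) ∨
    (cls k + cls (k + 1) = 1 ∧ ∃ y : Fin 4, y ≠ 0 ∧ (X (k + 1) y = X k y + 1 ∨
      X (k + 1) y = X k y - 1) ∧ ∀ y' : Fin 4, y' ≠ y → X (k + 1) y' = X k y') := by
  obtain ⟨p, t, ht, rfl⟩ : ∃ p s, s < 13 ∧ k = 13 * p + s :=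
    ⟨k / 13, k % 13, Nat.mod_lt _ (by norm_num), by omega⟩
  have h := step_tab (fw p) ⟨t, ht⟩
  simp only at h
  have hX : ∀ y, X (13 * p + t + 1) y - X (13 * p + t) y =
      (q (fw p) (t + 1) y : ℤ) - q (fw p) t y := by
    intro y
    rw [add_assoc, X_block p (t + 1) (by omega), X_block p t ht.le]
    unfold pz
    ring
  rw [show cls (13 * p + t) = cl (fw p) t from cls_block p t ht.le,
    show cls (13 * p + t + 1) = cl (fw p) (t + 1) by
      rw [add_assoc]; exact cls_block p (t + 1) (by omega)]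
  rcases h with ⟨h1, h2, h3, h4⟩ | ⟨h1, y, hy, h3, h4⟩
  · left
    refine ⟨h1, h2, ?_, ?_⟩
    · have := hX 0
      simp only [Fin.val_zero] at this
      omega
    · intro y hy
      have := hX y
      have := h4 y hy
      omega
  · right
    refine ⟨h1, y, hy, ?_, ?_⟩
    · have := hX y
      omega
    · intro y' hy'
      have := hX y'
      have := h4 y' hy'
      omega

lemma X_zero (y : Fin 4) : X 0 y = 0 := by
  have := X_block 0 0 (by norm_num) y
  rw [show 13 * 0 + 0 = 0 from rfl] at this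
  rw [this, pz_zero, add_zero]
  unfold mb
  exact sum_eq_zero fun b _ => by rw [pv_zero, zero_mul]

lemma X_bound (k : ℕ) (y : Fin 4) : |X k y| ≤ k := by
  induction k with
  | zero => rw [X_zero]; simp
  | succ k ih =>
    have h : |X (k + 1) y - X k y| ≤ 1 := by
      rcases step k with ⟨-, -, h3, h4⟩ | ⟨-, z, hz, h3, h4⟩
      · by_cases hy : y = 0
        · subst hy
          rcases h3 with h3 | h3 <;> rw [h3] <;> simp
        · rw [h4 y hy]; simp
      · by_cases hy : y = z
        · subst hy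
          rcases h3 with h3 | h3 <;> rw [h3] <;> simp
        · rw [h4 y hy]; simp
    have h2 : |X (k + 1) y| ≤ |X (k + 1) y - X k y| + |X k y| := by
      have := abs_add_le (X (k + 1) y - X k y) (X k y)
      simpa using this
    push_cast
    linarith

end Pool.Agent.Lib.MP_4dd93e_co.Blk
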