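import Mathlib

/-!
# Generic evaluations of integral group rings of free abelian groups

For a finite family of triples of elements of the group ring `ℤ[ℤ^κ]` there are a ring
homomorphism to `ℂ` sending the group elements to the unit circle, and a positive real number `ρ`,
such that `φ a + ρ φ b + ρ² φ c = 0` only if `a = b = c = 0` for all triples of the family.
-/

set_option autoImplicit false

namespace Pool.Agent.Lib.MP_4dd93e_co

open Finset Polynomial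

section lin

variable {κ : Type*} [Fintype κ]

/-- linear form with coefficients the powers of `B` -/
def lam (idx : κ → ℕ) (B : ℤ) : (κ → ℤ) →+ ℤ where
  toFun v := ∑ k, v k * B ^ idx k
  map_zero' := by simp
  map_add' v w := by simp [add_mul, sum_add_distrib]

lemma exists_lam_ne (idx : κ → ℕ) (hidx : Function.Injective idx) (D : Finset (κ → ℤ))
    (hD : ∀ d ∈ D, d ≠ 0) : ∃ B : ℤ, ∀ d ∈ D, lam idx B d ≠ 0 := by
  classical
  set P : (κ → ℤ) → ℤ[X] := fun d => ∑ k, C (d k) * X ^ idx k with hP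
  have hP0 : ∀ d, d ≠ 0 → P d ≠ 0 := by
    intro d hd h
    apply hd
    funext k
    have := congrArg (fun p => coeff p (idx k)) h
    simp only [hP, finsetSum_coeff, coeff_C_mul, coeff_X_pow, coeff_zero] at this
    rw [sum_eq_single k] at this
    · simpa using this
    · intro b _ hb
      rw [if_neg (fun h => hb (hidx h).symm)]; simp
    · simp
  have hprod : ∏ d ∈ D, P d ≠ 0 := prod_ne_zero_iff.mpr fun d hd => hP0 d (hD d hd)
  obtain ⟨B, hB⟩ : ∃ B : ℤ, (∏ d ∈ D, P d).eval B ≠ 0 := by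
    by_contra hcon
    push Not at hcon
    exact hprod (Polynomial.funext fun x => by rw [hcon x, eval_zero])
  refine ⟨B, fun d hd h => hB ?_⟩
  rw [eval_prod]
  refine prod_eq_zero hd ?_
  simp only [hP, eval_finsetSum, eval_mul, eval_C, eval_pow, eval_X]
  exact h

lemma exists_lam_inj (idx : κ → ℕ) (hidx : Function.Injective idx) (S : Finset (κ → ℤ)) :
    ∃ B : ℤ, Set.InjOn (lam idx B) S := by
  classical
  obtain ⟨B, hB⟩ := exists_lam_ne idx hidx
    (((S ×ˢ S).filter fun p => p.1 ≠ p.2).image fun p => p.1 - p.2) (by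
      intro d hd
      simp only [mem_image, mem_filter] at hd
      obtain ⟨p, ⟨_, hp⟩, rfl⟩ := hd
      exact sub_ne_zero.mpr hp)
  refine ⟨B, fun x hx y hy hxy => ?_⟩
  by_contra hne
  refine hB (x - y) ?_ (by rw [map_sub, hxy, sub_self])
  simp only [mem_image, mem_filter, mem_product]
  exact ⟨(x, y), ⟨⟨hx, hy⟩, hne⟩, rfl⟩

end lin

lemma circle_infinite : {z : ℂ | ‖z‖ = 1}.Infinite := by
  have h1 : (Set.Ioo (0 : ℝ) 1).Infinite := Set.Ioo_infinite (by norm_num)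
  have h2 : Set.InjOn (fun c : ℝ => (⟨c, Real.sqrt (1 - c ^ 2)⟩ : ℂ)) (Set.Ioo (0 : ℝ) 1) := by
    intro a _ b _ h
    exact congrArg Complex.re h
  refine (h1.image h2).mono ?_
  rintro _ ⟨c, hc, rfl⟩
  simp only [Set.mem_ofPred_eq]
  rw [Complex.norm_def, Complex.normSq_mk]
  have : (0 : ℝ) ≤ 1 - c ^ 2 := by nlinarith [hc.1, hc.2]
  rw [Real.mul_self_sqrt this]
  rw [show c * c + (1 - c ^ 2) = 1 by ring, Real.sqrt_one]

lemma exists_circle_ne (P : ℂ[X]) (hP : P ≠ 0) : ∃ t : ℂ, ‖t‖ = 1 ∧ P.eval t ≠ 0 := by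
  by_contra hcon
  push Not at hcon
  apply circle_infinite
  refine (P.roots.toFinset.finite_toSet).subset ?_
  intro z hz
  simp only [mem_coe, Multiset.mem_toFinset, mem_roots', IsRoot.def]
  exact ⟨hP, hcon z hz⟩

lemma exists_pos_ne (P : ℂ[X]) (hP : P ≠ 0) : ∃ t : ℝ, 0 < t ∧ P.eval (t : ℂ) ≠ 0 := by
  by_contra hcon
  push Not at hcon
  have h1 : (Set.Ioi (0 : ℝ)).Infinite := Set.Ioi_infinite 0
  have h2 := h1.image (f := fun x : ℝ => (x : ℂ)) (fun a _ b _ h => Complex.ofReal_injective h)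
  apply h2
  refine (P.roots.toFinset.finite_toSet).subset ?_
  rintro _ ⟨z, hz, rfl⟩
  simp only [mem_coe, Multiset.mem_toFinset, mem_roots', IsRoot.def]
  exact ⟨hP, hcon z hz⟩

section group_ring

variable {κ : Type*} [Fintype κ]

/-- evaluation of the group ring at powers of `t` -/
noncomputable def evl (Λ : (κ → ℤ) →+ ℤ) (t : ℂ) (ht : t ≠ 0) :
    AddMonoidAlgebra ℤ (κ → ℤ) →ₐ[ℤ] ℂ :=
  AddMonoidAlgebra.lift ℤ ℂ (κ → ℤ)
    { toFun := fun x => t ^ Λ x.toAdd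
      map_one' := by simp
      map_mul' := fun x y => by simp [zpow_add₀ ht] }

omit [Fintype κ] in
lemma evl_single (Λ : (κ → ℤ) →+ ℤ) (t : ℂ) (ht : t ≠ 0) (x : κ → ℤ) (n : ℤ) :
    evl Λ t ht (AddMonoidAlgebra.single x n) = n * t ^ Λ x := by
  rw [evl, AddMonoidAlgebra.lift_single, zsmul_eq_mul]
  rfl

omit [Fintype κ] in
lemma evl_apply (Λ : (κ → ℤ) →+ ℤ) (t : ℂ) (ht : t ≠ 0) (r : AddMonoidAlgebra ℤ (κ → ℤ)) :
    evl Λ t ht r = ∑ x ∈ r.coeff.support, (r.coeff x : ℂ) * t ^ Λ x := by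
  rw [evl, AddMonoidAlgebra.lift_apply, Finsupp.sum]
  refine sum_congr rfl fun x _ => ?_
  rw [zsmul_eq_mul]
  rfl

/-- the shifted polynomial of an element of the group ring -/
noncomputable def shp (Λ : (κ → ℤ) →+ ℤ) (r : AddMonoidAlgebra ℤ (κ → ℤ)) : ℂ[X] :=
  ∑ x ∈ r.coeff.support, C (r.coeff x : ℂ) * X ^ (Λ x + ∑ y ∈ r.coeff.support, |Λ y|).toNat

omit [Fintype κ] in
lemma shp_nonneg (Λ : (κ → ℤ) →+ ℤ) (r : AddMonoidAlgebra ℤ (κ → ℤ)) (x : κ → ℤ)
    (hx : x ∈ r.coeff.support) : 0 ≤ Λ x + ∑ y ∈ r.coeff.support, |Λ y| := by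
  have h1 : |Λ x| ≤ ∑ y ∈ r.coeff.support, |Λ y| :=
    single_le_sum (f := fun y => |Λ y|) (fun y _ => abs_nonneg _) hx
  have := neg_abs_le (Λ x)
  linarith

omit [Fintype κ] in
lemma shp_ne (Λ : (κ → ℤ) →+ ℤ) (r : AddMonoidAlgebra ℤ (κ → ℤ))
    (hΛ : Set.InjOn Λ r.coeff.support) (hr : r ≠ 0) : shp Λ r ≠ 0 := by
  intro h
  apply hr
  ext x
  by_contra hx
  have hx' : x ∈ r.coeff.support := Finsupp.mem_support_iff.mpr hx
  have := congrArg (fun p => coeff p (Λ x + ∑ y ∈ r.coeff.support, |Λ y|).toNat) h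
  simp only [shp, finsetSum_coeff, coeff_C_mul, coeff_X_pow, coeff_zero] at this
  rw [sum_eq_single x] at this
  · simp at this
    exact hx this
  · intro b hb hbx
    rw [if_neg, mul_zero]
    intro heq
    apply hbx
    apply hΛ hb hx'
    have h1 := shp_nonneg Λ r x hx'
    have h2 := shp_nonneg Λ r b hb
    omega
  · intro h; exact absurd hx' h

omit [Fintype κ] in
lemma shp_eval (Λ : (κ → ℤ) →+ ℤ) (t : ℂ) (ht : t ≠ 0) (r : AddMonoidAlgebra ℤ (κ → ℤ)) :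
    (shp Λ r).eval t = t ^ (∑ y ∈ r.coeff.support, |Λ y|) * evl Λ t ht r := by
  rw [evl_apply, shp, eval_finsetSum, mul_sum]
  refine sum_congr rfl fun x hx => ?_
  rw [eval_mul, eval_C, eval_pow, eval_X]
  have : t ^ (Λ x + ∑ y ∈ r.coeff.support, |Λ y|).toNat =
      t ^ (Λ x + ∑ y ∈ r.coeff.support, |Λ y|) := by
    rw [← zpow_natCast, Int.toNat_of_nonneg (shp_nonneg Λ r x hx)]
  rw [this, zpow_add₀ ht]
  ring

/-- the conjugation of the group ring -/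
noncomputable def cj : AddMonoidAlgebra ℤ (κ → ℤ) →+* AddMonoidAlgebra ℤ (κ → ℤ) :=
  AddMonoidAlgebra.mapDomainRingHom ℤ (negAddMonoidHom : (κ → ℤ) →+ (κ → ℤ))

omit [Fintype κ] in
lemma cj_single (x : κ → ℤ) (n : ℤ) :
    cj (AddMonoidAlgebra.single x n) = AddMonoidAlgebra.single (-x) n := by
  simp [cj]

omit [Fintype κ] in
lemma cj_coeff (r : AddMonoidAlgebra ℤ (κ → ℤ)) (x : κ → ℤ) :
    (cj r).coeff x = r.coeff (-x) := by
  have : x = negAddMonoidHom (-x) := by simp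
  conv_lhs => rw [this]
  simp only [cj, AddMonoidAlgebra.mapDomainRingHom_apply]
  exact Finsupp.mapDomain_apply neg_injective _ _

omit [Fintype κ] in
lemma evl_cj (Λ : (κ → ℤ) →+ ℤ) (t : ℂ) (ht : t ≠ 0) (h1 : ‖t‖ = 1)
    (r : AddMonoidAlgebra ℤ (κ → ℤ)) :
    evl Λ t ht (cj r) = (starRingEnd ℂ) (evl Λ t ht r) := by
  have hconj : (starRingEnd ℂ) t = t⁻¹ := by
    rw [Complex.inv_def, Complex.normSq_eq_norm_sq, h1]; simp
  induction r using AddMonoidAlgebra.induction with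
  | zero => simp
  | single_add a b f _ _ ih =>
    rw [map_add, map_add, map_add, map_add, ih, cj_single, evl_single, evl_single, map_mul,
      map_zpow₀, hconj, map_neg, inv_zpow, zpow_neg]
    simp

theorem exists_generic (S : Finset (AddMonoidAlgebra ℤ (κ → ℤ) × AddMonoidAlgebra ℤ (κ → ℤ) ×
    AddMonoidAlgebra ℤ (κ → ℤ))) :
    ∃ (φ : AddMonoidAlgebra ℤ (κ → ℤ) →+* ℂ) (ρ : ℝ), 0 < ρ ∧
      (∀ x : κ → ℤ, ‖φ (AddMonoidAlgebra.single x 1)‖ = 1) ∧
      (∀ r, φ (cj r) = (starRingEnd ℂ) (φ r)) ∧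
      ∀ F ∈ S, φ F.1 + ρ * φ F.2.1 + ρ ^ 2 * φ F.2.2 = 0 → F.1 = 0 ∧ F.2.1 = 0 ∧ F.2.2 = 0 := by
  classical
  -- all the elements involved
  set E : Finset (AddMonoidAlgebra ℤ (κ → ℤ)) :=
    (S.image (fun F => F.1) ∪ S.image (fun F => F.2.1) ∪ S.image (fun F => F.2.2)).filter
      (fun r => r ≠ 0) with hE
  obtain ⟨B, hB⟩ := exists_lam_inj (fun k => (Fintype.equivFin κ k : ℕ))
    (fun a b h => (Fintype.equivFin κ).injective (Fin.ext h)) (E.biUnion fun r => r.coeff.support)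
  set Λ := lam (fun k => (Fintype.equivFin κ k : ℕ)) B with hΛ
  have hinj : ∀ r ∈ E, Set.InjOn Λ r.coeff.support := by
    intro r hr x hx y hy hxy
    exact hB (mem_coe.mpr (mem_biUnion.mpr ⟨r, hr, hx⟩)) (mem_coe.mpr (mem_biUnion.mpr ⟨r, hr, hy⟩))
      hxy
  obtain ⟨t, ht, hPt⟩ := exists_circle_ne (∏ r ∈ E, shp Λ r)
    (prod_ne_zero_iff.mpr fun r hr => shp_ne Λ r (hinj r hr) (mem_filter.mp hr).2)
  have ht0 : t ≠ 0 := by
    intro h; rw [h, norm_zero] at ht; exact zero_ne_one ht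
  rw [eval_prod, prod_ne_zero_iff] at hPt
  have hφ : ∀ r ∈ E, evl Λ t ht0 r ≠ 0 := by
    intro r hr h
    apply hPt r hr
    rw [shp_eval Λ t ht0, h, mul_zero]
  -- choice of ρ
  set q : (AddMonoidAlgebra ℤ (κ → ℤ) × AddMonoidAlgebra ℤ (κ → ℤ) ×
    AddMonoidAlgebra ℤ (κ → ℤ)) → ℂ[X] := fun F =>
      C (evl Λ t ht0 F.1) + C (evl Λ t ht0 F.2.1) * X + C (evl Λ t ht0 F.2.2) * X ^ 2 with hq
  have hφ0 : ∀ r, r ∈ (S.image (fun F => F.1) ∪ S.image (fun F => F.2.1) ∪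
      S.image (fun F => F.2.2)) → evl Λ t ht0 r = 0 → r = 0 := by
    intro r hr h
    by_contra hne
    exact hφ r (mem_filter.mpr ⟨hr, hne⟩) h
  have hq0 : ∀ F ∈ S, q F = 0 → F.1 = 0 ∧ F.2.1 = 0 ∧ F.2.2 = 0 := by
    intro F hF h
    have c0 := congrArg (fun p => coeff p 0) h
    have c1 := congrArg (fun p => coeff p 1) h
    have c2 := congrArg (fun p => coeff p 2) h
    simp [hq, coeff_C] at c0 c1 c2
    refine ⟨hφ0 _ ?_ c0, hφ0 _ ?_ c1, hφ0 _ ?_ c2⟩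
    · simp only [mem_union, mem_image]; exact Or.inl (Or.inl ⟨F, hF, rfl⟩)
    · simp only [mem_union, mem_image]; exact Or.inl (Or.inr ⟨F, hF, rfl⟩)
    · simp only [mem_union, mem_image]; exact Or.inr ⟨F, hF, rfl⟩
  obtain ⟨ρ, hρ, hPρ⟩ := exists_pos_ne (∏ F ∈ S.filter (fun F => q F ≠ 0), q F)
    (prod_ne_zero_iff.mpr fun F hF => (mem_filter.mp hF).2)
  rw [eval_prod, prod_ne_zero_iff] at hPρ
  refine ⟨(evl Λ t ht0 : AddMonoidAlgebra ℤ (κ → ℤ) →+* ℂ), ρ, hρ, ?_, ?_, ?_⟩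
  · intro x
    show ‖evl Λ t ht0 _‖ = 1
    rw [evl_single]
    simp [norm_zpow, ht]
  · intro r
    exact evl_cj Λ t ht0 ht r
  · intro F hF h
    apply hq0 F hF
    by_contra hne
    apply hPρ F (mem_filter.mpr ⟨hF, hne⟩)
    simp only [hq, eval_add, eval_mul, eval_C, eval_pow, eval_X]
    rw [← h]
    show _ = evl Λ t ht0 _ + _ * evl Λ t ht0 _ + _ * evl Λ t ht0 _
    ring

end group_ring

end Pool.Agent.Lib.MP_4dd93e_co
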