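import Pool.Agent.Lib.MP_4dd93e_co.Word
import Pool.Agent.Lib.MP_4dd93e_co.Generic

/-!
# Codes of vertices and their formal positions
-/

set_option autoImplicit false

namespace Pool.Agent.Lib.MP_4dd93e_co

open Finset AddMonoidAlgebra

/-- exponents -/
abbrev Ex := (Fin 6 ⊕ (Bool × Bool)) → ℤ

/-- the group ring of the exponents -/
abbrev GR := AddMonoidAlgebra ℤ Ex

/-- codes; the head of the list is the last entry -/
abbrev Code := List (Bool × ℕ)

/-- the entry at position `l` (from the end of the list) -/
def ent : Code → ℕ → Bool × ℕ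
  | [], _ => (false, 0)
  | e :: c, l => if l = c.length then e else ent c l

/-- key of an entry -/
def kk (e : Bool × ℕ) : Bool × Bool := (e.1, e.2.bodd)

/-- keys of a code -/
def key (c : Code) : ℕ → Bool × Bool
  | 0 => (false, false)
  | l + 1 => kk (ent c l)

/-- the step of the exponent at level `i` with key `k` -/
def stepv (i : ℕ) (k : Bool × Bool) : Ex := Pi.single (Sum.inl (fw i)) 1 + Pi.single (Sum.inr k) 1

/-- the exponent at level `i` -/
def xi (c : Code) (i : ℕ) : Ex := ∑ l ∈ range i, stepv l (key c l)

/-- the coefficient at level `i` -/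
def ai (c : Code) : ℕ → ℤ
  | 0 => if (ent c 0).1 then 1 else 0
  | i + 1 => (if (ent c (i + 1)).1 then 1 else 0) + ((ent c i).2 : ℤ)

/-- a monomial of the level `i`; the first component holds the even levels and the second the odd
ones -/
noncomputable def mono (i : ℕ) (x : Ex) (n : ℤ) : GR × GR :=
  if i.bodd then (0, single x n) else (single x n, 0)

/-- the formal position of a code -/
noncomputable def fv (c : Code) : GR × GR := ∑ i ∈ range (c.length + 1), mono i (xi c i) (ai c i)

/-- the formal vector of the edge above the code -/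
noncomputable def fy (c : Code) : GR × GR := mono c.length (xi c c.length) 1

/-- the formal vector of the rails of the code -/
noncomputable def fz (c : Code) : GR × GR := mono (c.length + 1) (xi c (c.length + 1)) 1

lemma ent_ge (c : Code) (l : ℕ) (h : c.length ≤ l) : ent c l = (false, 0) := by
  induction c with
  | nil => rfl
  | cons e c ih =>
    simp only [List.length_cons] at h
    rw [ent, if_neg (by omega), ih (by omega)]

lemma ent_cons_lt (e : Bool × ℕ) (c : Code) (l : ℕ) (h : l < c.length) :
    ent (e :: c) l = ent c l := by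
  rw [ent, if_neg (by omega)]

lemma ent_cons_self (e : Bool × ℕ) (c : Code) : ent (e :: c) c.length = e := by
  rw [ent, if_pos rfl]

lemma key_cons (e : Bool × ℕ) (c : Code) (l : ℕ) (h : l ≤ c.length) :
    key (e :: c) l = key c l := by
  cases l with
  | zero => rfl
  | succ l => rw [key, key, ent_cons_lt e c l (by omega)]

lemma xi_cons (e : Bool × ℕ) (c : Code) (i : ℕ) (h : i ≤ c.length + 1) :
    xi (e :: c) i = xi c i := by
  unfold xi
  refine sum_congr rfl fun l hl => ?_
  rw [key_cons e c l (by have := mem_range.mp hl; omega)]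

lemma xi_succ (c : Code) (i : ℕ) : xi c (i + 1) = xi c i + stepv i (key c i) := by
  unfold xi; rw [sum_range_succ]

lemma ai_cons_lt (e : Bool × ℕ) (c : Code) (i : ℕ) (h : i < c.length) :
    ai (e :: c) i = ai c i := by
  cases i with
  | zero => rw [ai, ai, ent_cons_lt e c 0 h]
  | succ i => rw [ai, ai, ent_cons_lt e c _ h, ent_cons_lt e c _ (by omega)]

lemma ai_cons_self (e : Bool × ℕ) (c : Code) :
    ai (e :: c) c.length = ai c c.length + if e.1 then 1 else 0 := by
  cases c with
  | nil => simp [ai, ent]
  | cons d c =>
    show ai (e :: d :: c) (c.length + 1) = ai (d :: c) (c.length + 1) + _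
    rw [ai, ai]
    have h1 : ent (e :: d :: c) (c.length + 1) = e := ent_cons_self e (d :: c)
    have h2 : ent (e :: d :: c) c.length = ent (d :: c) c.length :=
      ent_cons_lt e (d :: c) _ (by simp)
    have h3 : ent (d :: c) (c.length + 1) = (false, 0) := ent_ge _ _ (by simp)
    rw [h1, h2, h3]
    simp only [Bool.false_eq_true, if_false, zero_add]
    ring

lemma ai_cons_succ (e : Bool × ℕ) (c : Code) : ai (e :: c) (c.length + 1) = e.2 := by
  rw [ai, ent_ge (e :: c) _ (by simp), ent_cons_self]
  simp

lemma ai_gt (c : Code) (i : ℕ) (h : c.length < i) : ai c i = 0 := by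
  cases i with
  | zero => omega
  | succ i =>
    rw [ai, ent_ge c _ (by omega), ent_ge c _ (by omega)]
    simp

lemma mono_add (i : ℕ) (x : Ex) (m n : ℤ) : mono i x (m + n) = mono i x m + mono i x n := by
  unfold mono
  split_ifs <;> simp

lemma mono_smul (i : ℕ) (x : Ex) (m n : ℤ) : mono i x (m * n) = m • mono i x n := by
  unfold mono
  split_ifs <;> simp

lemma fv_nil : fv [] = 0 := by
  simp [fv, mono, ai, ent]

/-- the recursion of the positions -/
lemma fv_cons (b : Bool) (j : ℕ) (c : Code) :
    fv ((b, j) :: c) = fv c + (if b then (1 : ℤ) else 0) • fy c + (j : ℤ) • fz c := by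
  unfold fv fy fz
  rw [List.length_cons, sum_range_succ, sum_range_succ, sum_range_succ _ c.length,
    ai_cons_succ, ai_cons_self, mono_add, xi_cons _ _ _ (by omega), xi_cons _ _ _ le_rfl]
  have : ∑ i ∈ range c.length, mono i (xi ((b, j) :: c) i) (ai ((b, j) :: c) i) =
      ∑ i ∈ range c.length, mono i (xi c i) (ai c i) := by
    refine sum_congr rfl fun i hi => ?_
    have := mem_range.mp hi
    rw [xi_cons _ _ _ (by omega), ai_cons_lt _ _ _ this]
  rw [this, ← mono_smul, ← mono_smul, mul_one, mul_one]
  abel

lemma fy_cons (e : Bool × ℕ) (c : Code) : fy (e :: c) = fz c := by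
  unfold fy fz
  rw [List.length_cons, xi_cons _ _ _ le_rfl]

lemma fv_false_zero (c : Code) : fv ((false, 0) :: c) = fv c := by
  rw [fv_cons]; simp

lemma fv_true_zero (b : Bool) (j : ℕ) (c : Code) :
    fv ((true, 0) :: (b, j) :: c) = fv ((b, j + 1) :: c) := by
  rw [fv_cons, fv_cons, fv_cons, fy_cons]
  simp [add_smul]
  abel

lemma xi_inl (c : Code) (i : ℕ) (a : Fin 6) : xi c i (Sum.inl a) = pv i a := by
  unfold xi pv stepv
  simp [Finset.sum_apply, Pi.single_apply, eq_comm]

lemma xi_level (c : Code) (i : ℕ) : ∑ a, xi c i (Sum.inl a) = i := by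
  simp only [xi_inl, pv_sum]

lemma xi_eq_level (c d : Code) (i k : ℕ) (h : xi c i = xi d k) : i = k := by
  have h1 := xi_level c i
  rw [h, xi_level] at h1
  exact_mod_cast h1.symm

/-- the total coefficient at an exponent -/
noncomputable def tot (z : Ex) : GR × GR →+ ℤ where
  toFun F := F.1.coeff z + F.2.coeff z
  map_zero' := by simp
  map_add' F G := by simp; abel

lemma tot_mono (z : Ex) (i : ℕ) (x : Ex) (n : ℤ) : tot z (mono i x n) = if x = z then n else 0 := by
  classical
  unfold mono tot
  split_ifs with h1 h2 h2 <;> simp [h2]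

lemma tot_fv (c : Code) (d : Code) (i : ℕ) :
    tot (xi d i) (fv c) = if xi c i = xi d i then ai c i else 0 := by
  classical
  unfold fv
  rw [map_sum]
  simp only [tot_mono]
  by_cases hi : i < c.length + 1
  · rw [sum_eq_single i]
    · intro k _ hk
      rw [if_neg]
      intro h
      exact hk (xi_eq_level c d k i h)
    · intro h; exact absurd (mem_range.mpr hi) h
  · rw [sum_eq_zero, ai_gt c i (by omega)]
    · simp
    · intro k hk
      rw [if_neg]
      intro h
      have := xi_eq_level c d k i h
      have := mem_range.mp hk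
      omega

/-- canonical codes: empty, or the last entry has a positive second component -/
def Canon (c : Code) : Prop := ∀ e d, c = e :: d → 1 ≤ e.2

lemma fv_eq_imp (c d : Code) (h : fv c = fv d) (i : ℕ) :
    (xi c i = xi d i ∧ ai c i = ai d i) ∨ (xi c i ≠ xi d i ∧ ai c i = 0 ∧ ai d i = 0) := by
  have h1 := tot_fv c d i
  have h2 := tot_fv d d i
  have h3 := tot_fv c c i
  have h4 := tot_fv d c i
  rw [if_pos rfl] at h2 h3
  rw [h] at h1 h3
  by_cases hx : xi c i = xi d i
  · left
    rw [if_pos hx] at h1
    exact ⟨hx, by rw [← h1, h2]⟩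
  · right
    rw [if_neg hx] at h1
    rw [if_neg (fun h => hx h.symm)] at h4
    refine ⟨hx, ?_, ?_⟩
    · rw [← h3, h4]
    · rw [← h2, h1]

lemma ai_zero_imp (c : Code) (i : ℕ) (h : ai c (i + 1) = 0) :
    (ent c (i + 1)).1 = false ∧ (ent c i).2 = 0 := by
  rw [ai] at h
  have h1 : (0 : ℤ) ≤ ((ent c i).2 : ℤ) := by positivity
  cases hb : (ent c (i + 1)).1
  · rw [hb] at h
    simp only [Bool.false_eq_true, if_false, zero_add] at h
    exact ⟨rfl, by exact_mod_cast h⟩
  · rw [hb] at h
    simp only [if_true] at h
    omega

lemma canon_last (c : Code) (hc : Canon c) (h : c.length ≠ 0) :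
    1 ≤ (ent c (c.length - 1)).2 := by
  cases c with
  | nil => simp at h
  | cons e d =>
    simp only [List.length_cons, Nat.add_sub_cancel]
    rw [ent_cons_self]
    exact hc e d rfl

lemma decode_aux (c d : Code) (hd : Canon d) (l : ℕ) (hlt : ∀ m < l, ent c m = ent d m)
    (hb : (ent c l).1 = (ent d l).1) (hj : (ent c l).2 = (ent d l).2 + 1)
    (h0 : (ent c (l + 1)).1 = false) (h1 : (ent d (l + 1)).1 = true)
    (H : ∀ i, xi c i ≠ xi d i → ai c i = 0 ∧ ai d i = 0) : False := by
  classical
  -- equal keys below
  have hkey : ∀ m, m < l + 1 → key c m = key d m := by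
    intro m hm
    cases m with
    | zero => rfl
    | succ m => rw [key, key, hlt m (by omega)]
  have hX : xi c (l + 1) = xi d (l + 1) := by
    unfold xi
    exact sum_congr rfl fun m hm => by rw [hkey m (mem_range.mp hm)]
  have hk1 : key c (l + 1) ≠ key d (l + 1) := by
    rw [key, key, kk, kk]
    intro h
    have := congrArg Prod.snd h
    simp only [hj, Nat.bodd_succ] at this
    cases hh : (ent d l).2.bodd <;> simp [hh] at this
  -- level l + 2
  have hne2 : xi c (l + 2) ≠ xi d (l + 2) := by
    intro h
    rw [xi_succ c (l + 1), xi_succ d (l + 1), hX] at h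
    have h' := add_left_cancel h
    have := congrFun h' (Sum.inr (key c (l + 1)))
    simp only [stepv, Pi.add_apply, Pi.single_apply, if_true] at this
    rw [if_neg (fun h => hk1 (Sum.inr_injective h))] at this
    simp at this
  obtain ⟨a1, a2⟩ := H _ hne2
  have b1 := ai_zero_imp c _ a1
  have b2 := ai_zero_imp d _ a2
  have hkc : key c (l + 2) = (false, false) := by
    rw [key, kk, h0, b1.2]; rfl
  have hkd : key d (l + 2) = (true, false) := by
    rw [key, kk, h1, b2.2]; rfl
  -- the coordinate which differs from level l + 3 on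
  have hco : ∀ n, xi c (l + 3 + n) (Sum.inr (!(ent c l).1, false)) ≠
      xi d (l + 3 + n) (Sum.inr (!(ent c l).1, false)) := by
    intro n
    induction n using Nat.strong_induction_on with
    | _ n ih =>
      cases n with
      | zero =>
        rw [add_zero, xi_succ c (l + 2), xi_succ d (l + 2), xi_succ c (l + 1), xi_succ d (l + 1),
          hX, hkc, hkd]
        simp only [stepv, Pi.add_apply, Pi.single_apply]
        rw [key, key, kk, kk, ← hb]
        cases (ent c l).1 <;> simp
      | succ n =>
        have hk : ∀ m, m < n + 1 → xi c (l + 3 + m) ≠ xi d (l + 3 + m) := by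
          intro m hm h
          exact ih m hm (by rw [h])
        have e1 : (ent c (l + 2 + n)).1 = false ∧ (ent d (l + 2 + n)).1 = false := by
          cases n with
          | zero => exact ⟨b1.1, b2.1⟩
          | succ n =>
            obtain ⟨x1, x2⟩ := H _ (hk n (by omega))
            exact ⟨(ai_zero_imp c (l + 2 + n) (by rw [← x1]; congr 1; omega)).1,
              (ai_zero_imp d (l + 2 + n) (by rw [← x2]; congr 1; omega)).1⟩
        have e2 : (ent c (l + 2 + n)).2 = 0 ∧ (ent d (l + 2 + n)).2 = 0 := by
          obtain ⟨x1, x2⟩ := H _ (hk n (by omega))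
          exact ⟨(ai_zero_imp c (l + 2 + n) (by rw [← x1]; congr 1; omega)).2,
            (ai_zero_imp d (l + 2 + n) (by rw [← x2]; congr 1; omega)).2⟩
        have hkk : key c (l + 3 + n) = key d (l + 3 + n) := by
          have t1 : l + 3 + n = (l + 2 + n) + 1 := by omega
          rw [t1, key, key, kk, kk, e1.1, e1.2, e2.1, e2.2]
        rw [← add_assoc, xi_succ c (l + 3 + n), xi_succ d (l + 3 + n), Pi.add_apply, Pi.add_apply,
          hkk]
        intro h
        exact ih n (by omega) (add_right_cancel h)
  have hne : ∀ i, l + 2 ≤ i → xi c i ≠ xi d i := by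
    intro i hi
    rcases Nat.eq_or_lt_of_le hi with h | h
    · rw [← h]; exact hne2
    · obtain ⟨n, rfl⟩ : ∃ n, i = l + 3 + n := ⟨i - (l + 3), by omega⟩
      intro h'
      exact hco n (by rw [h'])
  have hlen : l + 1 < d.length := by
    by_contra hcon
    rw [ent_ge d (l + 1) (by omega)] at h1
    simp at h1
  have hlast := canon_last d hd (by omega)
  have hz := (ai_zero_imp d (d.length - 1) (H _ (hne (d.length - 1 + 1) (by omega))).2).2
  omega

lemma ent_inj : ∀ c d : Code, c.length = d.length → (∀ l, ent c l = ent d l) → c = d := by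
  intro c
  induction c with
  | nil => intro d h _; exact (List.length_eq_zero_iff.mp h.symm).symm
  | cons e c ih =>
    intro d h1 h2
    cases d with
    | nil => simp at h1
    | cons e' d =>
      simp only [List.length_cons, Nat.add_right_cancel_iff] at h1
      have h3 := h2 c.length
      rw [ent_cons_self] at h3
      rw [h1, ent_cons_self] at h3
      have h4 : c = d := by
        apply ih d h1
        intro l
        rcases Nat.lt_or_ge l c.length with h | h
        · have := h2 l
          rwa [ent_cons_lt _ _ _ h, ent_cons_lt _ _ _ (by omega)] at this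
        · rw [ent_ge _ _ h, ent_ge _ _ (by omega)]
      rw [h3, h4]

lemma canon_length_le (c d : Code) (hd : Canon d) (h : ∀ l, ent c l = ent d l) :
    d.length ≤ c.length := by
  by_contra hcon
  have h1 := canon_last d hd (by omega)
  rw [← h, ent_ge c _ (by omega)] at h1
  simp at h1

/-- distinct canonical codes have distinct formal positions -/
theorem decode (c d : Code) (hc : Canon c) (hd : Canon d) (h : fv c = fv d) : c = d := by
  classical
  suffices hent : ∀ l, ent c l = ent d l from
    ent_inj c d (le_antisymm (canon_length_le d c hc fun l => (hent l).symm)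
      (canon_length_le c d hd hent)) hent
  by_contra hcon
  push Not at hcon
  set l := Nat.find hcon with hl
  have hlt : ∀ m < l, ent c m = ent d m := by
    intro m hm
    have := Nat.find_min hcon hm
    push Not at this
    exact this
  have hne : ent c l ≠ ent d l := Nat.find_spec hcon
  have hkey : ∀ m, m < l + 1 → key c m = key d m := by
    intro m hm
    cases m with
    | zero => rfl
    | succ m => rw [key, key, hlt m (by omega)]
  have hX : ∀ i, i ≤ l + 1 → xi c i = xi d i := by
    intro i hi
    unfold xi
    exact sum_congr rfl fun m hm => by rw [hkey m (by have := mem_range.mp hm; omega)]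
  have ha : ∀ i, i ≤ l + 1 → ai c i = ai d i := by
    intro i hi
    rcases fv_eq_imp c d h i with h1 | h1
    · exact h1.2
    · exact absurd (hX i hi) h1.1
  have hb : (ent c l).1 = (ent d l).1 := by
    have h1 := ha l (by omega)
    cases hl' : l with
    | zero =>
      rw [hl'] at h1
      rw [ai, ai] at h1
      cases hx : (ent c 0).1 <;> cases hy : (ent d 0).1 <;> simp [hx, hy] at h1 ⊢
    | succ m =>
      rw [hl'] at h1
      rw [ai, ai, hlt m (by omega)] at h1
      cases hx : (ent c (m + 1)).1 <;> cases hy : (ent d (m + 1)).1 <;> simp [hx, hy] at h1 ⊢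
  have hj : (ent c l).2 ≠ (ent d l).2 := fun h => hne (Prod.ext hb h)
  have hsum := ha (l + 1) le_rfl
  rw [ai, ai] at hsum
  cases h0 : (ent c (l + 1)).1 <;> cases h1 : (ent d (l + 1)).1 <;> simp [h0, h1] at hsum
  · exact hj hsum
  · refine decode_aux c d hd l hlt hb (by omega) h0 h1 fun i hi => ?_
    rcases fv_eq_imp c d h i with h1 | h1
    · exact absurd h1.1 hi
    · exact h1.2
  · refine decode_aux d c hc l (fun m hm => (hlt m hm).symm) hb.symm (by omega) h1 h0
      fun i hi => ?_
    rcases fv_eq_imp c d h i with h1 | h1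
    · exact absurd h1.1.symm hi
    · exact ⟨h1.2.2, h1.2.1⟩
  · exact hj hsum

end Pool.Agent.Lib.MP_4dd93e_co
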