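import Pool.Agent.Lib.MP_4dd93e_co.Code

/-!
# Vertices on the line of an edge

The position of every code on the line of an edge differs from the ends of the edge by an integer
multiple of the vector of the edge.
-/

set_option autoImplicit false

namespace Pool.Agent.Lib.MP_4dd93e_co

open Finset AddMonoidAlgebra

/-- the first reality condition -/
noncomputable def t0 (Q V : GR × GR) : GR := Q.1 * cj V.1 - cj Q.1 * V.1

/-- the second reality condition -/
noncomputable def t1 (Q V : GR × GR) : GR :=
  Q.1 * cj V.2 + Q.2 * cj V.1 - cj Q.1 * V.2 - cj Q.2 * V.1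

/-- the third reality condition -/
noncomputable def t2 (Q V : GR × GR) : GR := Q.2 * cj V.2 - cj Q.2 * V.2

lemma coeff_mul_single' (r : GR) (x : Ex) (n : ℤ) (z : Ex) :
    (r * single x n).coeff z = r.coeff (z - x) * n := by
  refine coeff_mul_single_eq_coeff_mul (z - x) ?_
  intro m _
  constructor
  · intro h; rw [← h]; abel
  · intro h; rw [h]; abel

/-- symmetry about an exponent -/
def Sym (r : GR) (E : Ex) : Prop := ∀ v, r.coeff (E + v) = r.coeff (E - v)

lemma sym_of (r : GR) (E : Ex) (h : r * cj (single E 1) - cj r * single E 1 = 0) : Sym r E := by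
  intro v
  have h1 := congrArg (fun x => coeff x v) h
  simp only [cj_single, coeff_sub, Finsupp.sub_apply, coeff_mul_single', coeff_zero,
    Finsupp.zero_apply, cj_coeff, mul_one] at h1
  have e1 : v - -E = E + v := by abel
  have e2 : -(v - E) = E - v := by abel
  rw [e1, e2] at h1
  linarith

lemma mono_fst (i : ℕ) (x : Ex) (n : ℤ) (z : Ex) :
    (mono i x n).1.coeff z = if i.bodd = false ∧ x = z then n else 0 := by
  classical
  unfold mono
  cases i.bodd
  · by_cases h : x = z
    · subst h; simp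
    · simp [h]
  · simp

lemma mono_snd (i : ℕ) (x : Ex) (n : ℤ) (z : Ex) :
    (mono i x n).2.coeff z = if i.bodd = true ∧ x = z then n else 0 := by
  classical
  unfold mono
  cases i.bodd
  · simp
  · by_cases h : x = z
    · subst h; simp
    · simp [h]

lemma fv_fst_coeff (c : Code) (z : Ex) : (fv c).1.coeff z =
    ∑ i ∈ range (c.length + 1), if i.bodd = false ∧ xi c i = z then ai c i else 0 := by
  unfold fv
  rw [Prod.fst_sum, coeff_sum, Finsupp.finsetSum_apply]
  exact sum_congr rfl fun i _ => mono_fst _ _ _ _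

lemma fv_snd_coeff (c : Code) (z : Ex) : (fv c).2.coeff z =
    ∑ i ∈ range (c.length + 1), if i.bodd = true ∧ xi c i = z then ai c i else 0 := by
  unfold fv
  rw [Prod.snd_sum, coeff_sum, Finsupp.finsetSum_apply]
  exact sum_congr rfl fun i _ => mono_snd _ _ _ _

lemma fv_fst_ne (c : Code) (z : Ex) (h : (fv c).1.coeff z ≠ 0) :
    ∃ i, i.bodd = false ∧ z = xi c i := by
  rw [fv_fst_coeff] at h
  obtain ⟨i, _, hi⟩ := exists_ne_zero_of_sum_ne_zero h
  by_cases hc : i.bodd = false ∧ xi c i = z
  · exact ⟨i, hc.1, hc.2.symm⟩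
  · rw [if_neg hc] at hi; exact absurd rfl hi

lemma fv_snd_ne (c : Code) (z : Ex) (h : (fv c).2.coeff z ≠ 0) :
    ∃ i, i.bodd = true ∧ z = xi c i := by
  rw [fv_snd_coeff] at h
  obtain ⟨i, _, hi⟩ := exists_ne_zero_of_sum_ne_zero h
  by_cases hc : i.bodd = true ∧ xi c i = z
  · exact ⟨i, hc.1, hc.2.symm⟩
  · rw [if_neg hc] at hi; exact absurd rfl hi

/-- the key consequence of the absence of abelian squares -/
lemma sym_single (p w : Code) (e : ℕ) (r : GR)
    (hr : ∀ z, r.coeff z ≠ 0 → ∃ i, z = xi p i ∨ z = xi w i) (hs : Sym r (xi p e)) :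
    r = single (xi p e) (r.coeff (xi p e)) := by
  classical
  ext z
  rw [coeff_single, Finsupp.single_apply]
  split_ifs with hz
  · rw [hz]
  by_contra hne
  have hz1 := hs (z - xi p e)
  have e1 : xi p e + (z - xi p e) = z := by abel
  rw [e1] at hz1
  set z' := xi p e - (z - xi p e) with hz'
  have hne' : r.coeff z' ≠ 0 := by rw [← hz1]; exact hne
  have hadd : z + z' = 2 • xi p e := by rw [hz']; abel
  obtain ⟨i, hi⟩ := hr z hne
  obtain ⟨k, hk⟩ := hr z' hne'
  have hzi : ∀ a, z (Sum.inl a) = pv i a := by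
    intro a; rcases hi with hi | hi <;> rw [hi, xi_inl]
  have hzk : ∀ a, z' (Sum.inl a) = pv k a := by
    intro a; rcases hk with hk | hk <;> rw [hk, xi_inl]
  have H : ∀ a, pv i a + pv k a = 2 * pv e a := by
    intro a
    rw [← hzi, ← hzk, ← xi_inl p e]
    have := congrFun hadd (Sum.inl a)
    simpa using this
  have hsum : (i : ℤ) + k = 2 * e := by
    rw [← pv_sum i, ← pv_sum k, ← pv_sum e, ← sum_add_distrib, mul_sum]
    exact sum_congr rfl fun a _ => H a
  have hik : i = e ∧ k = e := by
    rcases Nat.le_total i e with h | h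
    · have := no_abelian_square e i k h H
      omega
    · have := no_abelian_square e k i (by omega) (fun a => by rw [add_comm]; exact H a)
      omega
  obtain ⟨rfl, rfl⟩ := hik
  rcases hi with hi | hi
  · exact hz hi.symm
  rcases hk with hk | hk
  · apply hz
    have : z + xi p k = 2 • xi p k := by rw [← hadd, hk]
    rw [two_smul] at this
    exact (add_right_cancel this).symm
  · apply hz
    have h2 : z = z' := by rw [hi, hk]
    rw [← h2] at hadd
    have : 2 • z = 2 • xi p k := by rw [← hadd, two_smul]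
    funext a
    have := congrFun this a
    simp at this
    exact this.symm

lemma diff_fst_ne (p w : Code) (z : Ex) (h : (fv w - fv p).1.coeff z ≠ 0) :
    ∃ i, i.bodd = false ∧ (z = xi p i ∨ z = xi w i) := by
  by_cases h1 : (fv w).1.coeff z = 0
  · by_cases h2 : (fv p).1.coeff z = 0
    · exfalso; apply h
      rw [Prod.fst_sub, coeff_sub, Finsupp.sub_apply, h1, h2, sub_zero]
    · obtain ⟨i, hi, hz⟩ := fv_fst_ne p z h2
      exact ⟨i, hi, Or.inl hz⟩
  · obtain ⟨i, hi, hz⟩ := fv_fst_ne w z h1
    exact ⟨i, hi, Or.inr hz⟩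

lemma diff_snd_ne (p w : Code) (z : Ex) (h : (fv w - fv p).2.coeff z ≠ 0) :
    ∃ i, i.bodd = true ∧ (z = xi p i ∨ z = xi w i) := by
  by_cases h1 : (fv w).2.coeff z = 0
  · by_cases h2 : (fv p).2.coeff z = 0
    · exfalso; apply h
      rw [Prod.snd_sub, coeff_sub, Finsupp.sub_apply, h1, h2, sub_zero]
    · obtain ⟨i, hi, hz⟩ := fv_snd_ne p z h2
      exact ⟨i, hi, Or.inl hz⟩
  · obtain ⟨i, hi, hz⟩ := fv_snd_ne w z h1
    exact ⟨i, hi, Or.inr hz⟩

lemma fst_single (p w : Code) (e : ℕ) (hs : Sym (fv w - fv p).1 (xi p e)) :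
    (fv w - fv p).1 = single (xi p e) ((fv w - fv p).1.coeff (xi p e)) := by
  refine sym_single p w e _ (fun z hz => ?_) hs
  obtain ⟨i, _, hi⟩ := diff_fst_ne p w z hz
  exact ⟨i, hi⟩

lemma snd_single (p w : Code) (e : ℕ) (hs : Sym (fv w - fv p).2 (xi p e)) :
    (fv w - fv p).2 = single (xi p e) ((fv w - fv p).2.coeff (xi p e)) := by
  refine sym_single p w e _ (fun z hz => ?_) hs
  obtain ⟨i, _, hi⟩ := diff_snd_ne p w z hz
  exact ⟨i, hi⟩

lemma fst_coeff_zero (p w : Code) (e : ℕ) (he : e.bodd = true) :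
    (fv w - fv p).1.coeff (xi p e) = 0 := by
  by_contra h
  obtain ⟨i, hi, hz⟩ := diff_fst_ne p w _ h
  have : e = i := by rcases hz with hz | hz <;> exact xi_eq_level _ _ _ _ hz
  rw [this, hi] at he
  exact absurd he (by simp)

lemma snd_coeff_zero (p w : Code) (e : ℕ) (he : e.bodd = false) :
    (fv w - fv p).2.coeff (xi p e) = 0 := by
  by_contra h
  obtain ⟨i, hi, hz⟩ := diff_snd_ne p w _ h
  have : e = i := by rcases hz with hz | hz <;> exact xi_eq_level _ _ _ _ hz
  rw [this, hi] at he
  exact absurd he (by simp)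

/-- the case of the edges of the first kind -/
theorem coll_y (c : Code) (j : ℕ) (w : Code)
    (h0 : t0 (fv w - fv ((false, j) :: c)) (fy c) = 0)
    (h1 : t1 (fv w - fv ((false, j) :: c)) (fy c) = 0)
    (h2 : t2 (fv w - fv ((false, j) :: c)) (fy c) = 0) :
    ∃ r : ℤ, fv w - fv ((false, j) :: c) = r • fy c := by
  set p : Code := (false, j) :: c with hp
  have hE : xi c c.length = xi p c.length := (xi_cons _ _ _ (by omega)).symm
  have hy : fy c = mono c.length (xi p c.length) 1 := by rw [fy, hE]
  rw [hy] at h0 h1 h2 ⊢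
  unfold mono at h0 h1 h2 ⊢
  unfold t0 at h0
  unfold t1 at h1
  unfold t2 at h2
  cases hn : c.length.bodd
  · rw [hn] at h0 h1 h2
    simp only [Bool.false_eq_true, if_false, map_zero, mul_zero, zero_add, sub_zero] at h0 h1 h2 ⊢
    have s1 := fst_single p w _ (sym_of _ _ h0)
    have s2 := snd_single p w _ (sym_of _ _ h1)
    rw [snd_coeff_zero p w _ hn, single_zero] at s2
    refine ⟨(fv w - fv p).1.coeff (xi p c.length), Prod.ext ?_ ?_⟩
    · rw [Prod.smul_fst, smul_single, smul_eq_mul, mul_one]; exact s1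
    · rw [Prod.smul_snd, smul_zero]; exact s2
  · rw [hn] at h0 h1 h2
    simp only [if_true, map_zero, mul_zero, add_zero, sub_zero] at h0 h1 h2 ⊢
    have s1 := fst_single p w _ (sym_of _ _ h1)
    have s2 := snd_single p w _ (sym_of _ _ h2)
    rw [fst_coeff_zero p w _ hn, single_zero] at s1
    refine ⟨(fv w - fv p).2.coeff (xi p c.length), Prod.ext ?_ ?_⟩
    · rw [Prod.smul_fst, smul_zero]; exact s1
    · rw [Prod.smul_snd, smul_single, smul_eq_mul, mul_one]; exact s2

lemma stepv_ne_zero (i : ℕ) (k : Bool × Bool) : stepv i k ≠ 0 := by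
  intro h
  have := congrFun h (Sum.inl (fw i))
  simp [stepv] at this

lemma xi_succ_sub (c : Code) (i : ℕ) : xi c (i + 1) - xi c i = stepv i (key c i) := by
  rw [xi_succ]; abel

/-- the mixed condition forces opposite coefficients -/
lemma mixed (E F : Ex) (hne : F ≠ E) (r s : ℤ)
    (h : -(single E r * cj (single F 1)) + single F s * cj (single E 1) +
      cj (single E r) * single F 1 - cj (single F s) * single E 1 = (0 : GR)) : s = -r := by
  classical
  simp only [cj_single, single_mul_single, mul_one] at h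
  have h1 := congrArg (fun x => coeff x (F - E)) h
  simp only [coeff_sub, coeff_add, coeff_neg, Finsupp.sub_apply, Finsupp.add_apply,
    Finsupp.neg_apply, coeff_single, Finsupp.single_apply, coeff_zero, Finsupp.zero_apply] at h1
  have hne2 : ¬ (E + -F = F - E) := by
    intro h2
    apply hne
    funext a
    have := congrFun h2 a
    simp at this
    omega
  rw [if_neg hne2, if_pos (by abel), if_pos (by abel), if_neg (by
    intro h3; apply hne2; rw [← h3]; abel)] at h1
  linarith

/-- the case of the edges of the second kind -/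
theorem coll_d (c : Code) (j : ℕ) (w : Code)
    (h0 : t0 (fv w - fv ((false, j) :: c)) (fy c - fz c) = 0)
    (h1 : t1 (fv w - fv ((false, j) :: c)) (fy c - fz c) = 0)
    (h2 : t2 (fv w - fv ((false, j) :: c)) (fy c - fz c) = 0) :
    ∃ r : ℤ, fv w - fv ((false, j) :: c) = r • (fy c - fz c) := by
  set p : Code := (false, j) :: c with hp
  have hE : xi c c.length = xi p c.length := (xi_cons _ _ _ (by omega)).symm
  have hF : xi c (c.length + 1) = xi p (c.length + 1) := (xi_cons _ _ _ le_rfl).symm
  have hy : fy c = mono c.length (xi p c.length) 1 := by rw [fy, hE]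
  have hz : fz c = mono (c.length + 1) (xi p (c.length + 1)) 1 := by rw [fz, hF]
  have hne : xi p (c.length + 1) ≠ xi p c.length := by
    intro h
    exact absurd (xi_eq_level _ _ _ _ h) (by omega)
  rw [hy, hz] at h0 h1 h2 ⊢
  unfold mono at h0 h1 h2 ⊢
  unfold t0 at h0
  unfold t1 at h1
  unfold t2 at h2
  have hn1 : (c.length + 1).bodd = !c.length.bodd := Nat.bodd_succ _
  cases hn : c.length.bodd
  · rw [hn1, hn] at h0 h1 h2
    rw [hn1, hn]
    simp only [Bool.not_false, Bool.false_eq_true, if_false, if_true, Prod.mk_sub_mk, sub_zero,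
      zero_sub, map_neg, mul_neg] at h0 h1 h2 ⊢
    have s1 := fst_single p w _ (sym_of _ _ h0)
    have s2 := snd_single p w _ (sym_of _ _ (by rw [← neg_eq_zero]; rw [← h2]; abel))
    set r := (fv w - fv p).1.coeff (xi p c.length) with hr
    set s := (fv w - fv p).2.coeff (xi p (c.length + 1)) with hs
    rw [s1, s2] at h1
    have hsr := mixed _ _ hne r s (by rw [← h1]; abel)
    refine ⟨r, Prod.ext ?_ ?_⟩
    · rw [Prod.smul_fst, smul_single, smul_eq_mul, mul_one]; exact s1
    · rw [Prod.smul_snd, smul_neg, smul_single, smul_eq_mul, mul_one, ← single_neg, ← hsr]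
      exact s2
  · rw [hn1, hn] at h0 h1 h2
    rw [hn1, hn]
    simp only [Bool.not_true, Bool.false_eq_true, if_false, if_true, Prod.mk_sub_mk, sub_zero,
      zero_sub, map_neg, mul_neg] at h0 h1 h2 ⊢
    have s1 := fst_single p w _ (sym_of _ _ (by rw [← neg_eq_zero]; rw [← h0]; abel))
    have s2 := snd_single p w _ (sym_of _ _ h2)
    set s := (fv w - fv p).1.coeff (xi p (c.length + 1)) with hs
    set r := (fv w - fv p).2.coeff (xi p c.length) with hr
    rw [s1, s2] at h1
    have hsr := mixed _ _ hne r s (by rw [← h1]; abel)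
    refine ⟨r, Prod.ext ?_ ?_⟩
    · rw [Prod.smul_fst, smul_neg, smul_single, smul_eq_mul, mul_one, ← single_neg, ← hsr]
      exact s1
    · rw [Prod.smul_snd, smul_single, smul_eq_mul, mul_one]; exact s2

end Pool.Agent.Lib.MP_4dd93e_co
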