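import Pool.Agent.Lib.MP_4dd93e_co.Lex

/-!
# Drawings with two edge lengths

The vertex with code `d` is placed at `∑ pos d l * τ ^ l` for a transcendental number `τ` of
absolute value one.
-/

set_option autoImplicit false

namespace Pool.Agent.Lib.MP_4dd93e_co.Lx

open Finset

/-- codes for the vertices of an outerplanar graph -/
theorem exists_codes {V : Type*} [Fintype V] (G : SimpleGraph V) (f : V → ℕ)
    (hf : Function.Injective f)
    (hnc : ∀ a b c d, G.Adj a b → G.Adj c d → f a < f c → f c < f b → f b < f d → False) :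
    ∃ (C : V → Cd) (K : ℕ), Function.Injective C ∧ (∀ v l, K ≤ l → C v l = 0) ∧
      ∀ u v, G.Adj u v → ∃ t : St, (C u = lo t ∧ C v = hi t) ∨ (C u = hi t ∧ C v = lo t) := by
  classical
  obtain ⟨M, hM⟩ : ∃ M, ∀ v, f v < M := by
    refine ⟨∑ v, f v + 1, fun v => Nat.lt_succ_of_le ?_⟩
    exact single_le_sum (f := f) (fun _ _ => Nat.zero_le _) (mem_univ v)
  obtain ⟨κ, -, -, hmono, hst, hadj⟩ := layout
    (fun x y => ∃ u v, G.Adj u v ∧ x = f u ∧ y = f v) (by
      rintro u x v y hux hxv hvy ⟨a, b, hab, rfl, rfl⟩ ⟨c, d, hcd, rfl, rfl⟩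
      exact hnc a b c d hab hcd hux hxv hvy) M 0 (M + 1) (by omega)
    ⟨false, fun _ => 0, 0, 0, 0⟩
  have hz : ∀ v : V, ∃ K, ∀ l, K ≤ l → κ (f v) l = 0 := by
    intro v
    obtain ⟨t, ht⟩ := hst (f v) (Nat.zero_le _) (by have := hM v; omega)
    refine ⟨t.k + 2, fun l hl => ?_⟩
    rcases ht with h | h
    · rw [h]; exact lo_zero t l (by omega)
    · rw [h]; exact hi_zero t l (by omega)
  choose K hK using hz
  refine ⟨fun v => κ (f v), ∑ v, K v, ?_, ?_, ?_⟩
  · intro u v huv
    simp only at huv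
    rcases Nat.lt_trichotomy (f u) (f v) with h | h | h
    · have := hmono (f u) (f v) (Nat.zero_le _) h (by have := hM v; omega)
      rw [huv] at this
      exact absurd this (lt_irrefl _)
    · exact hf h
    · have := hmono (f v) (f u) (Nat.zero_le _) h (by have := hM u; omega)
      rw [huv] at this
      exact absurd this (lt_irrefl _)
  · intro v l hl
    exact hK v l ((single_le_sum (f := K) (fun _ _ => Nat.zero_le _) (mem_univ v)).trans hl)
  · intro u v huv
    rcases Nat.lt_trichotomy (f u) (f v) with h | h | h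
    · obtain ⟨t, h1, h2⟩ := hadj (f u) (f v) (Nat.zero_le _) h (by have := hM v; omega)
        ⟨u, v, huv, rfl, rfl⟩
      exact ⟨t, Or.inl ⟨h1, h2⟩⟩
    · exact absurd (hf h) huv.ne
    · obtain ⟨t, h1, h2⟩ := hadj (f v) (f u) (Nat.zero_le _) h (by have := hM u; omega)
        ⟨v, u, huv.symm, rfl, rfl⟩
      exact ⟨t, Or.inr ⟨h2, h1⟩⟩

/-- the position of a code -/
noncomputable def ps (K : ℕ) (T : ℕ → ℂ) (d : Cd) : ℂ := ∑ l ∈ range K, (pos d l : ℂ) * T l

lemma ps_sub (K : ℕ) (T : ℕ → ℂ) (d e : Cd) :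
    ps K T d - ps K T e = ∑ l ∈ range K, ((pos d l - pos e l : ℤ) : ℂ) * T l := by
  unfold ps
  rw [← sum_sub_distrib]
  refine sum_congr rfl fun l _ => ?_
  push_cast
  ring

lemma pos_zero {d : Cd} {l : ℕ} (h : d l = 0) : pos d l = 0 := by
  unfold pos; rw [h, mul_zero]

/-- the vector of an edge -/
lemma ps_edge (K : ℕ) (T : ℕ → ℂ) (t : St) (h1 : ∀ l, K ≤ l → lo t l = 0)
    (h2 : ∀ l, K ≤ l → hi t l = 0) :
    ps K T (hi t) - ps K T (lo t) =
      (sgn t.c t.k : ℂ) * (T t.k + (if t.kd = true then T (t.k + 1) else 0)) := by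
  have hd := hi_sub_lo t
  have hs := sgn_sq t.c t.k
  have hk : t.k < K := by
    by_contra hcon
    have := hd t.k
    rw [pos_zero (h1 _ (by omega)), pos_zero (h2 _ (by omega))] at this
    simp at this
    omega
  have hk1 : t.kd = true → t.k + 1 < K := by
    intro hkd
    by_contra hcon
    have := hd (t.k + 1)
    rw [pos_zero (h1 _ (by omega)), pos_zero (h2 _ (by omega))] at this
    simp [hkd] at this
    omega
  rw [ps_sub]
  simp only [hd]
  push_cast
  simp only [mul_assoc, ← mul_sum, add_mul, sum_add_distrib]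
  congr 1
  congr 1
  · simp [hk]
  · by_cases hkd : t.kd = true
    · simp [hkd, hk1 hkd]
    · simp [hkd]

/-- there is a transcendental number on the unit circle -/
lemma exists_transcendental : ∃ τ : ℂ, ‖τ‖ = 1 ∧ Transcendental ℤ τ := by
  by_contra hcon
  push Not at hcon
  have h1 : Set.MapsTo (fun c : ℝ => (⟨c, Real.sqrt (1 - c ^ 2)⟩ : ℂ)) (Set.Ioo (0 : ℝ) 1)
      {x : ℂ | IsAlgebraic ℤ x} := by
    intro c hc
    have h2 : ‖(⟨c, Real.sqrt (1 - c ^ 2)⟩ : ℂ)‖ = 1 := by
      rw [Complex.norm_def, Complex.normSq_mk]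
      have : (0 : ℝ) ≤ 1 - c ^ 2 := by nlinarith [hc.1, hc.2]
      rw [Real.mul_self_sqrt this]
      rw [show c * c + (1 - c ^ 2) = 1 by ring, Real.sqrt_one]
    have h3 := hcon _ h2
    rw [Transcendental, not_not] at h3
    exact h3
  have h2 : Set.InjOn (fun c : ℝ => (⟨c, Real.sqrt (1 - c ^ 2)⟩ : ℂ)) (Set.Ioo (0 : ℝ) 1) := by
    intro a _ b _ h
    exact congrArg Complex.re h
  have h3 := h1.countable_of_injOn h2 (Algebraic.countable ℤ ℂ)
  rw [Cardinal.Real.Ioo_countable_iff] at h3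
  norm_num at h3

/-- powers of a transcendental number are independent -/
lemma indep {τ : ℂ} (hτ : Transcendental ℤ τ) (K : ℕ) (n : ℕ → ℤ)
    (h : ∑ l ∈ range K, (n l : ℂ) * τ ^ l = 0) : ∀ l < K, n l = 0 := by
  have h1 : (Polynomial.aeval τ) (∑ l ∈ range K, Polynomial.C (n l) * Polynomial.X ^ l) = 0 := by
    rw [← h]
    simp
  have h2 : (∑ l ∈ range K, Polynomial.C (n l) * Polynomial.X ^ l) = 0 := by
    by_contra hne
    exact hτ ⟨_, hne, h1⟩
  intro l hl
  have h3 := congrArg (fun p => Polynomial.coeff p l) h2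
  simp only [Polynomial.finsetSum_coeff, Polynomial.coeff_C_mul, Polynomial.coeff_X_pow,
    Polynomial.coeff_zero] at h3
  rw [sum_eq_single l] at h3
  · simpa using h3
  · intro b _ hb
    rw [if_neg (fun h => hb h.symm), mul_zero]
  · intro h; exact absurd (mem_range.mpr hl) h

/-- the drawing with two edge lengths -/
theorem ddraw {V : Type*} [Fintype V] (G : SimpleGraph V) (f : V → ℕ)
    (hf : Function.Injective f)
    (hnc : ∀ a b c d, G.Adj a b → G.Adj c d → f a < f c → f c < f b → f b < f d → False) :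
    ∃ P : V → ℂ, Function.Injective P ∧
      {d : ℝ | ∃ u v, G.Adj u v ∧ d = dist (P u) (P v)}.encard ≤ 2 := by
  obtain ⟨C, K, hC, hK, hadj⟩ := exists_codes G f hf hnc
  obtain ⟨τ, hτ, htr⟩ := exists_transcendental
  refine ⟨fun v => ps K (fun l => τ ^ l) (C v), ?_, ?_⟩
  · intro u v huv
    apply hC
    apply pos_inj
    have h1 : ∑ l ∈ range K, ((pos (C u) l - pos (C v) l : ℤ) : ℂ) * τ ^ l = 0 := by
      rw [← ps_sub]; exact sub_eq_zero.mpr huv
    have h2 := indep htr K _ h1
    intro l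
    rcases Nat.lt_or_ge l K with h | h
    · exact sub_eq_zero.mp (h2 l h)
    · rw [pos_zero (hK u l h), pos_zero (hK v l h)]
  · have hsub : {d : ℝ | ∃ u v, G.Adj u v ∧ d = dist (ps K (fun l => τ ^ l) (C u))
        (ps K (fun l => τ ^ l) (C v))} ⊆ {1, ‖1 + τ‖} := by
      rintro d ⟨u, v, huv, rfl⟩
      obtain ⟨t, ht⟩ := hadj u v huv
      have hd : dist (ps K (fun l => τ ^ l) (C u)) (ps K (fun l => τ ^ l) (C v)) =
          ‖(sgn t.c t.k : ℂ) * (τ ^ t.k + (if t.kd = true then τ ^ (t.k + 1) else 0))‖ := by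
        rcases ht with ⟨h1, h2⟩ | ⟨h1, h2⟩
        · rw [dist_comm, dist_eq_norm, h1, h2, ps_edge]
          · intro l hl; rw [← h1]; exact hK u l hl
          · intro l hl; rw [← h2]; exact hK v l hl
        · rw [dist_eq_norm, h1, h2, ps_edge]
          · intro l hl; rw [← h2]; exact hK v l hl
          · intro l hl; rw [← h1]; exact hK u l hl
      rw [hd, norm_mul]
      have hs : ‖(sgn t.c t.k : ℂ)‖ = 1 := by
        rcases sgn_sq t.c t.k with h | h <;> rw [h] <;> simp
      rw [hs, one_mul]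
      by_cases hkd : t.kd = true
      · right
        rw [if_pos hkd]
        have : τ ^ t.k + τ ^ (t.k + 1) = τ ^ t.k * (1 + τ) := by ring
        rw [this, norm_mul, norm_pow, hτ, one_pow, one_mul]
        exact rfl
      · left
        rw [if_neg hkd, add_zero, norm_pow, hτ, one_pow]
    refine (Set.encard_le_encard hsub).trans ((Set.encard_insert_le _ _).trans ?_)
    rw [Set.encard_singleton]
    norm_num

end Pool.Agent.Lib.MP_4dd93e_co.Lx
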