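import Pool.Agent.Lib.MP_4dd93e_co.Layout

/-!
# The drawing
-/

set_option autoImplicit false

namespace Pool.Agent.Lib.MP_4dd93e_co

open Finset AddMonoidAlgebra

/-- evaluation of formal positions -/
noncomputable def ev (φ : GR →+* ℂ) (ρ : ℝ) : GR × GR →+ ℂ where
  toFun F := φ F.1 + ρ * φ F.2
  map_zero' := by simp
  map_add' F G := by simp; ring

lemma ev_apply (φ : GR →+* ℂ) (ρ : ℝ) (F : GR × GR) : ev φ ρ F = φ F.1 + ρ * φ F.2 := rfl

lemma reality (φ : GR →+* ℂ) (ρ : ℝ) (hφ : ∀ r, φ (cj r) = (starRingEnd ℂ) (φ r))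
    (Q V : GR × GR) : φ (t0 Q V) + ρ * φ (t1 Q V) + ρ ^ 2 * φ (t2 Q V) =
      ev φ ρ Q * (starRingEnd ℂ) (ev φ ρ V) - (starRingEnd ℂ) (ev φ ρ Q) * ev φ ρ V := by
  unfold t0 t1 t2
  simp only [ev_apply, map_sub, map_add, map_mul, hφ, Complex.conj_ofReal]
  ring

lemma single_add_one (x y : Ex) : (single (x + y) 1 : GR) = single x 1 * single y 1 := by
  rw [single_mul_single, mul_one]

/-- the length of the edge of a state -/
lemma norm_vec (φ : GR →+* ℂ) (ρ : ℝ) (hρ : 0 < ρ)
    (h1 : ∀ x : Ex, ‖φ (single x 1)‖ = 1) (s : St) :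
    ‖ev φ ρ (vec s)‖ = 1 ∨ ‖ev φ ρ (vec s)‖ = ρ ∨
      ∃ i k, ‖ev φ ρ (vec s)‖ = ‖1 - ρ * φ (single (stepv i k) 1)‖ := by
  obtain ⟨kd, c, j⟩ := s
  unfold vec
  cases kd
  · simp only [Bool.false_eq_true, if_false]
    rw [fy, mono, ev_apply]
    cases c.length.bodd
    · left
      simp [h1]
    · right; left
      simp [h1, abs_of_pos hρ]
  · right; right
    simp only [if_true]
    refine ⟨c.length, key c c.length, ?_⟩
    have e1 : (single (xi c (c.length + 1)) 1 : GR) =
        single (xi c c.length) 1 * single (stepv c.length (key c c.length)) 1 := by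
      rw [xi_succ, single_add_one]
    set a := φ (single (xi c c.length) 1) with ha
    set b := φ (single (stepv c.length (key c c.length)) 1) with hb
    have hab : φ (single (xi c (c.length + 1)) 1) = a * b := by
      rw [e1, map_mul]
    have na : ‖a‖ = 1 := h1 _
    have nb : ‖b‖ = 1 := h1 _
    rw [fy, fz, mono, mono, ev_apply, Nat.bodd_succ]
    cases c.length.bodd
    · simp only [Bool.not_false, Bool.false_eq_true, if_false, if_true, Prod.mk_sub_mk, sub_zero,
        zero_sub, map_neg]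
      rw [hab]
      have : φ (single (xi c c.length) 1) + ρ * -(a * b) = a * (1 - ρ * b) := by
        rw [← ha]; ring
      rw [this, norm_mul, na, one_mul]
    · simp only [Bool.not_true, Bool.false_eq_true, if_false, if_true, Prod.mk_sub_mk, sub_zero,
        zero_sub, map_neg]
      rw [hab]
      have hbb : b * (starRingEnd ℂ) b = 1 := by
        rw [Complex.mul_conj, Complex.normSq_eq_norm_sq, nb]; simp
      have : -(a * b) + ρ * φ (single (xi c c.length) 1) =
          -(a * b) * (starRingEnd ℂ) (1 - ρ * b) := by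
        rw [← ha]
        simp only [map_sub, map_one, map_mul, Complex.conj_ofReal]
        linear_combination (-(a * ρ)) * hbb
      rw [this, norm_mul, norm_neg, norm_mul, na, nb, RCLike.norm_conj]
      ring

/-- codes for the vertices of an outerplanar graph -/
theorem exists_codes {V : Type*} [Fintype V] (G : SimpleGraph V) (f : V → ℕ)
    (hf : Function.Injective f)
    (hnc : ∀ a b c d, G.Adj a b → G.Adj c d → f a < f c → f c < f b → f b < f d → False) :
    ∃ C : V → Code, Function.Injective C ∧ (∀ v, Canon (C v)) ∧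
      ∀ u v, G.Adj u v → ∃ t, Conn t (fv (C u)) (fv (C v)) := by
  obtain ⟨M, hM⟩ : ∃ M, ∀ v, f v < M := by
    refine ⟨∑ v, f v + 1, fun v => Nat.lt_succ_of_le ?_⟩
    exact single_le_sum (f := f) (fun _ _ => Nat.zero_le _) (mem_univ v)
  obtain ⟨κ, h1, h2, h3⟩ := layout (fun x y => ∃ u v, G.Adj u v ∧ x = f u + 1 ∧ y = f v + 1) (by
      rintro u x v y hux hxv hvy ⟨a, b, hab, rfl, rfl⟩ ⟨c, d, hcd, rfl, rfl⟩
      exact hnc a b c d hab hcd (by omega) (by omega) (by omega)) M 0 (M + 1) (by omega)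
      ⟨false, [], 0⟩ _ _ (Or.inl ⟨rfl, rfl⟩)
  have hpos : ∀ v F F', pos F F' 0 (M + 1) κ (f v + 1) = fv (κ (f v + 1)) := by
    intro v F F'
    unfold pos
    rw [if_neg (by omega), if_neg (by have := hM v; omega)]
  have hconn : ∀ u v, G.Adj u v → f u < f v →
      ∃ t, Conn t (fv (κ (f u + 1))) (fv (κ (f v + 1))) := by
    intro u v huv hlt
    obtain ⟨t, ht⟩ := h3 (f u + 1) (f v + 1) (by omega) (by omega) (by have := hM v; omega)
      ⟨u, v, huv, rfl, rfl⟩
    rw [hpos, hpos] at ht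
    exact ⟨t, ht⟩
  refine ⟨fun v => κ (f v + 1), ?_, ?_, ?_⟩
  · intro u v huv
    have := h2 (f u + 1) (f v + 1) (by omega) (by have := hM u; omega) (by omega)
      (by have := hM v; omega) huv
    exact hf (by omega)
  · intro v
    exact (h1 (f v + 1) (by omega) (by have := hM v; omega)).1
  · intro u v huv
    rcases lt_trichotomy (f u) (f v) with h | h | h
    · exact hconn u v huv h
    · exact absurd (hf h) huv.ne
    · obtain ⟨t, ht⟩ := hconn v u huv.symm h
      exact ⟨t, ht.symm⟩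

/-- the integrality of the ratios -/
lemma coll_vec (t : St) (w : Code) (h0 : t0 (fv w - p0 t) (vec t) = 0)
    (h1 : t1 (fv w - p0 t) (vec t) = 0) (h2 : t2 (fv w - p0 t) (vec t) = 0) :
    ∃ r : ℤ, fv w - p0 t = r • vec t := by
  obtain ⟨kd, c, j⟩ := t
  cases kd
  · simp only [p0, vec, Bool.false_eq_true, if_false] at h0 h1 h2 ⊢
    exact coll_y c j w h0 h1 h2
  · simp only [p0, vec, if_true] at h0 h1 h2 ⊢
    exact coll_d c (j + 1) w h0 h1 h2

/-- the drawing in the complex plane -/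
theorem draw {V : Type*} [Fintype V] (G : SimpleGraph V) (f : V → ℕ)
    (hf : Function.Injective f)
    (hnc : ∀ a b c d, G.Adj a b → G.Adj c d → f a < f c → f c < f b → f b < f d → False) :
    ∃ P : V → ℂ, Function.Injective P ∧
      (∀ u v w, G.Adj u v → P w ∉ openSegment ℝ (P u) (P v)) ∧
      {d : ℝ | ∃ u v, G.Adj u v ∧ d = dist (P u) (P v)}.encard ≤ 26 := by
  classical
  obtain ⟨C, hC, hcan, hconn⟩ := exists_codes G f hf hnc
  set S1 : Finset (GR × GR × GR) := (univ : Finset (V × V)).image fun p =>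
    ((fv (C p.1) - fv (C p.2)).1, (fv (C p.1) - fv (C p.2)).2, 0) with hS1
  set S2 : Finset (GR × GR × GR) := (univ : Finset (V × V × V)).image fun p =>
    (t0 (fv (C p.2.2) - fv (C p.1)) (fv (C p.2.1) - fv (C p.1)),
      t1 (fv (C p.2.2) - fv (C p.1)) (fv (C p.2.1) - fv (C p.1)),
      t2 (fv (C p.2.2) - fv (C p.1)) (fv (C p.2.1) - fv (C p.1))) with hS2
  obtain ⟨φ, ρ, hρ, hnorm, hφ, hgen⟩ := exists_generic (S1 ∪ S2)
  have hinj : Function.Injective fun v => ev φ ρ (fv (C v)) := by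
    intro u v huv
    apply hC
    apply decode _ _ (hcan u) (hcan v)
    have h1 : ev φ ρ (fv (C u) - fv (C v)) = 0 := by
      rw [map_sub]; exact sub_eq_zero.mpr huv
    have h2 := hgen ((fv (C u) - fv (C v)).1, (fv (C u) - fv (C v)).2, 0)
      (mem_union_left _ (mem_image.mpr ⟨(u, v), mem_univ _, rfl⟩))
      (by rw [ev_apply] at h1; simpa using h1)
    exact sub_eq_zero.mp (Prod.ext h2.1 h2.2.1)
  -- no vertex inside an edge, oriented version
  have hopen : ∀ u v w t, u ≠ v → fv (C u) = p0 t → fv (C v) = p1 t →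
      ev φ ρ (fv (C w)) ∉ openSegment ℝ (ev φ ρ (fv (C u))) (ev φ ρ (fv (C v))) := by
    intro u v w t huv hu hv hw
    have hV : fv (C v) - fv (C u) = vec t := by rw [hu, hv]; exact p1_sub_p0 t
    rw [openSegment_eq_image'] at hw
    obtain ⟨θ, hθ, hθ2⟩ := hw
    have hQ : ev φ ρ (fv (C w) - fv (C u)) = θ * ev φ ρ (fv (C v) - fv (C u)) := by
      rw [map_sub, map_sub, ← hθ2]
      simp
    have hreal := reality φ ρ hφ (fv (C w) - fv (C u)) (fv (C v) - fv (C u))
    have hzero : ev φ ρ (fv (C w) - fv (C u)) * (starRingEnd ℂ) (ev φ ρ (fv (C v) - fv (C u))) -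
        (starRingEnd ℂ) (ev φ ρ (fv (C w) - fv (C u))) * ev φ ρ (fv (C v) - fv (C u)) = 0 := by
      rw [hQ, map_mul, Complex.conj_ofReal]; ring
    rw [hzero] at hreal
    have h3 := hgen (t0 (fv (C w) - fv (C u)) (fv (C v) - fv (C u)),
      t1 (fv (C w) - fv (C u)) (fv (C v) - fv (C u)),
      t2 (fv (C w) - fv (C u)) (fv (C v) - fv (C u)))
      (mem_union_right _ (mem_image.mpr ⟨(u, v, w), mem_univ _, rfl⟩)) hreal
    have hQ' : ev φ ρ (fv (C w) - fv (C u)) = θ * ev φ ρ (vec t) := by rw [hQ, hV]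
    rw [hV, hu] at h3
    obtain ⟨r, hr⟩ := coll_vec t (C w) h3.1 h3.2.1 h3.2.2
    rw [hu, hr, map_zsmul, zsmul_eq_mul] at hQ'
    have hne : ev φ ρ (vec t) ≠ 0 := by
      rw [← hV, map_sub]
      intro h
      exact huv (hinj (sub_eq_zero.mp h)).symm
    have hrθ : (r : ℂ) = (θ : ℂ) := mul_right_cancel₀ hne hQ'
    have hrθ' : (r : ℝ) = θ := by exact_mod_cast hrθ
    rw [← hrθ'] at hθ
    have a1 : (0 : ℤ) < r := by exact_mod_cast hθ.1
    have a2 : r < 1 := by exact_mod_cast hθ.2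
    omega
  refine ⟨fun v => ev φ ρ (fv (C v)), hinj, ?_, ?_⟩
  · intro u v w huv
    obtain ⟨t, ht⟩ := hconn u v huv
    rcases ht with ⟨h1, h2⟩ | ⟨h1, h2⟩
    · exact hopen u v w t huv.ne h1 h2
    · rw [openSegment_symm]
      exact hopen v u w t huv.ne.symm h2 h1
  · -- the lengths
    have hsub : {d : ℝ | ∃ u v, G.Adj u v ∧ d = dist (ev φ ρ (fv (C u))) (ev φ ρ (fv (C v)))} ⊆
        (({1, ρ} : Finset ℝ) ∪ (univ : Finset (Fin 6 × Bool × Bool)).image (fun x =>
          ‖1 - ρ * φ (single (Pi.single (Sum.inl x.1) 1 + Pi.single (Sum.inr x.2) 1) 1)‖) :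
            Finset ℝ) := by
      rintro d ⟨u, v, huv, rfl⟩
      obtain ⟨t, ht⟩ := hconn u v huv
      have hd : dist (ev φ ρ (fv (C u))) (ev φ ρ (fv (C v))) = ‖ev φ ρ (vec t)‖ := by
        rcases ht with ⟨h1, h2⟩ | ⟨h1, h2⟩
        · rw [dist_comm, dist_eq_norm, ← map_sub, h1, h2, p1_sub_p0]
        · rw [dist_eq_norm, ← map_sub, h1, h2, p1_sub_p0]
      rw [hd]
      rcases norm_vec φ ρ hρ hnorm t with h | h | ⟨i, k, h⟩
      · rw [h]; simp
      · rw [h]; simp
      · rw [h]
        simp only [coe_union, coe_image, Set.mem_union]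
        right
        exact ⟨(fw i, k), by simp, rfl⟩
    calc _ ≤ _ := Set.encard_le_encard hsub
      _ ≤ 26 := by
        rw [Set.encard_coe_eq_coe_finsetCard]
        have h1 : (({1, ρ} : Finset ℝ) ∪ (univ : Finset (Fin 6 × Bool × Bool)).image (fun x =>
          ‖1 - ρ * φ (single (Pi.single (Sum.inl x.1) 1 + Pi.single (Sum.inr x.2) 1) 1)‖) :
            Finset ℝ).card ≤ 2 + 24 := by
          refine (card_union_le _ _).trans (Nat.add_le_add card_le_two ?_)
          refine card_image_le.trans ?_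
          simp
        exact_mod_cast h1

/-- the drawing in the Euclidean plane -/
theorem draw_euclidean {V : Type*} [Fintype V] (G : SimpleGraph V) (f : V → ℕ)
    (hf : Function.Injective f)
    (hnc : ∀ a b c d, G.Adj a b → G.Adj c d → f a < f c → f c < f b → f b < f d → False) :
    ∃ P : V → EuclideanSpace ℝ (Fin 2), Function.Injective P ∧
      (∀ u v w, G.Adj u v → P w ∉ openSegment ℝ (P u) (P v)) ∧
      {d : ℝ | ∃ u v, G.Adj u v ∧ d = dist (P u) (P v)}.encard ≤ 26 := by
  obtain ⟨P, h1, h2, h3⟩ := draw G f hf hnc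
  set L := Complex.orthonormalBasisOneI.repr with hL
  refine ⟨fun v => L (P v), fun u v h => h1 (L.injective h), ?_, ?_⟩
  · intro u v w huv hw
    apply h2 u v w huv
    have : openSegment ℝ (L (P u)) (L (P v)) = L '' openSegment ℝ (P u) (P v) :=
      (image_openSegment ℝ (L.toLinearEquiv.toLinearMap.toAffineMap) (P u) (P v)).symm
    rw [this] at hw
    obtain ⟨x, hx, hx2⟩ := hw
    rw [← L.injective hx2]
    exact hx
  · simp only [LinearIsometryEquiv.dist_map]
    exact h3

end Pool.Agent.Lib.MP_4dd93e_co
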