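import Pool.Agent.Lib.MP_4dd93e_co.Degen

/-!
# The fan with seven rim vertices needs two edge lengths
-/

set_option autoImplicit false

namespace Pool.Agent.Lib.MP_4dd93e_co.Lx

open Polynomial

lemma hexagon {w z : ℂ} {d : ℝ} (hd : d ≠ 0) (h1 : ‖w‖ = d) (h2 : ‖z‖ = d) (h3 : ‖w - z‖ = d) :
    w ^ 6 = z ^ 6 := by
  have e1 : w * (starRingEnd ℂ) w = (d : ℂ) ^ 2 := by
    rw [Complex.mul_conj, Complex.normSq_eq_norm_sq, h1]; push_cast; ring
  have e2 : z * (starRingEnd ℂ) z = (d : ℂ) ^ 2 := by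
    rw [Complex.mul_conj, Complex.normSq_eq_norm_sq, h2]; push_cast; ring
  have e3 : (w - z) * (starRingEnd ℂ) (w - z) = (d : ℂ) ^ 2 := by
    rw [Complex.mul_conj, Complex.normSq_eq_norm_sq, h3]; push_cast; ring
  rw [map_sub] at e3
  have hd' : (d : ℂ) ^ 2 ≠ 0 := pow_ne_zero _ (by exact_mod_cast hd)
  have e4 : (d : ℂ) ^ 2 * (w ^ 2 - w * z + z ^ 2) = 0 := by
    linear_combination (-(w * z)) * e3 + (w * z) * e1 + (w * z) * e2 - w ^ 2 * e2 - z ^ 2 * e1
  have e5 : w ^ 2 - w * z + z ^ 2 = 0 := (mul_eq_zero.mp e4).resolve_left hd'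
  linear_combination (w ^ 3 - z ^ 3) * (w + z) * e5

lemma fan (q : Fin 8 → ℂ) (hq : Function.Injective q) (d : ℝ)
    (h0 : ∀ i : Fin 8, i ≠ 0 → dist (q 0) (q i) = d)
    (h1 : ∀ i j : Fin 8, i ≠ 0 → j.val = i.val + 1 → dist (q i) (q j) = d) : False := by
  classical
  have hd : d ≠ 0 := by
    rw [← h0 1 (by decide)]
    exact dist_ne_zero.mpr (hq.ne (by decide))
  set w : Fin 8 → ℂ := fun i => q i - q 0 with hw
  have hn : ∀ i : Fin 8, i ≠ 0 → ‖w i‖ = d := by
    intro i hi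
    rw [hw, ← h0 i hi, dist_comm, dist_eq_norm]
  have hstep : ∀ i j : Fin 8, i ≠ 0 → j.val = i.val + 1 → w j ^ 6 = w i ^ 6 := by
    intro i j hi hj
    have hj0 : j ≠ 0 := by
      intro h; rw [h] at hj; simp at hj
    refine hexagon hd (hn j hj0) (hn i hi) ?_
    rw [hw]
    simp only [sub_sub_sub_cancel_right]
    rw [← dist_eq_norm, dist_comm]
    exact h1 i j hi hj
  have hall : ∀ n : ℕ, ∀ i : Fin 8, i.val = n + 1 → w i ^ 6 = w 1 ^ 6 := by
    intro n
    induction n with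
    | zero =>
      intro i hi
      have : i = 1 := Fin.ext hi
      rw [this]
    | succ n ih =>
      intro i hi
      have h2 := i.isLt
      have h3 := ih ⟨n + 1, by omega⟩ rfl
      rw [← h3]
      refine hstep _ _ ?_ hi
      intro h
      have := congrArg Fin.val h
      simp at this
  set S : Finset ℂ := (Finset.univ.erase (0 : Fin 8)).image w with hS
  have hcard : S.card = 7 := by
    rw [hS, Finset.card_image_of_injective]
    · simp
    · intro a b hab
      exact hq (sub_left_injective hab)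
  have hsub : S ⊆ (nthRoots 6 (w 1 ^ 6)).toFinset := by
    intro z hz
    rw [hS, Finset.mem_image] at hz
    obtain ⟨i, hi, rfl⟩ := hz
    rw [Multiset.mem_toFinset, mem_nthRoots (by norm_num)]
    have hi0 : i ≠ 0 := (Finset.mem_erase.mp hi).1
    have : i.val ≠ 0 := fun h => hi0 (Fin.ext h)
    exact hall (i.val - 1) i (by omega)
  have h2 := Finset.card_le_card hsub
  have h3 := (Multiset.toFinset_card_le (nthRoots 6 (w 1 ^ 6))).trans (card_nthRoots 6 _)
  omega

end Pool.Agent.Lib.MP_4dd93e_co.Lx
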