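import Pool.Agent.Lib.MP_4dd93e_co.Units
import Pool.Agent.Lib.MP_4dd93e_co.Blocks

/-!
# Drawings with five edge lengths
-/

set_option autoImplicit false

namespace Pool.Agent.Lib.MP_4dd93e_co.Fv

open Finset Pool.Agent.Lib.MP_4dd93e_co.Lx Pool.Agent.Lib.MP_4dd93e_co.Un
  Pool.Agent.Lib.MP_4dd93e_co.Blk

/-- the base -/
def bs (K : ℕ) : ℤ := 8 * K + 3

/-- the exponents -/
def mx (K : ℕ) (l : ℕ) : ℤ := 2 * (bs K ^ 3 * X l 0 + X l 1 + bs K * X l 2 + bs K ^ 2 * X l 3)

lemma mx_even (K l : ℕ) : mx K l % 2 = 0 := by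
  unfold mx; omega

lemma bs_pos (K : ℕ) : 3 ≤ bs K := by
  unfold bs; omega

lemma a_pos (K : ℕ) : 0 < bs K ^ 3 := pow_pos (by have := bs_pos K; omega) 3

lemma a_odd (K : ℕ) : bs K ^ 3 % 2 = 1 := by
  have h : Odd (bs K) := ⟨4 * K + 1, by unfold bs; ring⟩
  exact Int.odd_iff.mp (h.pow)

lemma small_dvd {B x : ℤ} (h : B ∣ x) (hx : |x| < B) : x = 0 :=
  Int.eq_zero_of_abs_lt_dvd h hx

lemma digits {B x0 x1 x2 x3 : ℤ} (h1 : |x1| < B) (h2 : |x2| < B) (h3 : |x3| < B)
    (h : B ^ 3 * x0 + x1 + B * x2 + B ^ 2 * x3 = 0) : x0 = 0 ∧ x1 = 0 ∧ x2 = 0 ∧ x3 = 0 := by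
  have hB : B ≠ 0 := by
    have := abs_nonneg x1
    omega
  have e1 : x1 = 0 := small_dvd ⟨-(B ^ 2 * x0 + x2 + B * x3), by linear_combination h⟩ h1
  subst e1
  have h' : B * (B ^ 2 * x0 + x2 + B * x3) = 0 := by linear_combination h
  have h'' := (mul_eq_zero.mp h').resolve_left hB
  have e2 : x2 = 0 := small_dvd ⟨-(B * x0 + x3), by linear_combination h''⟩ h2
  subst e2
  have g' : B * (B * x0 + x3) = 0 := by linear_combination h''
  have g'' := (mul_eq_zero.mp g').resolve_left hB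
  have e3 : x3 = 0 := small_dvd ⟨-x0, by linear_combination g''⟩ h3
  subst e3
  have k' : B * x0 = 0 := by linear_combination g''
  exact ⟨(mul_eq_zero.mp k').resolve_left hB, rfl, rfl, rfl⟩

/-- relations of exponents come from relations of the walk -/
lemma mx_rel (K : ℕ) (i j j' k : ℕ) (hi : i < K) (hj : j < K) (hj' : j' < K) (hk : k < K)
    (h : mx K i + mx K k = mx K j + mx K j') : ∀ y, X i y + X k y = X j y + X j' y := by
  have hb : ∀ y, |X i y + X k y - X j y - X j' y| < bs K := by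
    intro y
    have b1 := abs_le.mp (X_bound i y)
    have b2 := abs_le.mp (X_bound j y)
    have b3 := abs_le.mp (X_bound j' y)
    have b4 := abs_le.mp (X_bound k y)
    rw [abs_lt]
    unfold bs
    constructor <;> omega
  obtain ⟨e0, e1, e2, e3⟩ := digits (B := bs K) (x0 := X i 0 + X k 0 - X j 0 - X j' 0)
    (hb 1) (hb 2) (hb 3) (by
      have h2 : 2 * (bs K ^ 3 * (X i 0 + X k 0 - X j 0 - X j' 0) +
        (X i 1 + X k 1 - X j 1 - X j' 1) + bs K * (X i 2 + X k 2 - X j 2 - X j' 2) +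
        bs K ^ 2 * (X i 3 + X k 3 - X j 3 - X j' 3)) = 0 := by
        unfold mx at h
        linear_combination h
      exact (mul_eq_zero.mp h2).resolve_left (by norm_num))
  intro y
  fin_cases y
  · show X i 0 + X k 0 = X j 0 + X j' 0
    omega
  · show X i 1 + X k 1 = X j 1 + X j' 1
    omega
  · show X i 2 + X k 2 = X j 2 + X j' 2
    omega
  · show X i 3 + X k 3 = X j 3 + X j' 3
    omega

lemma cls_le (k : ℕ) : cls k = 0 ∨ cls k = 1 := by
  unfold cls cl; omega

lemma hS (K : ℕ) : ∀ i j k, i < K → j < K → k < K → (cls i = 0 ↔ cls k = 0) →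
    mx K i + mx K k = 2 * mx K j → i = j ∧ k = j := by
  intro i j k hi hj hk hik h
  have h2 := mx_rel K i j j k hi hj hj hk (by omega)
  have hc : cls i = cls k := by
    rcases cls_le i with h3 | h3 <;> rcases cls_le k with h4 | h4
    · rw [h3, h4]
    · rw [h3, h4] at hik; exact absurd (hik.mp rfl) (by norm_num)
    · rw [h3, h4] at hik; exact absurd (hik.mpr rfl) (by norm_num)
    · rw [h3, h4]
  rcases noSym 0 (by norm_num) i j k hc (by norm_num) h2 with h5 | h5 <;> exact ⟨by omega, by omega⟩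

lemma hL (K k : ℕ) (hk : k + 1 < K) (hne : X (k + 1) 0 ≠ X k 0) : ∀ i j, i < K → j < K →
    (cls i = 0 ↔ cls j = 0) → mx K i + mx K j = mx K k + mx K (k + 1) →
      (i = k ∧ j = k + 1) ∨ (i = k + 1 ∧ j = k) := by
  intro i j hi hj hij h
  have h2 := mx_rel K i k (k + 1) j hi (by omega) hk hj h
  have hc : cls i = cls j := by
    rcases cls_le i with h3 | h3 <;> rcases cls_le j with h4 | h4
    · rw [h3, h4]
    · rw [h3, h4] at hij; exact absurd (hij.mp rfl) (by norm_num)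
    · rw [h3, h4] at hij; exact absurd (hij.mpr rfl) (by norm_num)
    · rw [h3, h4]
  exact noSym 1 le_rfl i k j hc (fun _ => hne) h2

section unit

variable {τ : ℂ} (h1 : ‖τ‖ = 1) (htr : Transcendental ℤ τ) (K : ℕ)

/-- the level vectors -/
noncomputable def TT (τ : ℂ) (K l : ℕ) : ℂ := T τ (bs K ^ 3) (mx K) cls l

/-- the second modulus -/
noncomputable def rv (τ : ℂ) (K : ℕ) : ℂ := τ ^ (bs K ^ 3) + τ ^ (-bs K ^ 3)

include h1 htr in
lemma rv_ne : rv τ K ≠ 0 := by
  have h0 : τ ≠ 0 := by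
    intro h; rw [h, norm_zero] at h1; exact zero_ne_one h1
  have := ev_R_ne h0 htr (bs K ^ 3) (a_pos K)
  rw [R', map_add, ev_single, ev_single] at this
  unfold rv
  simpa using this

include h1 htr in
lemma TT_ne (l : ℕ) : TT τ K l ≠ 0 := by
  have h0 : τ ≠ 0 := by
    intro h; rw [h, norm_zero] at h1; exact zero_ne_one h1
  have := rv_ne h1 htr K
  unfold TT T
  refine mul_ne_zero ?_ (zpow_ne_zero _ h0)
  split_ifs
  · exact one_ne_zero
  · exact this

lemma sum_one (n : ℕ → ℤ) (k : ℕ) (hk : k < K) (hn : ∀ l < K, l ≠ k → n l = 0) :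
    ∑ l ∈ range K, (n l : ℂ) * TT τ K l = n k * TT τ K k := by
  rw [sum_eq_single k]
  · intro b hb hbk
    rw [hn b (mem_range.mp hb) hbk]; simp
  · intro h; exact absurd (mem_range.mpr hk) h

lemma sum_two (n : ℕ → ℤ) (k : ℕ) (hk : k + 1 < K)
    (hn : ∀ l < K, l ≠ k → l ≠ k + 1 → n l = 0) (he : n k = n (k + 1)) :
    ∑ l ∈ range K, (n l : ℂ) * TT τ K l = n k * (TT τ K k + TT τ K (k + 1)) := by
  rw [sum_eq_add k (k + 1) (by omega)]
  · rw [← he]; ring
  · intro c hc hck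
    rw [hn c (mem_range.mp hc) hck.1 hck.2]; simp
  · intro h; exact absurd (mem_range.mpr (by omega)) h
  · intro h; exact absurd (mem_range.mpr hk) h

include h1 htr in
/-- independence -/
lemma indep' (n : ℕ → ℤ) (h : ∑ l ∈ range K, (n l : ℂ) * TT τ K l = 0) : ∀ l < K, n l = 0 := by
  intro l hl
  have h2 : ∀ k < K, ∀ l < K, l ≠ k → n l = 0 := by
    intro k hk
    refine short h1 htr (bs K ^ 3) (a_pos K) (a_odd K) K (mx K) n (mx_even K) cls (hS K) k hk 0 ?_
    rw [Complex.ofReal_zero, zero_mul]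
    exact h
  have h3 := sum_one (τ := τ) K n l hl (h2 l hl)
  rw [h] at h3
  have h4 := (mul_eq_zero.mp h3.symm).resolve_right (TT_ne h1 htr K l)
  exact_mod_cast h4

include h1 htr in
lemma TT_add_ne (k : ℕ) (hk : k + 1 < K) : TT τ K k + TT τ K (k + 1) ≠ 0 := by
  intro h
  have h2 := indep' h1 htr K (fun l => if l = k ∨ l = k + 1 then 1 else 0) (by
    rw [sum_two K _ k hk]
    · rw [h, mul_zero]
    · intro l _ h3 h4
      rw [if_neg (by omega)]
    · rw [if_pos (Or.inl rfl), if_pos (Or.inr rfl)]) k (by omega)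
  rw [if_pos (Or.inl rfl)] at h2
  exact one_ne_zero h2

/-- the edge vectors -/
noncomputable def E (τ : ℂ) (K : ℕ) (t : St) : ℂ :=
  TT τ K t.k + (if t.kd = true then TT τ K (t.k + 1) else 0)

lemma mx_step (k : ℕ) : (cls k = 0 ∧ cls (k + 1) = 0 ∧ X (k + 1) 0 ≠ X k 0 ∧
      (mx K (k + 1) = mx K k + 2 * bs K ^ 3 ∨ mx K (k + 1) = mx K k - 2 * bs K ^ 3)) ∨
    (((cls k = 0 ∧ cls (k + 1) ≠ 0) ∨ (cls k ≠ 0 ∧ cls (k + 1) = 0)) ∧
      ∃ y : Fin 3, mx K (k + 1) = mx K k + 2 * bs K ^ (y : ℕ) ∨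
        mx K (k + 1) = mx K k - 2 * bs K ^ (y : ℕ)) := by
  rcases step k with ⟨c1, c2, c3, c4⟩ | ⟨c1, y, hy, c3, c4⟩
  · left
    have x1 := c4 1 (by decide)
    have x2 := c4 2 (by decide)
    have x3 := c4 3 (by decide)
    refine ⟨c1, c2, by omega, ?_⟩
    unfold mx
    rw [x1, x2, x3]
    rcases c3 with c3 | c3
    · left; rw [c3]; ring
    · right; rw [c3]; ring
  · right
    refine ⟨by omega, ?_⟩
    have hy3 : ∀ y : Fin 4, y ≠ 0 → y = 1 ∨ y = 2 ∨ y = 3 := by decide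
    rcases hy3 y hy with h | h | h
    · subst h
      have x0 := c4 0 (by decide)
      have x2 := c4 2 (by decide)
      have x3 := c4 3 (by decide)
      refine ⟨0, ?_⟩
      unfold mx
      rw [x0, x2, x3]
      rcases c3 with c3 | c3
      · left; rw [c3]; simp only [Fin.val_zero]; ring
      · right; rw [c3]; simp only [Fin.val_zero]; ring
    · subst h
      have x0 := c4 0 (by decide)
      have x1 := c4 1 (by decide)
      have x3 := c4 3 (by decide)
      refine ⟨1, ?_⟩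
      unfold mx
      rw [x0, x1, x3]
      rcases c3 with c3 | c3
      · left; rw [c3]; simp only [Fin.val_one]; ring
      · right; rw [c3]; simp only [Fin.val_one]; ring
    · subst h
      have x0 := c4 0 (by decide)
      have x1 := c4 1 (by decide)
      have x2 := c4 2 (by decide)
      refine ⟨2, ?_⟩
      unfold mx
      rw [x0, x1, x2]
      rcases c3 with c3 | c3
      · left; rw [c3]; simp only [Fin.val_two]; ring
      · right; rw [c3]; simp only [Fin.val_two]; ring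

lemma pow_small (y : Fin 3) : 0 < 2 * bs K ^ (y : ℕ) ∧ 2 * bs K ^ (y : ℕ) < bs K ^ 3 := by
  have hB := bs_pos K
  have p1 : 0 < bs K ^ (y : ℕ) := pow_pos (by omega) _
  have p2 : bs K ^ (y : ℕ) ≤ bs K ^ 2 := pow_le_pow_right₀ (by omega) (by omega)
  have p3 : bs K ^ 3 = bs K * bs K ^ 2 := by ring
  have p4 : 0 < bs K ^ 2 := pow_pos (by omega) _
  constructor
  · omega
  · rw [p3]; nlinarith

include h1 htr in
/-- real multiples of edge vectors are integral multiples -/
lemma rigid (n : ℕ → ℤ) (θ : ℝ) (t : St) (hk : t.k < K) (hk1 : t.kd = true → t.k + 1 < K)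
    (h : ∑ l ∈ range K, (n l : ℂ) * TT τ K l = θ * E τ K t) : ∃ N : ℤ, θ = N := by
  by_cases hkd : t.kd = true
  · have hk' := hk1 hkd
    have hE : E τ K t = TT τ K t.k + TT τ K (t.k + 1) := by
      unfold E; rw [if_pos hkd]
    rw [hE] at h
    have hfin : n t.k = n (t.k + 1) ∧ ∀ l < K, l ≠ t.k → l ≠ t.k + 1 → n l = 0 := by
      rcases mx_step K t.k with ⟨c1, c2, c3, c4⟩ | ⟨c1, y, c3⟩
      · exact rho h1 htr (bs K ^ 3) (a_pos K) (a_odd K) K (mx K) n (mx_even K) cls (hS K) t.k hk'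
          θ c1 c2 c4 (hL K t.k hk' c3) h
      · have hab : |mx K t.k - mx K (t.k + 1)| < bs K ^ 3 := by
          have := pow_small K y
          rw [abs_lt]
          constructor <;> omega
        rcases c1 with ⟨c1, c2⟩ | ⟨c1, c2⟩
        · exact mixed h1 htr (bs K ^ 3) (a_pos K) (a_odd K) K (mx K) n (mx_even K) cls (hS K) t.k
            (t.k + 1) hk hk' c1 c2 hab θ h
        · obtain ⟨q1, q2⟩ := mixed h1 htr (bs K ^ 3) (a_pos K) (a_odd K) K (mx K) n (mx_even K)
            cls (hS K) (t.k + 1) t.k hk' hk c2 c1 (by rw [abs_sub_comm]; exact hab) θ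
            (by rw [add_comm (T _ _ _ _ (t.k + 1))]; exact h)
          exact ⟨q1.symm, fun l a1 a2 a3 => q2 l a1 a3 a2⟩
    rw [sum_two K n t.k hk' hfin.2 hfin.1] at h
    have h2 := mul_right_cancel₀ (TT_add_ne h1 htr K t.k hk') h
    refine ⟨n t.k, ?_⟩
    exact_mod_cast h2.symm
  · have hE : E τ K t = TT τ K t.k := by
      unfold E; rw [if_neg hkd, add_zero]
    rw [hE] at h
    have h3 := short h1 htr (bs K ^ 3) (a_pos K) (a_odd K) K (mx K) n (mx_even K) cls (hS K) t.k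
      hk θ h
    rw [sum_one K n t.k hk h3] at h
    have h2 := mul_right_cancel₀ (TT_ne h1 htr K t.k) h
    refine ⟨n t.k, ?_⟩
    exact_mod_cast h2.symm

include h1 in
lemma norm_zp (z : ℤ) : ‖τ ^ z‖ = 1 := by
  rw [norm_zpow, h1, one_zpow]

include h1 in
lemma rv_conj : (starRingEnd ℂ) (rv τ K) = rv τ K := conj_r h1 _

include h1 in
lemma norm_flip (b : ℤ) : ‖1 + rv τ K * τ ^ (-b)‖ = ‖1 + rv τ K * τ ^ b‖ := by
  have : (starRingEnd ℂ) (1 + rv τ K * τ ^ b) = 1 + rv τ K * τ ^ (-b) := by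
    rw [map_add, map_one, map_mul, rv_conj h1, map_zpow₀, conj_unit h1, inv_zpow, zpow_neg]
  rw [← this, Complex.norm_conj]

include h1 in
omit htr in
/-- the five lengths -/
lemma norm_E (t : St) : ‖E τ K t‖ ∈ ({1, ‖rv τ K‖, ‖1 + rv τ K * τ ^ (2 * bs K ^ 0)‖,
    ‖1 + rv τ K * τ ^ (2 * bs K ^ 1)‖, ‖1 + rv τ K * τ ^ (2 * bs K ^ 2)‖} : Finset ℝ) := by
  have h0 : τ ≠ 0 := by
    intro h; rw [h, norm_zero] at h1; exact zero_ne_one h1
  by_cases hkd : t.kd = true
  · have hE : E τ K t = TT τ K t.k + TT τ K (t.k + 1) := by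
      unfold E; rw [if_pos hkd]
    rw [hE]
    rcases mx_step K t.k with ⟨c1, c2, c3, c4⟩ | ⟨c1, y, c3⟩
    · have hn : ‖TT τ K t.k + TT τ K (t.k + 1)‖ = ‖rv τ K‖ := by
        unfold TT T
        rw [if_pos c1, if_pos c2, one_mul, one_mul]
        rcases c4 with c4 | c4
        · have : τ ^ mx K t.k + τ ^ mx K (t.k + 1) = τ ^ (mx K t.k + bs K ^ 3) * rv τ K := by
            rw [c4, rv, mul_add, ← zpow_add₀ h0, ← zpow_add₀ h0,
              show mx K t.k + bs K ^ 3 + bs K ^ 3 = mx K t.k + 2 * bs K ^ 3 by ring,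
              show mx K t.k + bs K ^ 3 + -bs K ^ 3 = mx K t.k by ring, add_comm]
          rw [this, norm_mul, norm_zp h1, one_mul]
        · have : τ ^ mx K t.k + τ ^ mx K (t.k + 1) = τ ^ (mx K t.k - bs K ^ 3) * rv τ K := by
            rw [c4, rv, mul_add, ← zpow_add₀ h0, ← zpow_add₀ h0,
              show mx K t.k - bs K ^ 3 + bs K ^ 3 = mx K t.k by ring,
              show mx K t.k - bs K ^ 3 + -bs K ^ 3 = mx K t.k - 2 * bs K ^ 3 by ring]
          rw [this, norm_mul, norm_zp h1, one_mul]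
      rw [hn]
      simp
    · have hn : ‖TT τ K t.k + TT τ K (t.k + 1)‖ = ‖1 + rv τ K * τ ^ (2 * bs K ^ (y : ℕ))‖ := by
        have hgen : ∀ b p q : ℤ, (q = p + b ∨ q = p - b) →
            ‖τ ^ p + rv τ K * τ ^ q‖ = ‖1 + rv τ K * τ ^ b‖ := by
          intro b p q hq
          have e1 : τ ^ p + rv τ K * τ ^ q = τ ^ p * (1 + rv τ K * τ ^ (q - p)) := by
            have : τ ^ q = τ ^ p * τ ^ (q - p) := by rw [← zpow_add₀ h0]; congr 1; ring
            rw [this]; ring
          rw [e1, norm_mul, norm_zp h1, one_mul]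
          rcases hq with hq | hq
          · rw [hq, show p + b - p = b by ring]
          · rw [hq, show p - b - p = -b by ring, norm_flip h1]
        rcases c1 with ⟨c1, c2⟩ | ⟨c1, c2⟩
        · unfold TT T
          rw [if_pos c1, if_neg c2, one_mul]
          exact hgen _ _ _ c3
        · unfold TT T
          rw [if_neg c1, if_pos c2, one_mul, add_comm]
          refine hgen _ _ _ ?_
          omega
      rw [hn]
      fin_cases y <;> simp
  · have hE : E τ K t = TT τ K t.k := by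
      unfold E; rw [if_neg hkd, add_zero]
    rw [hE]
    unfold TT T
    rw [norm_mul, norm_zp h1, mul_one]
    split_ifs
    · simp
    · show ‖rv τ K‖ ∈ _
      simp

end unit

lemma edge_lt (K : ℕ) (t : St) (h1 : ∀ l, K ≤ l → lo t l = 0) (h2 : ∀ l, K ≤ l → hi t l = 0) :
    t.k < K ∧ (t.kd = true → t.k + 1 < K) := by
  have hd := hi_sub_lo t
  have hs := sgn_sq t.c t.k
  have hk : t.k < K := by
    by_contra hcon
    have := hd t.k
    rw [pos_zero (h1 _ (by omega)), pos_zero (h2 _ (by omega))] at this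
    simp at this
    omega
  refine ⟨hk, fun hkd => ?_⟩
  by_contra hcon
  have := hd (t.k + 1)
  rw [pos_zero (h1 _ (by omega)), pos_zero (h2 _ (by omega))] at this
  simp [hkd] at this
  omega

/-- the drawing with five edge lengths -/
theorem draw5 {V : Type*} [Fintype V] (G : SimpleGraph V) (f : V → ℕ)
    (hf : Function.Injective f)
    (hnc : ∀ a b c d, G.Adj a b → G.Adj c d → f a < f c → f c < f b → f b < f d → False) :
    ∃ P : V → ℂ, Function.Injective P ∧
      (∀ u v w, G.Adj u v → P w ∉ openSegment ℝ (P u) (P v)) ∧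
      {d : ℝ | ∃ u v, G.Adj u v ∧ d = dist (P u) (P v)}.encard ≤ 5 := by
  classical
  obtain ⟨C, K, hC, hK, hadj⟩ := exists_codes G f hf hnc
  obtain ⟨τ, h1, htr⟩ := exists_transcendental
  have hedge : ∀ u v, G.Adj u v → ∃ t : St, t.k < K ∧ (t.kd = true → t.k + 1 < K) ∧
      ((C u = lo t ∧ C v = hi t) ∨ (C u = hi t ∧ C v = lo t)) ∧
      ps K (TT τ K) (hi t) - ps K (TT τ K) (lo t) = (sgn t.c t.k : ℂ) * E τ K t := by
    intro u v huv
    obtain ⟨t, ht⟩ := hadj u v huv
    have g1 : ∀ l, K ≤ l → lo t l = 0 := by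
      intro l hl
      rcases ht with ⟨a, b⟩ | ⟨a, b⟩
      · rw [← a]; exact hK u l hl
      · rw [← b]; exact hK v l hl
    have g2 : ∀ l, K ≤ l → hi t l = 0 := by
      intro l hl
      rcases ht with ⟨a, b⟩ | ⟨a, b⟩
      · rw [← b]; exact hK v l hl
      · rw [← a]; exact hK u l hl
    obtain ⟨g3, g4⟩ := edge_lt K t g1 g2
    exact ⟨t, g3, g4, ht, ps_edge K (TT τ K) t g1 g2⟩
  refine ⟨fun v => ps K (TT τ K) (C v), ?_, ?_, ?_⟩
  · intro u v huv
    apply hC
    apply pos_inj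
    have h2 : ∑ l ∈ range K, ((pos (C u) l - pos (C v) l : ℤ) : ℂ) * TT τ K l = 0 := by
      rw [← ps_sub]; exact sub_eq_zero.mpr huv
    have h3 := indep' h1 htr K _ h2
    intro l
    rcases Nat.lt_or_ge l K with h | h
    · exact sub_eq_zero.mp (h3 l h)
    · rw [pos_zero (hK u l h), pos_zero (hK v l h)]
  · intro u v w huv hw
    obtain ⟨t, hk, hk1, ht, he⟩ := hedge u v huv
    obtain ⟨α, β, hα, hβ, hαβ, hw⟩ := hw
    have hαβ' : (α : ℂ) + β = 1 := by exact_mod_cast hαβ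
    simp only [Complex.real_smul] at hw
    obtain ⟨s, hs0, hs1, hs⟩ : ∃ s : ℝ, 0 < s ∧ s < 1 ∧
        ps K (TT τ K) (C w) - ps K (TT τ K) (lo t) =
          s * (ps K (TT τ K) (hi t) - ps K (TT τ K) (lo t)) := by
      rcases ht with ⟨a, b⟩ | ⟨a, b⟩
      · refine ⟨β, hβ, by linarith, ?_⟩
        rw [← hw, ← a, ← b]
        linear_combination ps K (TT τ K) (C u) * hαβ'
      · refine ⟨α, hα, by linarith, ?_⟩
        rw [← hw, ← a, ← b]
        linear_combination ps K (TT τ K) (C v) * hαβ'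
    rw [he, ps_sub] at hs
    rcases sgn_sq t.c t.k with hsg | hsg
    · obtain ⟨N, hN⟩ := rigid h1 htr K _ s t hk hk1 (by
        rw [hs, hsg]; push_cast; ring)
      have n1 : (0 : ℤ) < N := by rw [hN] at hs0; exact_mod_cast hs0
      have n2 : N < (1 : ℤ) := by rw [hN] at hs1; exact_mod_cast hs1
      omega
    · obtain ⟨N, hN⟩ := rigid h1 htr K _ (-s) t hk hk1 (by
        rw [hs, hsg]; push_cast; ring)
      have n1 : (0 : ℤ) < -N := by
        have : (0 : ℝ) < -(N : ℝ) := by rw [← hN]; linarith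
        exact_mod_cast this
      have n2 : -N < (1 : ℤ) := by
        have : -(N : ℝ) < 1 := by rw [← hN]; linarith
        exact_mod_cast this
      omega
  · have hsub : {d : ℝ | ∃ u v, G.Adj u v ∧ d = dist (ps K (TT τ K) (C u))
        (ps K (TT τ K) (C v))} ⊆ (({1, ‖rv τ K‖, ‖1 + rv τ K * τ ^ (2 * bs K ^ 0)‖,
    ‖1 + rv τ K * τ ^ (2 * bs K ^ 1)‖, ‖1 + rv τ K * τ ^ (2 * bs K ^ 2)‖} : Finset ℝ) : Set ℝ) := by
      rintro d ⟨u, v, huv, rfl⟩
      obtain ⟨t, hk, hk1, ht, he⟩ := hedge u v huv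
      have hd : dist (ps K (TT τ K) (C u)) (ps K (TT τ K) (C v)) = ‖E τ K t‖ := by
        have hs : ‖(sgn t.c t.k : ℂ)‖ = 1 := by
          rcases sgn_sq t.c t.k with h | h <;> rw [h] <;> simp
        rcases ht with ⟨a, b⟩ | ⟨a, b⟩
        · rw [dist_comm, dist_eq_norm, a, b, he, norm_mul, hs, one_mul]
        · rw [dist_eq_norm, a, b, he, norm_mul, hs, one_mul]
      rw [hd]
      exact mem_coe.mpr (norm_E h1 K t)
    refine (Set.encard_le_encard hsub).trans ?_
    rw [Set.encard_coe_eq_coe_finsetCard]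
    exact_mod_cast Finset.card_le_five

end Pool.Agent.Lib.MP_4dd93e_co.Fv
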