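import Mathlib

/-!
# Keranen's infinite word over four letters without abelian squares

The word is the fixed point of Keranen's cyclic morphism with images of length `85`.
-/

set_option autoImplicit false

namespace Pool.Agent.Lib.MP_4dd93e_co.Ker

open Finset

/-- the image of the letter `0` -/
def ww : List (Fin 4) := [0, 1, 2, 0, 2, 3, 2, 1, 2, 3, 2, 0, 3, 2, 3, 1, 3, 0, 1, 0, 2, 0, 1, 0, 3, 1, 0, 1, 2, 1, 3,
  1, 2, 1, 0, 2, 1, 2, 3, 2, 0, 2, 1, 0, 1, 3, 0, 1, 0, 2, 0, 3, 2, 1, 2, 3, 2, 0, 2, 3, 1, 2,
  1, 0, 2, 1, 2, 3, 2, 0, 2, 3, 2, 1, 3, 2, 3, 0, 3, 1, 3, 2, 1, 2, 0]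

/-- the letters of the image of `0` -/
def wl (s : ℕ) : Fin 4 := ww.getD s 0

/-- the infinite word -/
def fw (i : ℕ) : Fin 4 :=
  if _h : i = 0 then 0 else fw (i / 85) + wl (i % 85)
termination_by i
decreasing_by exact Nat.div_lt_self (Nat.pos_of_ne_zero _h) (by norm_num)

/-- packed table of the weighted sums of the prefixes of the images -/
def tabN : ℕ := 682665292096358826157501595412542471366854702195349430732737016002608048363644889818220230080449967083708480797117476353515264432429394950324489273855535728067743934392363471508256026585400929057317793164031626961408123591515926162882223128050618785163587327864313274012175835651732141487888130029156519036216585766820951947201213269103014500971763056210865496313346299932599604466942395648702170951456124387848749715179517459872045414317260322169221676928875861639022637854639645819898600203285744500583020096371641683929584977577909380965432964030004077709563898082386730222113482408168857632011916794249451652196010849468216654905131671112334262216010391727813532863665792782360752168505907239011812206813065183752687614188574824402738268242969104929888892062378675775682648054668254954050999155379385539098015468648796260909190942968259758021395451064086823048030323213612456879544998095393432200775148000967054590464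

/-- table of weighted sums -/
def tab (x i : ℕ) : ℕ := (tabN >>> (9 * (85 * x + i))) % 512

/-- packed table of the letter counts of the prefixes of the image of `0` -/
def tcN : ℕ := 40229328790840767609329058330888843897962392874211449010049527196099998324934185371597502320897429148774444232738676113573447027045987295256218277666257413124733218223999786861414677602038508151336570650589647860434818784049487346937044929832643244981718922638649133210949318506713978445850651056269154120975046593325422101391607792754040722432596566577126396032696718387438419938343994884630481884484029613998945317328998966588258816751637369455612043005312207637614840589259076935881724063024735592012547836762308936685498281198157397936181677682368511190387136089122372520093487289978238364392228101834185312042910724105270170833726357001663334972684290222092000273733717373386662676259335007155842871523022995456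

/-- number of letters `a` in the prefix of length `i` of the image of `0` -/
def tc (i a : ℕ) : ℕ := (tcN >>> (7 * (4 * i + a))) % 128

/-- number of letters `a` in the image of `0` -/
def cn (a : ℕ) : ℕ := (5066665546285075 >>> (16 * a)) % 65536

/-- the resolution of a coincidence -/
def rs (x z i j k e1 e2 e : ℕ) : Bool :=
  ((List.range 4).all fun a =>
    Nat.beq (tc i ((a + 4 - x) % 4) + tc k ((a + 4 - z) % 4) + 2 * e * cn a)
      (2 * tc j a + e1 * cn ((a + 4 - x) % 4) + e2 * cn ((a + 4 - z) % 4))) &&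
  (!((Nat.beq e1 e == Nat.beq x 0) && (Nat.beq e2 e == Nat.beq z 0) &&
      (Nat.beq e1 e2 == Nat.beq x z)) ||
    (Nat.beq e1 e && Nat.beq e2 e && Nat.beq i j))

/-- the finite check -/
def chk (x z i j : ℕ) : Bool :=
  !Nat.beq ((tab x i + tab z ((2 * j + 85 - i) % 85)) % 511) ((2 * tab 0 j) % 511) ||
    (rs x z i j ((2 * j + 85 - i) % 85) 0 0 0 || rs x z i j ((2 * j + 85 - i) % 85) 1 0 0 ||
      rs x z i j ((2 * j + 85 - i) % 85) 0 1 0 || rs x z i j ((2 * j + 85 - i) % 85) 1 1 0 ||
      rs x z i j ((2 * j + 85 - i) % 85) 0 0 1 || rs x z i j ((2 * j + 85 - i) % 85) 1 0 1 ||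
      rs x z i j ((2 * j + 85 - i) % 85) 0 1 1 || rs x z i j ((2 * j + 85 - i) % 85) 1 1 1)

lemma chk_all : ((List.range 4).all fun x => (List.range 4).all fun z =>
    (List.range 85).all fun i => (List.range 85).all fun j => chk x z i j) = true := by
  decide +kernel

lemma chk_at (x z i j : ℕ) (hx : x < 4) (hz : z < 4) (hi : i < 85) (hj : j < 85) :
    chk x z i j = true := by
  have h := chk_all
  rw [List.all_eq_true] at h
  have h1 := h x (List.mem_range.mpr hx)
  rw [List.all_eq_true] at h1
  have h2 := h1 z (List.mem_range.mpr hz)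
  rw [List.all_eq_true] at h2
  have h3 := h2 i (List.mem_range.mpr hi)
  rw [List.all_eq_true] at h3
  exact h3 j (List.mem_range.mpr hj)

lemma fw_zero : fw 0 = 0 := by rw [fw]; rfl

lemma fw_block (q s : ℕ) (hs : s < 85) : fw (85 * q + s) = fw q + wl s := by
  rw [fw]
  by_cases h : 85 * q + s = 0
  · have hq : q = 0 := by omega
    have hs0 : s = 0 := by omega
    subst hq; subst hs0
    rw [dif_pos h, fw, dif_pos rfl]; rfl
  · rw [dif_neg h]
    congr 2 <;> omega

/-- prefix Parikh vector -/
def pv (i : ℕ) : Fin 4 → ℤ := fun a => ∑ l ∈ range i, if fw l = a then 1 else 0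

/-- Parikh vector of the prefix of length `s` of the image of the letter `x` -/
def pre (x : Fin 4) (s : ℕ) : Fin 4 → ℤ := fun a => ∑ l ∈ range s, if x + wl l = a then 1 else 0

lemma pv_zero (a : Fin 4) : pv 0 a = 0 := by simp [pv]

lemma pre_zero (x a : Fin 4) : pre x 0 a = 0 := by simp [pre]

lemma pv_succ (i : ℕ) (a : Fin 4) : pv (i + 1) a = pv i a + if fw i = a then 1 else 0 := by
  unfold pv; rw [sum_range_succ]

lemma pre_succ (x : Fin 4) (s : ℕ) (a : Fin 4) :
    pre x (s + 1) a = pre x s a + if x + wl s = a then 1 else 0 := by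
  unfold pre; rw [sum_range_succ]

/-- the incidence matrix applied to a vector -/
def mm (u : Fin 4 → ℤ) : Fin 4 → ℤ := fun a => ∑ b, u b * pre b 85 a

lemma mm_pv_succ (q : ℕ) (a : Fin 4) : mm (pv (q + 1)) a = mm (pv q) a + pre (fw q) 85 a := by
  unfold mm
  simp only [pv_succ, add_mul, sum_add_distrib, ite_mul, one_mul, zero_mul]
  simp

lemma pv_block_aux (q : ℕ) : ∀ s, s ≤ 85 → ∀ a : Fin 4,
    pv (85 * q) a = mm (pv q) a → pv (85 * q + s) a = mm (pv q) a + pre (fw q) s a := by
  intro s
  induction s with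
  | zero => intro _ a h; simp [h, pre]
  | succ s ih =>
    intro hs a h
    rw [← add_assoc, pv_succ, ih (by omega) a h, pre_succ, fw_block q s (by omega)]
    ring

lemma pv_mul (q : ℕ) (a : Fin 4) : pv (85 * q) a = mm (pv q) a := by
  induction q with
  | zero => simp [pv, mm]
  | succ q ih =>
    have := pv_block_aux q 85 le_rfl a ih
    rw [show 85 * (q + 1) = 85 * q + 85 by ring, this, mm_pv_succ]

lemma pv_block (q s : ℕ) (hs : s ≤ 85) (a : Fin 4) :
    pv (85 * q + s) a = mm (pv q) a + pre (fw q) s a :=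
  pv_block_aux q s hs a (pv_mul q a)

lemma pv_sum (i : ℕ) : ∑ a, pv i a = i := by
  induction i with
  | zero => simp [pv]
  | succ i ih =>
    simp only [pv_succ, sum_add_distrib, ih]
    simp

lemma wl_ne : ∀ s : Fin 84, wl s ≠ wl (s + 1 : ℕ) := by decide +kernel

lemma fw_ne (i : ℕ) : fw i ≠ fw (i + 1) := by
  induction i using Nat.strong_induction_on with
  | _ i ih =>
    obtain ⟨q, s, hs, rfl⟩ : ∃ q s, s < 85 ∧ i = 85 * q + s :=
      ⟨i / 85, i % 85, Nat.mod_lt _ (by norm_num), by omega⟩
    rcases Nat.lt_or_ge s 84 with h | h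
    · rw [add_assoc, fw_block q s hs, fw_block q (s + 1) (by omega)]
      intro h'
      exact wl_ne ⟨s, h⟩ (add_left_cancel h')
    · have hs' : s = 84 := by omega
      subst hs'
      rw [fw_block q 84 hs, show 85 * q + 84 + 1 = 85 * (q + 1) + 0 by ring,
        fw_block (q + 1) 0 (by norm_num)]
      have h1 : wl 84 = 0 := by decide +kernel
      have h2 : wl 0 = 0 := by decide +kernel
      rw [h1, h2, add_zero, add_zero]
      exact ih q (by omega)

/-! ### the tables -/

lemma tc_zero : ∀ a : Fin 4, tc 0 a = 0 := by decide +kernel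

lemma tc_succ : ∀ i : Fin 84, ∀ a : Fin 4, tc (i + 1 : ℕ) a = tc i a + if wl i = a then 1 else 0 := by
  decide +kernel

lemma tc_last : ∀ a : Fin 4, cn a = tc 84 a + if wl 84 = a then 1 else 0 := by
  decide +kernel

lemma pre_tc (x : Fin 4) (a : Fin 4) (i : ℕ) (hi : i < 85) : pre x i a = tc i (a - x : Fin 4) := by
  induction i with
  | zero => rw [pre_zero, tc_zero]; rfl
  | succ i ih =>
    rw [pre_succ, ih (by omega), tc_succ ⟨i, by omega⟩]
    push_cast
    congr 1
    by_cases h : x + wl i = a
    · rw [if_pos h, if_pos (by rw [← h]; abel)]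
    · rw [if_neg h, if_neg (fun h' => h (by rw [h']; abel))]

lemma pre_cn (x a : Fin 4) : pre x 85 a = cn (a - x : Fin 4) := by
  rw [pre_succ, pre_tc x a 84 (by norm_num), tc_last]
  push_cast
  congr 1
  by_cases h : x + wl 84 = a
  · rw [if_pos h, if_pos (by rw [← h]; abel)]
  · rw [if_neg h, if_neg (fun h' => h (by rw [h']; abel))]

/-- weights -/
def rr : Fin 4 → ℕ := ![1, 27, 218, 265]

lemma tab_zero : ∀ x : Fin 4, tab x 0 = 0 := by decide +kernel

lemma tab_succ : ∀ x : Fin 4, ∀ i : Fin 84,
    (tab x (i + 1 : ℕ)) % 511 = (tab x i + rr (x + wl i)) % 511 := by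
  decide +kernel

lemma tab_sum (x : Fin 4) (i : ℕ) (hi : i < 85) :
    (tab x i) % 511 = (∑ l ∈ range i, rr (x + wl l)) % 511 := by
  induction i with
  | zero => rw [tab_zero]; simp
  | succ i ih =>
    have h1 := tab_succ x ⟨i, by omega⟩
    have h2 := ih (by omega)
    rw [sum_range_succ]
    simp only at h1
    rw [h1, Nat.add_mod, h2, ← Nat.add_mod]

lemma weight_cnt : ∀ y b : Fin 4, (511 : ℤ) ∣ ∑ a : Fin 4, (rr (a - y) : ℤ) * cn (a - b : Fin 4) := by
  decide +kernel

lemma weight_mm (y : Fin 4) (u : Fin 4 → ℤ) : (511 : ℤ) ∣ ∑ a, (rr (a - y) : ℤ) * mm u a := by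
  have : ∑ a, (rr (a - y) : ℤ) * mm u a =
      ∑ b, u b * ∑ a : Fin 4, (rr (a - y) : ℤ) * cn (a - b : Fin 4) := by
    unfold mm
    simp only [pre_cn, mul_sum]
    rw [sum_comm]
    refine sum_congr rfl fun b _ => sum_congr rfl fun a _ => ?_
    ring
  rw [this]
  exact dvd_sum fun b _ => Dvd.dvd.mul_left (weight_cnt y b) _

lemma weight_pre (y x : Fin 4) (s : ℕ) :
    ∑ a, (rr (a - y) : ℤ) * pre x s a = ((∑ l ∈ range s, rr (x - y + wl l) : ℕ) : ℤ) := by
  induction s with
  | zero => simp [pre]
  | succ s ih =>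
    simp only [pre_succ, mul_add, sum_add_distrib, ih, sum_range_succ]
    simp only [mul_ite, mul_one, mul_zero, sum_ite_eq, mem_univ, if_true]
    rw [show x + wl s - y = x - y + wl s by abel]
    push_cast
    ring

lemma mm_inj (u : Fin 4 → ℤ) (h : ∀ a, mm u a = 0) : ∀ a, u a = 0 := by
  have hc : ∀ a b : Fin 4, (cn (a - b : Fin 4) : ℤ) = (![19, 21, 27, 18] : Fin 4 → ℤ) (a - b) := by
    decide +kernel
  unfold mm at h
  simp only [pre_cn, Fin.sum_univ_four, hc] at h
  have h0 : u 0 * 19 + u 1 * 18 + u 2 * 27 + u 3 * 21 = 0 := h 0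
  have h1 : u 0 * 21 + u 1 * 19 + u 2 * 18 + u 3 * 27 = 0 := h 1
  have h2 : u 0 * 27 + u 1 * 21 + u 2 * 19 + u 3 * 18 = 0 := h 2
  have h3 : u 0 * 18 + u 1 * 27 + u 2 * 21 + u 3 * 19 = 0 := h 3
  have k0 : 43435 * u 0 = 0 := by
    linear_combination (-701)*h0 + (-531)*h1 + (4059)*h2 + (-2316)*h3
  have k1 : 43435 * u 1 = 0 := by
    linear_combination (-2316)*h0 + (-701)*h1 + (-531)*h2 + (4059)*h3
  have k2 : 43435 * u 2 = 0 := by
    linear_combination (4059)*h0 + (-2316)*h1 + (-701)*h2 + (-531)*h3
  have k3 : 43435 * u 3 = 0 := by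
    linear_combination (-531)*h0 + (4059)*h1 + (-2316)*h2 + (-701)*h3
  intro a
  fin_cases a
  · exact (mul_eq_zero.mp k0).resolve_left (by norm_num)
  · exact (mul_eq_zero.mp k1).resolve_left (by norm_num)
  · exact (mul_eq_zero.mp k2).resolve_left (by norm_num)
  · exact (mul_eq_zero.mp k3).resolve_left (by norm_num)

lemma mm_comb (u v w : Fin 4 → ℤ) (a : Fin 4) :
    mm (fun a => u a + v a - 2 * w a) a = mm u a + mm v a - 2 * mm w a := by
  unfold mm
  rw [mul_sum, ← sum_add_distrib, ← sum_sub_distrib]
  refine sum_congr rfl fun b _ => ?_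
  ring

lemma mm_cancel (u v w : Fin 4 → ℤ) (h : ∀ a, mm u a + mm v a = 2 * mm w a) :
    ∀ a, u a + v a = 2 * w a := by
  have := mm_inj (fun a => u a + v a - 2 * w a) (fun a => by rw [mm_comb, h a, sub_self])
  intro a
  have := this a
  linarith

lemma mm_add (q e : ℕ) (he : e ≤ 1) (a : Fin 4) :
    mm (pv (q + e)) a = mm (pv q) a + e * pre (fw q) 85 a := by
  rcases Nat.le_one_iff_eq_zero_or_eq_one.mp he with h | h <;> subst h
  · simp
  · rw [mm_pv_succ]; simp

lemma fin_sub (a x : Fin 4) : ((a.val + 4 - x.val) % 4) = (a - x : Fin 4).val := by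
  revert a x; decide

lemma rs_spec (x z : Fin 4) (i j k e1 e2 e : ℕ) (h : rs x z i j k e1 e2 e = true) :
    (∀ a : Fin 4, tc i (a - x : Fin 4) + tc k (a - z : Fin 4) + 2 * e * cn a =
      2 * tc j a + e1 * cn (a - x : Fin 4) + e2 * cn (a - z : Fin 4)) ∧
    ((e1 = e ↔ x = 0) → (e2 = e ↔ z = 0) → (e1 = e2 ↔ x = z) → e1 = e ∧ e2 = e ∧ i = j) := by
  unfold rs at h
  rw [Bool.and_eq_true] at h
  obtain ⟨h1, h2⟩ := h
  constructor
  · intro a
    rw [List.all_eq_true] at h1
    have h3 := h1 a.val (List.mem_range.mpr a.isLt)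
    have h4 := Nat.eq_of_beq_eq_true h3
    rw [fin_sub, fin_sub] at h4
    exact h4
  · intro c1 c2 c3
    rw [Bool.or_eq_true] at h2
    have e1' : (Nat.beq e1 e == Nat.beq x.val 0) = true := by
      rw [beq_iff_eq, Bool.eq_iff_iff, Nat.beq_eq, Nat.beq_eq, c1]
      exact ⟨fun h => by rw [h]; rfl, fun h => Fin.ext h⟩
    have e2' : (Nat.beq e2 e == Nat.beq z.val 0) = true := by
      rw [beq_iff_eq, Bool.eq_iff_iff, Nat.beq_eq, Nat.beq_eq, c2]
      exact ⟨fun h => by rw [h]; rfl, fun h => Fin.ext h⟩
    have e3' : (Nat.beq e1 e2 == Nat.beq x.val z.val) = true := by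
      rw [beq_iff_eq, Bool.eq_iff_iff, Nat.beq_eq, Nat.beq_eq, c3]
      exact ⟨fun h => by rw [h], fun h => Fin.ext h⟩
    rw [e1', e2', e3'] at h2
    rcases h2 with h2 | h2
    · exact absurd h2 (by decide)
    · rw [Bool.and_eq_true, Bool.and_eq_true, Nat.beq_eq, Nat.beq_eq, Nat.beq_eq] at h2
      exact ⟨h2.1.1, h2.1.2, h2.2⟩

/-- labels of positions -/
lemma lab (p q e e' : ℕ) (he : e ≤ 1) (he' : e' ≤ 1) (h : p + e = q + e') :
    (e = e' ↔ fw p = fw q) := by
  constructor
  · intro h'
    have : p = q := by omega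
    rw [this]
  · intro h'
    by_contra hne
    rcases Nat.lt_or_ge e e' with h1 | h1
    · have : p = q + 1 := by omega
      rw [this] at h'
      exact fw_ne q h'.symm
    · have : q = p + 1 := by omega
      rw [this] at h'
      exact fw_ne p h'

/-- **Keranen's theorem**: the word has no abelian squares -/
theorem asf (j : ℕ) : ∀ i k : ℕ, (∀ a, pv i a + pv k a = 2 * pv j a) → i = j ∧ k = j := by
  induction j using Nat.strong_induction_on with
  | _ j ih =>
    intro i k H
    have hsum : (i : ℤ) + k = 2 * j := by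
      rw [← pv_sum i, ← pv_sum k, ← pv_sum j, ← sum_add_distrib, mul_sum]
      exact sum_congr rfl fun a _ => H a
    rcases Nat.eq_zero_or_pos j with hj | hj
    · omega
    rcases Nat.lt_or_ge 1 j with hj1 | hj1
    swap
    · have hj' : j = 1 := by omega
      subst hj'
      have h2 : pv 2 (fw 0) < 2 := by
        rw [pv_succ, pv_succ, pv_zero, if_pos rfl, if_neg (fun h => fw_ne 0 h.symm)]; norm_num
      have h1 : pv 1 (fw 0) = 1 := by
        rw [pv_succ, pv_zero, if_pos rfl]; norm_num
      have h3 := H (fw 0)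
      have : i = 0 ∨ i = 1 ∨ i = 2 := by omega
      rcases this with h | h | h
      · have hk : k = 2 := by omega
        subst h; subst hk
        rw [pv_zero, h1] at h3
        omega
      · omega
      · have hk : k = 0 := by omega
        subst h; subst hk
        rw [pv_zero, h1] at h3
        omega
    obtain ⟨α, i', hi', rfl⟩ : ∃ q s, s < 85 ∧ i = 85 * q + s :=
      ⟨i / 85, i % 85, Nat.mod_lt _ (by norm_num), by omega⟩
    obtain ⟨β, j', hj', rfl⟩ : ∃ q s, s < 85 ∧ j = 85 * q + s :=
      ⟨j / 85, j % 85, Nat.mod_lt _ (by norm_num), by omega⟩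
    obtain ⟨γ, k', hk', rfl⟩ : ∃ q s, s < 85 ∧ k = 85 * q + s :=
      ⟨k / 85, k % 85, Nat.mod_lt _ (by norm_num), by omega⟩
    have E : ∀ a, mm (pv α) a + pre (fw α) i' a + (mm (pv γ) a + pre (fw γ) k' a) =
        2 * (mm (pv β) a + pre (fw β) j' a) := by
      intro a
      rw [← pv_block α i' hi'.le, ← pv_block β j' hj'.le, ← pv_block γ k' hk'.le]
      exact H a
    have hk : (2 * j' + 85 - i') % 85 = k' := by omega
    -- the weighted identity
    have hW : (511 : ℤ) ∣ 2 * ((∑ l ∈ range j', rr (fw β - fw β + wl l) : ℕ) : ℤ) -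
        ((∑ l ∈ range i', rr (fw α - fw β + wl l) : ℕ) : ℤ) -
        ((∑ l ∈ range k', rr (fw γ - fw β + wl l) : ℕ) : ℤ) := by
      rw [← weight_pre, ← weight_pre, ← weight_pre]
      have h1 := weight_mm (fw β) (fun a => pv α a + pv γ a - 2 * pv β a)
      have h2 : ∑ a, (rr (a - fw β) : ℤ) * mm (fun a => pv α a + pv γ a - 2 * pv β a) a =
          2 * ∑ a, (rr (a - fw β) : ℤ) * pre (fw β) j' a -
            ∑ a, (rr (a - fw β) : ℤ) * pre (fw α) i' a -
            ∑ a, (rr (a - fw β) : ℤ) * pre (fw γ) k' a := by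
        rw [mul_sum, ← sum_sub_distrib, ← sum_sub_distrib]
        refine sum_congr rfl fun a _ => ?_
        rw [mm_comb]
        linear_combination (rr (a - fw β) : ℤ) * E a
      rw [← h2]; exact h1
    have hC := chk_at (fw α - fw β : Fin 4).val (fw γ - fw β : Fin 4).val i' j'
      (Fin.isLt _) (Fin.isLt _) hi' hj'
    have t1 := tab_sum (fw α - fw β) i' hi'
    have t2 := tab_sum (fw β - fw β) j' hj'
    have t3 := tab_sum (fw γ - fw β) k' hk'
    have hmod : (tab (fw α - fw β : Fin 4).val i' + tab (fw γ - fw β : Fin 4).val k') % 511 =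
        (2 * tab 0 j') % 511 := by
      have t2' : tab 0 j' % 511 = (∑ l ∈ range j', rr (fw β - fw β + wl l)) % 511 := by
        rw [← t2, sub_self]; rfl
      omega
    unfold chk at hC
    rw [hk, hmod, Nat.beq_refl, Bool.not_true, Bool.false_or] at hC
    -- the resolution
    have key : ∀ e1 e2 e : ℕ, e1 ≤ 1 → e2 ≤ 1 → e ≤ 1 →
        rs (fw α - fw β : Fin 4).val (fw γ - fw β : Fin 4).val i' j' k' e1 e2 e = true →
        85 * α + i' = 85 * β + j' := by
      intro e1 e2 e he1 he2 he hr
      obtain ⟨r1, r2⟩ := rs_spec _ _ _ _ _ _ _ _ hr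
      have E2 : ∀ a, mm (pv (α + e1)) a + mm (pv (γ + e2)) a = 2 * mm (pv (β + e)) a := by
        intro a
        rw [mm_add _ _ he1, mm_add _ _ he2, mm_add _ _ he]
        have h1 := E a
        have h2 := r1 (a - fw β)
        rw [sub_sub_sub_cancel_right, sub_sub_sub_cancel_right] at h2
        rw [pre_tc _ _ _ hi', pre_tc _ _ _ hj', pre_tc _ _ _ hk'] at h1
        rw [pre_cn, pre_cn, pre_cn]
        have h3 : ((tc i' (a - fw α : Fin 4) : ℤ) + tc k' (a - fw γ : Fin 4) +
            2 * e * cn (a - fw β : Fin 4)) = 2 * tc j' (a - fw β : Fin 4) +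
              e1 * cn (a - fw α : Fin 4) + e2 * cn (a - fw γ : Fin 4) := by
          exact_mod_cast h2
        linarith
      have E3 := mm_cancel _ _ _ E2
      obtain ⟨g1, g2⟩ := ih (β + e) (by omega) (α + e1) (γ + e2) E3
      have l1 := lab α β e1 e he1 he g1
      have l2 := lab γ β e2 e he2 he g2
      have l3 := lab α γ e1 e2 he1 he2 (by omega)
      obtain ⟨f1, f2, f3⟩ := r2 (l1.trans sub_eq_zero.symm) (l2.trans sub_eq_zero.symm)
        (l3.trans ⟨fun h => by rw [h], fun h => sub_left_injective h⟩)
      subst f3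
      omega
    have fin : 85 * α + i' = 85 * β + j' := by
      simp only [Bool.or_eq_true] at hC
      rcases hC with ((((((hC | hC) | hC) | hC) | hC) | hC) | hC) | hC
      · exact key _ _ _ (by norm_num) (by norm_num) (by norm_num) hC
      · exact key _ _ _ (by norm_num) (by norm_num) (by norm_num) hC
      · exact key _ _ _ (by norm_num) (by norm_num) (by norm_num) hC
      · exact key _ _ _ (by norm_num) (by norm_num) (by norm_num) hC
      · exact key _ _ _ (by norm_num) (by norm_num) (by norm_num) hC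
      · exact key _ _ _ (by norm_num) (by norm_num) (by norm_num) hC
      · exact key _ _ _ (by norm_num) (by norm_num) (by norm_num) hC
      · exact key _ _ _ (by norm_num) (by norm_num) (by norm_num) hC
    omega

end Pool.Agent.Lib.MP_4dd93e_co.Ker
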