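import Pool.Agent.Lib.MP_4dd93e_co.Collinear

/-!
# The recursive layout of an outerplanar graph
-/

set_option autoImplicit false

namespace Pool.Agent.Lib.MP_4dd93e_co

open Finset AddMonoidAlgebra

/-- states of the recursion -/
structure St where
  /-- the kind -/
  kd : Bool
  /-- the code -/
  c : Code
  /-- the index -/
  j : ℕ

/-- first end of the edge of a state -/
noncomputable def p0 (s : St) : GR × GR := fv ((false, if s.kd then s.j + 1 else s.j) :: s.c)

/-- second end of the edge of a state -/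
noncomputable def p1 (s : St) : GR × GR := fv ((true, s.j) :: s.c)

/-- vector of the edge of a state -/
noncomputable def vec (s : St) : GR × GR := if s.kd then fy s.c - fz s.c else fy s.c

lemma p1_sub_p0 (s : St) : p1 s - p0 s = vec s := by
  unfold p1 p0 vec
  rw [fv_cons, fv_cons]
  cases s.kd
  · simp
  · simp only [if_true, one_smul, Bool.false_eq_true, if_false, zero_smul, add_zero]
    push_cast
    rw [add_smul, one_smul]
    abel

/-- `F` and `F'` are the ends of the edge of the state -/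
def Conn (s : St) (F F' : GR × GR) : Prop := (F = p0 s ∧ F' = p1 s) ∨ (F = p1 s ∧ F' = p0 s)

lemma Conn.symm {s : St} {F F' : GR × GR} (h : Conn s F F') : Conn s F' F := by
  rcases h with h | h
  · exact Or.inr ⟨h.2, h.1⟩
  · exact Or.inl ⟨h.2, h.1⟩

/-- the codes below a state -/
def Desc (s : St) (d : Code) : Prop := Canon d ∧ ∃ (l : Code) (b : Bool) (i : ℕ),
  d = l ++ (b, i) :: s.c ∧
    ((s.kd = true ∧ ((l = [] ∧ ((b = true ∧ s.j + 1 ≤ i) ∨ s.j + 2 ≤ i)) ∨
        (l ≠ [] ∧ ((b = true ∧ s.j ≤ i) ∨ s.j + 1 ≤ i)))) ∨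
      (s.kd = false ∧ ((l = [] ∧ s.j + 1 ≤ i) ∨ (l ≠ [] ∧ s.j ≤ i))))

lemma canon_cons (b : Bool) (i : ℕ) (c : Code) : Canon ((b, i + 1) :: c) := by
  intro e d h
  rw [List.cons.injEq] at h
  rw [← h.1]
  exact Nat.succ_le_succ (Nat.zero_le i)

/-- uniqueness of the decomposition -/
lemma append_inj_len (c : Code) (l l' : Code) (e e' : Bool × ℕ)
    (h : l ++ e :: c = l' ++ e' :: c) : l = l' ∧ e = e' := by
  have h1 : l.length = l'.length := by
    have := congrArg List.length h
    simp only [List.length_append, List.length_cons] at this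
    omega
  have h2 := List.append_inj h h1
  exact ⟨h2.1, (List.cons.inj h2.2).1⟩

lemma splitG (c : Code) (j : ℕ) : ∃ (N : Code) (s1 s2 : St),
    Conn s1 (p0 ⟨false, c, j⟩) (fv N) ∧ Conn s2 (fv N) (p1 ⟨false, c, j⟩) ∧
    Desc ⟨false, c, j⟩ N ∧ ¬ Desc s1 N ∧ ¬ Desc s2 N ∧
    (∀ d, Desc s1 d → Desc ⟨false, c, j⟩ d) ∧ (∀ d, Desc s2 d → Desc ⟨false, c, j⟩ d) ∧
    (∀ d, Desc s1 d → ¬ Desc s2 d) := by
  refine ⟨(false, j + 1) :: c, ⟨false, (false, j) :: c, 0⟩, ⟨true, c, j⟩, ?_, ?_, ?_, ?_, ?_, ?_, ?_,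
    ?_⟩
  · left
    constructor
    · simp only [p0, Bool.false_eq_true, if_false]
      rw [fv_false_zero]
    · simp only [p1]
      rw [fv_true_zero]
  · left
    exact ⟨by simp [p0], by simp [p1]⟩
  · exact ⟨canon_cons _ _ _, [], false, j + 1, by simp, by simp⟩
  · rintro ⟨_, l, b, i, h, _⟩
    have := congrArg List.length h
    simp only [List.length_append, List.length_cons] at this
    omega
  · rintro ⟨_, l, b, i, h, h2⟩
    have h3 := append_inj_len c [] l (false, j + 1) (b, i) (by simpa using h)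
    obtain ⟨rfl, h3⟩ := h3
    rw [Prod.mk.injEq] at h3
    obtain ⟨rfl, rfl⟩ := h3
    simp at h2
  · rintro d ⟨hd, l, b, i, h, _⟩
    exact ⟨hd, l ++ [(b, i)], false, j, by simp [h], by simp⟩
  · rintro d ⟨hd, l, b, i, h, h2⟩
    refine ⟨hd, l, b, i, h, ?_⟩
    right
    refine ⟨rfl, ?_⟩
    simp only [true_and, Bool.true_eq_false, false_and, or_false] at h2
    dsimp only
    rcases h2 with ⟨h2, h3⟩ | ⟨h2, h3⟩
    · left; exact ⟨h2, by omega⟩
    · right; exact ⟨h2, by omega⟩
  · rintro d ⟨hd, l, b, i, h, _⟩ ⟨_, l', b', i', h', h2⟩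
    have h3 := append_inj_len c (l ++ [(b, i)]) l' (false, j) (b', i')
      (by simp only [List.append_assoc, List.singleton_append]; rw [← h, ← h'])
    obtain ⟨rfl, h3⟩ := h3
    rw [Prod.mk.injEq] at h3
    obtain ⟨rfl, rfl⟩ := h3
    simp at h2

lemma splitD (c : Code) (j : ℕ) : ∃ (N : Code) (s1 s2 : St),
    Conn s1 (p0 ⟨true, c, j⟩) (fv N) ∧ Conn s2 (fv N) (p1 ⟨true, c, j⟩) ∧
    Desc ⟨true, c, j⟩ N ∧ ¬ Desc s1 N ∧ ¬ Desc s2 N ∧
    (∀ d, Desc s1 d → Desc ⟨true, c, j⟩ d) ∧ (∀ d, Desc s2 d → Desc ⟨true, c, j⟩ d) ∧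
    (∀ d, Desc s1 d → ¬ Desc s2 d) := by
  refine ⟨(true, j + 1) :: c, ⟨false, c, j + 1⟩, ⟨false, (true, j) :: c, 0⟩, ?_, ?_, ?_, ?_, ?_, ?_,
    ?_, ?_⟩
  · left
    exact ⟨by simp [p0], by simp [p1]⟩
  · right
    constructor
    · simp only [p1]
      rw [fv_true_zero]
    · simp only [p0, p1, Bool.false_eq_true, if_false]
      rw [fv_false_zero]
  · exact ⟨canon_cons _ _ _, [], true, j + 1, by simp, by simp⟩
  · rintro ⟨_, l, b, i, h, h2⟩
    have h3 := append_inj_len c [] l (true, j + 1) (b, i) (by simpa using h)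
    obtain ⟨rfl, h3⟩ := h3
    rw [Prod.mk.injEq] at h3
    obtain ⟨rfl, rfl⟩ := h3
    simp at h2
  · rintro ⟨_, l, b, i, h, _⟩
    have := congrArg List.length h
    simp only [List.length_append, List.length_cons] at this
    omega
  · rintro d ⟨hd, l, b, i, h, h2⟩
    refine ⟨hd, l, b, i, h, ?_⟩
    left
    refine ⟨rfl, ?_⟩
    simp only [true_and, Bool.false_eq_true, false_and, false_or] at h2
    dsimp only
    rcases h2 with ⟨h2, h3⟩ | ⟨h2, h3⟩
    · left; exact ⟨h2, by omega⟩
    · right; exact ⟨h2, by omega⟩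
  · rintro d ⟨hd, l, b, i, h, _⟩
    exact ⟨hd, l ++ [(b, i)], true, j, by simp [h], by simp⟩
  · rintro d ⟨_, l', b', i', h', h2⟩ ⟨hd, l, b, i, h, _⟩
    have h3 := append_inj_len c (l ++ [(b, i)]) l' (true, j) (b', i')
      (by simp only [List.append_assoc, List.singleton_append]; rw [← h, ← h'])
    obtain ⟨rfl, h3⟩ := h3
    rw [Prod.mk.injEq] at h3
    obtain ⟨rfl, rfl⟩ := h3
    simp at h2

/-- splitting of a state, for any orientation -/
lemma split (s : St) (F F' : GR × GR) (h : Conn s F F') : ∃ (N : Code) (s1 s2 : St),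
    Conn s1 F (fv N) ∧ Conn s2 (fv N) F' ∧
    Desc s N ∧ ¬ Desc s1 N ∧ ¬ Desc s2 N ∧
    (∀ d, Desc s1 d → Desc s d) ∧ (∀ d, Desc s2 d → Desc s d) ∧
    (∀ d, Desc s1 d → ¬ Desc s2 d) := by
  have key : ∃ (N : Code) (s1 s2 : St),
    Conn s1 (p0 s) (fv N) ∧ Conn s2 (fv N) (p1 s) ∧
    Desc s N ∧ ¬ Desc s1 N ∧ ¬ Desc s2 N ∧
    (∀ d, Desc s1 d → Desc s d) ∧ (∀ d, Desc s2 d → Desc s d) ∧
    (∀ d, Desc s1 d → ¬ Desc s2 d) := by
    obtain ⟨kd, c, j⟩ := s
    cases kd
    · exact splitG c j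
    · exact splitD c j
  obtain ⟨N, s1, s2, h1, h2, h3, h4, h5, h6, h7, h8⟩ := key
  rcases h with ⟨rfl, rfl⟩ | ⟨rfl, rfl⟩
  · exact ⟨N, s1, s2, h1, h2, h3, h4, h5, h6, h7, h8⟩
  · exact ⟨N, s2, s1, h2.symm, h1.symm, h3, h5, h4, h7, h6, fun d hd h => h8 d h hd⟩

/-- positions on an interval -/
noncomputable def pos (F F' : GR × GR) (a b : ℕ) (κ : ℕ → Code) (v : ℕ) : GR × GR :=
  if v = a then F else if v = b then F' else fv (κ v)

/-- the splitting vertex -/
lemma exists_split_vertex (A : ℕ → ℕ → Prop)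
    (hA : ∀ u x v y, u < x → x < v → v < y → A u v → A x y → False) (a b : ℕ) (hab : a + 1 < b) :
    ∃ k, a < k ∧ k < b ∧ ∀ u v, a ≤ u → u < k → k < v → v ≤ b → A u v → u = a ∧ v = b := by
  classical
  by_cases h : ∃ k, (a < k ∧ k < b ∧ A a k)
  · obtain ⟨k, hk, hmax⟩ : ∃ k, (a < k ∧ k < b ∧ A a k) ∧
        ∀ m, (a < m ∧ m < b ∧ A a m) → m ≤ k := by
      obtain ⟨k0, hk0⟩ := h
      have hne : ((range b).filter fun m => a < m ∧ m < b ∧ A a m).Nonempty :=
        ⟨k0, mem_filter.mpr ⟨mem_range.mpr hk0.2.1, hk0⟩⟩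
      refine ⟨((range b).filter fun m => a < m ∧ m < b ∧ A a m).max' hne, ?_, ?_⟩
      · exact (mem_filter.mp (max'_mem _ hne)).2
      · intro m hm
        exact le_max' _ _ (mem_filter.mpr ⟨mem_range.mpr hm.2.1, hm⟩)
    refine ⟨k, hk.1, hk.2.1, fun u v hu huk hkv hvb huv => ?_⟩
    rcases Nat.eq_or_lt_of_le hu with hu' | hu'
    · subst hu'
      rcases Nat.eq_or_lt_of_le hvb with hv' | hv'
      · exact ⟨rfl, hv'⟩
      · have := hmax v ⟨by omega, hv', huv⟩
        omega
    · exact absurd (hA a u k v hu' huk hkv hk.2.2 huv) id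
  · refine ⟨a + 1, by omega, hab, fun u v hu huk hkv hvb huv => ?_⟩
    have hu' : u = a := by omega
    subst hu'
    refine ⟨rfl, ?_⟩
    by_contra hne
    exact h ⟨v, by omega, by omega, huv⟩

/-- the recursive layout -/
theorem layout (A : ℕ → ℕ → Prop)
    (hA : ∀ u x v y, u < x → x < v → v < y → A u v → A x y → False) (n : ℕ) :
    ∀ a b, b = a + n + 1 → ∀ s F F', Conn s F F' → ∃ κ : ℕ → Code,
      (∀ v, a < v → v < b → Desc s (κ v)) ∧
      (∀ u v, a < u → u < b → a < v → v < b → κ u = κ v → u = v) ∧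
      (∀ u v, a ≤ u → u < v → v ≤ b → A u v →
        ∃ t, Conn t (pos F F' a b κ u) (pos F F' a b κ v)) := by
  induction n using Nat.strong_induction_on with
  | _ n ih =>
    intro a b hab s F F' hs
    rcases Nat.eq_zero_or_pos n with hn | hn
    · refine ⟨fun _ => [], fun v h1 h2 => by omega, fun u v h1 h2 => by omega,
        fun u v h1 h2 h3 _ => ⟨s, ?_⟩⟩
      have e1 : u = a := by omega
      have e2 : v = b := by omega
      subst e1; subst e2
      unfold pos
      rw [if_pos rfl, if_neg (by omega), if_pos rfl]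
      exact hs
    · obtain ⟨k, hk1, hk2, hk⟩ := exists_split_vertex A hA a b (by omega)
      obtain ⟨N, s1, s2, c1, c2, dN, d1, d2, sub1, sub2, disj⟩ := split s F F' hs
      obtain ⟨κ1, a1, b1, e1⟩ := ih (k - a - 1) (by omega) a k (by omega) s1 F (fv N) c1
      obtain ⟨κ2, a2, b2, e2⟩ := ih (b - k - 1) (by omega) k b (by omega) s2 (fv N) F' c2
      obtain ⟨κ, q1, q2, q3⟩ : ∃ κ : ℕ → Code, (∀ v, v < k → κ v = κ1 v) ∧ (κ k = N) ∧
          (∀ v, k < v → κ v = κ2 v) := by
        refine ⟨fun v => if v < k then κ1 v else if v = k then N else κ2 v, fun v hv => ?_, ?_,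
          fun v hv => ?_⟩
        · show (if v < k then κ1 v else if v = k then N else κ2 v) = _
          rw [if_pos hv]
        · show (if k < k then κ1 k else if k = k then N else κ2 k) = _
          rw [if_neg (lt_irrefl k), if_pos rfl]
        · show (if v < k then κ1 v else if v = k then N else κ2 v) = _
          rw [if_neg (by omega), if_neg (by omega)]
      refine ⟨κ, ?_, ?_, ?_⟩
      · intro v h1 h2
        rcases lt_trichotomy v k with h | h | h
        · rw [q1 v h]; exact sub1 _ (a1 v h1 h)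
        · rw [h, q2]; exact dN
        · rw [q3 v h]; exact sub2 _ (a2 v h h2)
      · intro u v hu1 hu2 hv1 hv2 huv
        rcases lt_trichotomy u k with h | h | h <;> rcases lt_trichotomy v k with h' | h' | h'
        · rw [q1 u h, q1 v h'] at huv
          exact b1 u v hu1 h hv1 h' huv
        · rw [q1 u h, h', q2] at huv
          exact absurd (huv ▸ a1 u hu1 h) d1
        · rw [q1 u h, q3 v h'] at huv
          exact absurd (a2 v h' hv2) (huv ▸ disj _ (a1 u hu1 h))
        · rw [h, q2, q1 v h'] at huv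
          exact absurd (huv ▸ a1 v hv1 h') d1
        · omega
        · rw [h, q2, q3 v h'] at huv
          exact absurd (huv ▸ a2 v h' hv2) d2
        · rw [q3 u h, q1 v h'] at huv
          exact absurd (a2 u h hu2) (huv ▸ disj _ (a1 v hv1 h'))
        · rw [q3 u h, h', q2] at huv
          exact absurd (huv ▸ a2 u h hu2) d2
        · rw [q3 u h, q3 v h'] at huv
          exact b2 u v h hu2 h' hv2 huv
      · intro u v hu huv hv hAuv
        -- positions in the two halves
        have hL : ∀ x, a ≤ x → x ≤ k → pos F F' a b κ x = pos F (fv N) a k κ1 x := by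
          intro x hx1 hx2
          unfold pos
          by_cases h1 : x = a
          · rw [if_pos h1, if_pos h1]
          · rw [if_neg h1, if_neg h1, if_neg (show ¬ x = b by omega)]
            rcases Nat.eq_or_lt_of_le hx2 with h2 | h2
            · rw [if_pos h2, h2, q2]
            · rw [if_neg (show ¬ x = k by omega), q1 x h2]
        have hR : ∀ x, k ≤ x → x ≤ b → pos F F' a b κ x = pos (fv N) F' k b κ2 x := by
          intro x hx1 hx2
          unfold pos
          rw [if_neg (show ¬ x = a by omega)]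
          by_cases h1 : x = k
          · rw [if_pos h1, if_neg (show ¬ x = b by omega), h1, q2]
          · rw [if_neg h1]
            by_cases h2 : x = b
            · rw [if_pos h2, if_pos h2]
            · rw [if_neg h2, if_neg h2, q3 x (by omega)]
        rcases Nat.lt_or_ge k v with h1 | h1
        · rcases Nat.lt_or_ge u k with h2 | h2
          · obtain ⟨rfl, rfl⟩ := hk u v hu h2 h1 hv hAuv
            refine ⟨s, ?_⟩
            unfold pos
            rw [if_pos rfl, if_neg (by omega), if_pos rfl]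
            exact hs
          · rw [hR u h2 (by omega), hR v h1.le hv]
            exact e2 u v h2 huv hv hAuv
        · rw [hL u hu (by omega), hL v (by omega) h1]
          exact e1 u v hu huv h1 hAuv

end Pool.Agent.Lib.MP_4dd93e_co
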