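import Mathlib

/-!
# The universal triangulated half plane

Codes are integer sequences, ordered lexicographically. The states are the edges of the universal
triangulated half plane graph: short edges `(c, i, j) - (c, i + 1, -j)` and long edges
`(c, i, j) - (c, i + 1, -j - 1)` (`i` even), `(c, i, j + 1) - (c, i + 1, -j)` (`i` odd), `j ≥ 0`.
Every state splits into two states, and every outerplanar graph embeds.
-/

set_option autoImplicit false

namespace Pool.Agent.Lib.MP_4dd93e_co.Lx

/-- codes -/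
abbrev Cd := ℕ → ℤ

/-- lexicographic order -/
def lt (d e : Cd) : Prop := ∃ k, (∀ l < k, d l = e l) ∧ d k < e k

lemma lt_irrefl (d : Cd) : ¬ lt d d := by
  rintro ⟨k, -, h⟩
  exact absurd h (_root_.lt_irrefl _)

lemma lt_trans {a b c : Cd} (h1 : lt a b) (h2 : lt b c) : lt a c := by
  obtain ⟨k, hk1, hk2⟩ := h1
  obtain ⟨m, hm1, hm2⟩ := h2
  rcases Nat.lt_trichotomy k m with h | h | h
  · exact ⟨k, fun l hl => (hk1 l hl).trans (hm1 l (hl.trans h)), by rw [← hm1 k h]; exact hk2⟩
  · subst h
    exact ⟨k, fun l hl => (hk1 l hl).trans (hm1 l hl), hk2.trans hm2⟩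
  · exact ⟨m, fun l hl => (hk1 l (hl.trans h)).trans (hm1 l hl), by rw [hk1 m h]; exact hm2⟩

/-- the code which is `c` below `k`, then `i`, `j`, then zero -/
def mk (c : Cd) (k : ℕ) (i j : ℤ) : Cd := fun l =>
  if l < k then c l else if l = k then i else if l = k + 1 then j else 0

lemma mk_below (c : Cd) (k : ℕ) (i j : ℤ) (l : ℕ) (h : l < k) : mk c k i j l = c l := by
  unfold mk; rw [if_pos h]

lemma mk_at (c : Cd) (k : ℕ) (i j : ℤ) : mk c k i j k = i := by
  unfold mk; rw [if_neg (by omega), if_pos rfl]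

lemma mk_succ (c : Cd) (k : ℕ) (i j : ℤ) : mk c k i j (k + 1) = j := by
  unfold mk; rw [if_neg (by omega), if_neg (by omega), if_pos rfl]

lemma mk_above (c : Cd) (k : ℕ) (i j : ℤ) (l : ℕ) (h : k + 1 < l) : mk c k i j l = 0 := by
  unfold mk; rw [if_neg (by omega), if_neg (by omega), if_neg (by omega)]

lemma mk_mk (c : Cd) (k : ℕ) (i j : ℤ) : mk (mk c k i 0) (k + 1) j 0 = mk c k i j := by
  funext l
  unfold mk
  split_ifs <;> first | rfl | omega

/-- states -/
structure St where
  /-- long edge? -/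
  kd : Bool
  /-- the prefix -/
  c : Cd
  /-- its length -/
  k : ℕ
  /-- the column -/
  i : ℤ
  /-- the row -/
  j : ℕ

/-- the smaller end -/
def lo (s : St) : Cd :=
  if s.kd = true ∧ ¬ Even s.i then mk s.c s.k s.i (s.j + 1) else mk s.c s.k s.i s.j

/-- the larger end -/
def hi (s : St) : Cd :=
  if s.kd = true ∧ Even s.i then mk s.c s.k (s.i + 1) (-s.j - 1) else mk s.c s.k (s.i + 1) (-s.j)

lemma lo_lt_hi (s : St) : lt (lo s) (hi s) := by
  refine ⟨s.k, fun l hl => ?_, ?_⟩
  · unfold lo hi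
    split_ifs <;> rw [mk_below _ _ _ _ _ hl, mk_below _ _ _ _ _ hl]
  · unfold lo hi
    split_ifs <;> rw [mk_at, mk_at] <;> omega

/-- splitting of a state -/
lemma split (s : St) : ∃ s1 s2 : St, lo s1 = lo s ∧ hi s1 = lo s2 ∧ hi s2 = hi s := by
  obtain ⟨kd, c, k, i, j⟩ := s
  cases kd
  · by_cases hi' : Even i
    · refine ⟨⟨true, c, k, i, j⟩, ⟨false, mk c k (i + 1) 0, k + 1, -j - 1, 0⟩, ?_, ?_, ?_⟩
      · simp [lo, hi']
      · simp [lo, hi, hi', mk_mk]
      · simp [hi, mk_mk]
    · refine ⟨⟨false, mk c k i 0, k + 1, j, 0⟩, ⟨true, c, k, i, j⟩, ?_, ?_, ?_⟩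
      · simp [lo, mk_mk]
      · simp [lo, hi, hi', mk_mk]
      · simp [hi, hi']
  · by_cases hi' : Even i
    · refine ⟨⟨false, mk c k i 0, k + 1, j, 0⟩, ⟨false, c, k, i, j + 1⟩, ?_, ?_, ?_⟩
      · simp [lo, hi', mk_mk]
      · simp [lo, hi, mk_mk]
      · simp only [hi, Bool.false_eq_true, false_and, if_false, hi', and_self, if_true]
        congr 1
        push_cast
        ring
    · refine ⟨⟨false, c, k, i, j + 1⟩, ⟨false, mk c k (i + 1) 0, k + 1, -j - 1, 0⟩, ?_, ?_, ?_⟩
      · simp [lo, hi']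
      · simp only [hi, lo, Bool.false_eq_true, false_and, if_false, Nat.cast_zero, mk_mk]
        congr 1
        push_cast
        ring
      · simp [hi, hi', mk_mk]

/-- the splitting vertex -/
lemma exists_split_vertex (A : ℕ → ℕ → Prop)
    (hA : ∀ u x v y, u < x → x < v → v < y → A u v → A x y → False) (a b : ℕ) (hab : a + 1 < b) :
    ∃ k, a < k ∧ k < b ∧ ∀ u v, a ≤ u → u < k → k < v → v ≤ b → A u v → u = a ∧ v = b := by
  classical
  by_cases h : ∃ k, (a < k ∧ k < b ∧ A a k)
  · obtain ⟨k, hk, hmax⟩ : ∃ k, (a < k ∧ k < b ∧ A a k) ∧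
        ∀ m, (a < m ∧ m < b ∧ A a m) → m ≤ k := by
      obtain ⟨k0, hk0⟩ := h
      have hne : ((Finset.range b).filter fun m => a < m ∧ m < b ∧ A a m).Nonempty :=
        ⟨k0, Finset.mem_filter.mpr ⟨Finset.mem_range.mpr hk0.2.1, hk0⟩⟩
      refine ⟨((Finset.range b).filter fun m => a < m ∧ m < b ∧ A a m).max' hne, ?_, ?_⟩
      · exact (Finset.mem_filter.mp (Finset.max'_mem _ hne)).2
      · intro m hm
        exact Finset.le_max' _ _ (Finset.mem_filter.mpr ⟨Finset.mem_range.mpr hm.2.1, hm⟩)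
    refine ⟨k, hk.1, hk.2.1, fun u v hu huk hkv hvb huv => ?_⟩
    rcases Nat.eq_or_lt_of_le hu with hu' | hu'
    · subst hu'
      rcases Nat.eq_or_lt_of_le hvb with hv' | hv'
      · exact ⟨rfl, hv'⟩
      · have := hmax v ⟨by omega, hv', huv⟩
        omega
    · exact absurd (hA a u k v hu' huk hkv hk.2.2 huv) id
  · refine ⟨a + 1, by omega, hab, fun u v hu huk hkv hvb huv => ?_⟩
    have hu' : u = a := by omega
    subst hu'
    refine ⟨rfl, ?_⟩
    by_contra hne
    exact h ⟨v, by omega, by omega, huv⟩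

/-- the recursive layout -/
theorem layout (A : ℕ → ℕ → Prop)
    (hA : ∀ u x v y, u < x → x < v → v < y → A u v → A x y → False) (n : ℕ) :
    ∀ a b, b = a + n + 1 → ∀ s : St, ∃ κ : ℕ → Cd, κ a = lo s ∧ κ b = hi s ∧
      (∀ u v, a ≤ u → u < v → v ≤ b → lt (κ u) (κ v)) ∧
      (∀ v, a ≤ v → v ≤ b → ∃ t, κ v = lo t ∨ κ v = hi t) ∧
      (∀ u v, a ≤ u → u < v → v ≤ b → A u v → ∃ t, κ u = lo t ∧ κ v = hi t) := by
  induction n using Nat.strong_induction_on with
  | _ n ih =>
    intro a b hab s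
    rcases Nat.eq_zero_or_pos n with hn | hn
    · refine ⟨fun v => if v = a then lo s else hi s, if_pos rfl, if_neg (by omega), ?_, ?_, ?_⟩
      · intro u v h1 h2 h3
        have e1 : u = a := by omega
        have e2 : v ≠ a := by omega
        simp only [e1, e2, if_true, if_false]
        exact lo_lt_hi s
      · intro v h1 h2
        by_cases h : v = a
        · exact ⟨s, Or.inl (if_pos h)⟩
        · exact ⟨s, Or.inr (if_neg h)⟩
      · intro u v h1 h2 h3 _
        have e1 : u = a := by omega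
        have e2 : v ≠ a := by omega
        exact ⟨s, if_pos e1, if_neg e2⟩
    · obtain ⟨k, hk1, hk2, hk⟩ := exists_split_vertex A hA a b (by omega)
      obtain ⟨s1, s2, c1, c2, c3⟩ := split s
      obtain ⟨κ1, a1, b1, m1, t1, e1⟩ := ih (k - a - 1) (by omega) a k (by omega) s1
      obtain ⟨κ2, a2, b2, m2, t2, e2⟩ := ih (b - k - 1) (by omega) k b (by omega) s2
      obtain ⟨κ, q1, q2⟩ : ∃ κ : ℕ → Cd, (∀ v, v ≤ k → κ v = κ1 v) ∧
          (∀ v, k ≤ v → κ v = κ2 v) := by
        refine ⟨fun v => if v ≤ k then κ1 v else κ2 v, fun v hv => if_pos hv, fun v hv => ?_⟩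
        rcases Nat.eq_or_lt_of_le hv with h | h
        · subst h
          show (if k ≤ k then κ1 k else κ2 k) = κ2 k
          rw [if_pos le_rfl, b1, a2, c2]
        · exact if_neg (by omega)
      refine ⟨κ, by rw [q1 a (by omega), a1, c1], by rw [q2 b (by omega), b2, c3], ?_, ?_, ?_⟩
      · intro u v hu huv hv
        rcases Nat.lt_or_ge k v with h1 | h1
        · rcases Nat.lt_or_ge u k with h2 | h2
          · have x1 := m1 u k hu h2 le_rfl
            have x2 := m2 k v le_rfl h1 hv
            rw [← q1 u (by omega), ← q1 k le_rfl] at x1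
            rw [← q2 v (by omega), ← q2 k le_rfl] at x2
            exact lt_trans x1 x2
          · rw [q2 u h2, q2 v (by omega)]
            exact m2 u v h2 huv hv
        · rw [q1 u (by omega), q1 v h1]
          exact m1 u v hu huv h1
      · intro v hv1 hv2
        rcases Nat.lt_or_ge k v with h1 | h1
        · rw [q2 v (by omega)]
          exact t2 v (by omega) hv2
        · rw [q1 v h1]
          exact t1 v hv1 h1
      · intro u v hu huv hv hAuv
        rcases Nat.lt_or_ge k v with h1 | h1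
        · rcases Nat.lt_or_ge u k with h2 | h2
          · obtain ⟨rfl, rfl⟩ := hk u v hu h2 h1 hv hAuv
            exact ⟨s, by rw [q1 u (by omega), a1, c1], by rw [q2 v (by omega), b2, c3]⟩
          · rw [q2 u h2, q2 v (by omega)]
            exact e2 u v h2 huv hv hAuv
        · rw [q1 u (by omega), q1 v h1]
          exact e1 u v hu huv h1 hAuv

/-! ### Positions -/

/-- the sign at the level `l` -/
def sgn (d : Cd) (l : ℕ) : ℤ := if Even (∑ m ∈ Finset.range l, d m) then 1 else -1

/-- the coefficient at the level `l` -/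
def pos (d : Cd) (l : ℕ) : ℤ := sgn d l * d l

lemma sgn_sq (d : Cd) (l : ℕ) : sgn d l = 1 ∨ sgn d l = -1 := by
  unfold sgn; split_ifs <;> simp

lemma sgn_congr {d e : Cd} {l : ℕ} (h : ∀ m < l, d m = e m) : sgn d l = sgn e l := by
  unfold sgn
  rw [Finset.sum_congr rfl fun m hm => h m (Finset.mem_range.mp hm)]

lemma pos_inj {d e : Cd} (h : ∀ l, pos d l = pos e l) : d = e := by
  have : ∀ l, ∀ m < l, d m = e m := by
    intro l
    induction l with
    | zero => intro m hm; omega
    | succ l ih =>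
      intro m hm
      rcases Nat.eq_or_lt_of_le (Nat.lt_succ_iff.mp hm) with h1 | h1
      · subst h1
        have h2 := h m
        unfold pos at h2
        rw [sgn_congr ih] at h2
        rcases sgn_sq e m with h3 | h3 <;> rw [h3] at h2 <;> linarith
      · exact ih m h1
  funext l
  exact this (l + 1) l (Nat.lt_succ_self l)

lemma pos_mk_below (c : Cd) (k : ℕ) (i j : ℤ) (l : ℕ) (h : l < k) :
    pos (mk c k i j) l = pos c l := by
  unfold pos
  rw [mk_below _ _ _ _ _ h, sgn_congr fun m hm => mk_below c k i j m (by omega)]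

lemma pos_mk_at (c : Cd) (k : ℕ) (i j : ℤ) : pos (mk c k i j) k = sgn c k * i := by
  unfold pos
  rw [mk_at, sgn_congr fun m hm => mk_below c k i j m hm]

lemma sgn_mk_succ (c : Cd) (k : ℕ) (i j : ℤ) :
    sgn (mk c k i j) (k + 1) = sgn c k * (if Even i then 1 else -1) := by
  unfold sgn
  rw [Finset.sum_range_succ, mk_at, Finset.sum_congr rfl
    fun m hm => mk_below c k i j m (Finset.mem_range.mp hm)]
  simp only [Int.even_add]
  by_cases h1 : Even (∑ m ∈ Finset.range k, c m) <;> by_cases h2 : Even i <;> simp [h1, h2]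

lemma pos_mk_succ (c : Cd) (k : ℕ) (i j : ℤ) :
    pos (mk c k i j) (k + 1) = sgn c k * (if Even i then 1 else -1) * j := by
  unfold pos
  rw [mk_succ, sgn_mk_succ]

lemma pos_mk_above (c : Cd) (k : ℕ) (i j : ℤ) (l : ℕ) (h : k + 1 < l) :
    pos (mk c k i j) l = 0 := by
  unfold pos
  rw [mk_above _ _ _ _ _ h, mul_zero]

/-- the vector of a state: coefficient `ε` at level `k`, and at level `k + 1` for long edges -/
lemma hi_sub_lo (s : St) (l : ℕ) : pos (hi s) l - pos (lo s) l =
    sgn s.c s.k * ((if l = s.k then 1 else 0) + (if s.kd = true ∧ l = s.k + 1 then 1 else 0)) := by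
  obtain ⟨kd, c, k, i, j⟩ := s
  have ev : Even (i + 1) ↔ ¬ Even i := by rw [Int.even_add_one]
  rcases Nat.lt_trichotomy l k with h | h | h
  · unfold lo hi
    split_ifs <;> simp_all [pos_mk_below]
  · subst h
    cases kd <;> by_cases he : Even i <;> simp [lo, hi, pos_mk_at, he] <;> ring
  · rcases Nat.eq_or_lt_of_le (show k + 1 ≤ l from h) with h' | h'
    · subst h'
      unfold lo hi
      cases kd <;> by_cases he : Even i <;> simp [pos_mk_succ, ev, he] <;> ring
    · unfold lo hi
      split_ifs <;> simp_all [pos_mk_above]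

lemma lo_zero (s : St) (l : ℕ) (h : s.k + 1 < l) : lo s l = 0 := by
  unfold lo; split_ifs <;> exact mk_above _ _ _ _ _ h

lemma hi_zero (s : St) (l : ℕ) (h : s.k + 1 < l) : hi s l = 0 := by
  unfold hi; split_ifs <;> exact mk_above _ _ _ _ _ h

end Pool.Agent.Lib.MP_4dd93e_co.Lx
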