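import Pool.Agent.Lib.MP_4dd93e_co.Draw

/-!
# The distance number of outerplanar graphs is bounded

Every finite outerplanar graph has a drawing (straight-line edges, distinct vertices at distinct
points of the plane, no vertex in the relative interior of an edge) whose edges have at most `26`
different lengths. Hence the distance number is at most `26` for all outerplanar graphs.
-/

set_option autoImplicit false

namespace Pool.Agent.Results.MP_4dd93e_co.OuterplanarDistanceNumber

/-- `G` is outerplanar: the vertices can be placed on a circle (in the cyclic order given by the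
values of `f`) in such a way that no two edges, drawn as chords, cross. -/
def Outerplanar {V : Type*} (G : SimpleGraph V) : Prop :=
  ∃ f : V → ℕ, Function.Injective f ∧
    ∀ a b c d, G.Adj a b → G.Adj c d → ¬ (f a < f c ∧ f c < f b ∧ f b < f d)

/-- `p` is a drawing of `G`: the vertices are mapped injectively to points of the plane and no
vertex lies in the relative interior of the segment of an edge. -/
def IsDrawing {V : Type*} (G : SimpleGraph V) (p : V → EuclideanSpace ℝ (Fin 2)) : Prop :=
  Function.Injective p ∧ ∀ u v w, G.Adj u v → p w ∉ openSegment ℝ (p u) (p v)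

/-- the set of the Euclidean lengths of the edge segments -/
def edgeLengths {V : Type*} (G : SimpleGraph V) (p : V → EuclideanSpace ℝ (Fin 2)) : Set ℝ :=
  {d | ∃ u v, G.Adj u v ∧ d = dist (p u) (p v)}

/-- the distance number: the minimum of the number of edge lengths over all drawings -/
noncomputable def dn {V : Type*} (G : SimpleGraph V) : ℕ∞ :=
  ⨅ (p : V → EuclideanSpace ℝ (Fin 2)) (_ : IsDrawing G p), (edgeLengths G p).encard

/-- Every finite outerplanar graph has distance number at most `26`. -/
theorem result {V : Type*} [Finite V] (G : SimpleGraph V) (hG : Outerplanar G) : dn G ≤ 26 := by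
  have := Fintype.ofFinite V
  obtain ⟨f, hf, hnc⟩ := hG
  obtain ⟨p, h1, h2, h3⟩ := Pool.Agent.Lib.MP_4dd93e_co.draw_euclidean G f hf
    (fun a b c d hab hcd x y z => hnc a b c d hab hcd ⟨x, y, z⟩)
  exact (iInf₂_le p ⟨h1, h2⟩).trans h3

end Pool.Agent.Results.MP_4dd93e_co.OuterplanarDistanceNumber
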