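import Pool.Agent.Lib.MP_4dd93e_co.Degen

/-!
# Exponential sums in a transcendental number of absolute value one

Let `T l = τ ^ m l` or `r * τ ^ m l` with `r = τ ^ a + τ ^ (-a)`. If no two exponents of the same
class are symmetric about an exponent, then a real multiple of an edge vector which is an integral
combination of the `T l` is an integral multiple.
-/

set_option autoImplicit false

namespace Pool.Agent.Lib.MP_4dd93e_co.Un

open Finset AddMonoidAlgebra

/-- integral Laurent polynomials -/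
abbrev LP := AddMonoidAlgebra ℤ ℤ

/-- evaluation -/
noncomputable def ev (τ : ℂ) (h0 : τ ≠ 0) : LP →ₐ[ℤ] ℂ :=
  AddMonoidAlgebra.lift ℤ ℂ ℤ
    { toFun := fun x => τ ^ x.toAdd
      map_one' := by simp
      map_mul' := fun x y => by simp [zpow_add₀ h0] }

lemma ev_single (τ : ℂ) (h0 : τ ≠ 0) (x n : ℤ) : ev τ h0 (single x n) = n * τ ^ x := by
  rw [ev, AddMonoidAlgebra.lift_single, zsmul_eq_mul]
  rfl

lemma ev_apply (τ : ℂ) (h0 : τ ≠ 0) (r : LP) :
    ev τ h0 r = ∑ x ∈ r.coeff.support, (r.coeff x : ℂ) * τ ^ x := by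
  rw [ev, AddMonoidAlgebra.lift_apply, Finsupp.sum]
  refine sum_congr rfl fun x _ => ?_
  rw [zsmul_eq_mul]
  rfl

lemma ev_inj {τ : ℂ} (h0 : τ ≠ 0) (htr : Transcendental ℤ τ) (r : LP) (h : ev τ h0 r = 0) :
    r = 0 := by
  classical
  set S := r.coeff.support with hS
  set N : ℤ := ∑ y ∈ S, |y| with hN
  have hnn : ∀ x ∈ S, 0 ≤ x + N := by
    intro x hx
    have h1 : |x| ≤ N := single_le_sum (f := fun y : ℤ => |y|) (fun y _ => abs_nonneg _) hx
    have := neg_abs_le x
    linarith
  set P : Polynomial ℤ := ∑ x ∈ S, Polynomial.C (r.coeff x) * Polynomial.X ^ (x + N).toNat with hP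
  have h1 : Polynomial.aeval τ P = 0 := by
    have : Polynomial.aeval τ P = τ ^ N * ev τ h0 r := by
      rw [ev_apply, hP, map_sum, mul_sum]
      refine sum_congr rfl fun x hx => ?_
      rw [map_mul, Polynomial.aeval_C, map_pow, Polynomial.aeval_X]
      have h2 : τ ^ (x + N).toNat = τ ^ (x + N) := by
        rw [← zpow_natCast, Int.toNat_of_nonneg (hnn x hx)]
      rw [h2, zpow_add₀ h0]
      simp only [algebraMap_int_eq, eq_intCast]
      ring
    rw [this, h, mul_zero]
  have h2 : P = 0 := by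
    by_contra hne
    exact htr ⟨P, hne, h1⟩
  ext x
  by_contra hx
  have hx' : x ∈ S := Finsupp.mem_support_iff.mpr hx
  have h3 := congrArg (fun p => Polynomial.coeff p (x + N).toNat) h2
  simp only [hP, Polynomial.finsetSum_coeff, Polynomial.coeff_C_mul, Polynomial.coeff_X_pow,
    Polynomial.coeff_zero] at h3
  rw [sum_eq_single x] at h3
  · simp at h3
    exact hx h3
  · intro b hb hbx
    rw [if_neg, mul_zero]
    intro heq
    apply hbx
    have h4 := hnn x hx'
    have h5 := hnn b hb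
    omega
  · intro h; exact absurd hx' h

/-- conjugation -/
noncomputable def cj : LP →+* LP :=
  AddMonoidAlgebra.mapDomainRingHom ℤ (negAddMonoidHom : ℤ →+ ℤ)

lemma cj_single (x n : ℤ) : cj (single x n : LP) = single (-x) n := by
  rw [cj, AddMonoidAlgebra.mapDomainRingHom_apply, AddMonoidAlgebra.mapDomain_single]
  rfl

lemma cj_coeff (r : LP) (x : ℤ) : (cj r).coeff x = r.coeff (-x) := by
  have : x = negAddMonoidHom (-x) := by simp
  conv_lhs => rw [this]
  simp only [cj, AddMonoidAlgebra.mapDomainRingHom_apply]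
  exact Finsupp.mapDomain_apply neg_injective _ _

lemma conj_unit {τ : ℂ} (h1 : ‖τ‖ = 1) : (starRingEnd ℂ) τ = τ⁻¹ := by
  rw [Complex.inv_def, Complex.normSq_eq_norm_sq, h1]; simp

lemma ev_cj {τ : ℂ} (h0 : τ ≠ 0) (h1 : ‖τ‖ = 1) (r : LP) :
    ev τ h0 (cj r) = (starRingEnd ℂ) (ev τ h0 r) := by
  induction r using AddMonoidAlgebra.induction with
  | zero => simp
  | single_add a b f _ _ ih =>
    rw [map_add, map_add, map_add, map_add, ih, cj_single, ev_single, ev_single, map_mul,
      map_zpow₀, conj_unit h1, inv_zpow, zpow_neg]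
    simp

lemma coeff_mul_single' (r : LP) (x n z : ℤ) :
    (r * single x n).coeff z = r.coeff (z - x) * n := by
  refine coeff_mul_single_eq_coeff_mul (z - x) ?_
  intro m _
  constructor
  · intro h; rw [← h]; ring
  · intro h; rw [h]; ring

/-- `r` as a Laurent polynomial -/
noncomputable def R' (a : ℤ) : LP := single a 1 + single (-a) 1

lemma coeff_mul_R (a : ℤ) (G : LP) (z : ℤ) :
    (G * R' a).coeff z = G.coeff (z - a) + G.coeff (z + a) := by
  rw [R', mul_add, coeff_add, Finsupp.add_apply, coeff_mul_single', coeff_mul_single', mul_one,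
    mul_one, sub_neg_eq_add]

lemma cj_R (a : ℤ) : cj (R' a) = R' a := by
  rw [R', map_add, cj_single, cj_single, neg_neg, add_comm]

/-- symmetrisation -/
noncomputable def sg (c : ℤ) (B : LP) : LP := B * single (-c) 1 - cj B * single c 1

lemma sg_coeff (c : ℤ) (B : LP) (z : ℤ) : (sg c B).coeff z = B.coeff (c + z) - B.coeff (c - z) := by
  rw [sg, coeff_sub, Finsupp.sub_apply, coeff_mul_single', coeff_mul_single', cj_coeff, mul_one,
    mul_one]
  congr 2 <;> ring

/-- `r` is nonzero -/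
lemma ev_R_ne {τ : ℂ} (h0 : τ ≠ 0) (htr : Transcendental ℤ τ) (a : ℤ) (ha : 0 < a) :
    ev τ h0 (R' a) ≠ 0 := by
  intro h
  have h1 := ev_inj h0 htr _ h
  have h2 := congrArg (fun x => AddMonoidAlgebra.coeff x a) h1
  simp only [R', coeff_add, Finsupp.add_apply, coeff_single, Finsupp.single_apply,
    coeff_zero, Finsupp.zero_apply] at h2
  rw [if_neg (show ¬ (-a = a) by omega)] at h2
  norm_num at h2

/-- separation of parities -/
lemma split {τ : ℂ} (h0 : τ ≠ 0) (htr : Transcendental ℤ τ) (a : ℤ) (ha : 0 < a)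
    (hodd : a % 2 = 1) (c : ℤ) (G0 G1 : LP)
    (g0 : ∀ z, G0.coeff z ≠ 0 → (z - c) % 2 = 0) (g1 : ∀ z, G1.coeff z ≠ 0 → (z - c) % 2 = 0)
    (h : G0 + G1 * R' a = 0) : G0 = 0 ∧ G1 = 0 := by
  have hz : ∀ z, G0.coeff z + (G1.coeff (z - a) + G1.coeff (z + a)) = 0 := by
    intro z
    have := congrArg (fun x => AddMonoidAlgebra.coeff x z) h
    simp only [coeff_add, Finsupp.add_apply, coeff_mul_R, coeff_zero, Finsupp.zero_apply] at this
    exact this
  have hG1 : G1 * R' a = 0 := by
    ext z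
    rw [coeff_mul_R, coeff_zero, Finsupp.zero_apply]
    by_cases hp : (z - c) % 2 = 0
    · have e1 : G1.coeff (z - a) = 0 := by
        by_contra hne
        have := g1 _ hne
        omega
      have e2 : G1.coeff (z + a) = 0 := by
        by_contra hne
        have := g1 _ hne
        omega
      rw [e1, e2, add_zero]
    · have e1 : G0.coeff z = 0 := by
        by_contra hne
        exact hp (g0 _ hne)
      have := hz z
      rw [e1, zero_add] at this
      exact this
  have h1 : ev τ h0 G1 = 0 := by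
    have := congrArg (ev τ h0) hG1
    rw [map_mul, map_zero] at this
    exact (mul_eq_zero.mp this).resolve_right (ev_R_ne h0 htr a ha)
  have h2 := ev_inj h0 htr _ h1
  refine ⟨?_, h2⟩
  rw [h2, zero_mul, add_zero] at h
  exact h

section sums

variable (K : ℕ) (m n : ℕ → ℤ)

/-- the part of a combination which belongs to a class -/
noncomputable def A (p : ℕ → Prop) [DecidablePred p] : LP :=
  ∑ l ∈ (range K).filter p, single (m l) (n l)

lemma A_coeff (p : ℕ → Prop) [DecidablePred p] (z : ℤ) :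
    (A K m n p).coeff z = ∑ l ∈ (range K).filter p, if m l = z then n l else 0 := by
  rw [A, coeff_sum, Finsupp.finsetSum_apply]
  refine sum_congr rfl fun l _ => ?_
  rw [coeff_single, Finsupp.single_apply]

lemma A_ne (p : ℕ → Prop) [DecidablePred p] (z : ℤ) (h : (A K m n p).coeff z ≠ 0) :
    ∃ l, l < K ∧ p l ∧ m l = z ∧ n l ≠ 0 := by
  rw [A_coeff] at h
  obtain ⟨l, hl, hne⟩ := exists_ne_zero_of_sum_ne_zero h
  rw [mem_filter, mem_range] at hl
  by_cases hz : m l = z
  · rw [if_pos hz] at hne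
    exact ⟨l, hl.1, hl.2, hz, hne⟩
  · rw [if_neg hz] at hne
    exact absurd rfl hne

lemma A_at (p : ℕ → Prop) [DecidablePred p]
    (hinj : ∀ i j, i < K → j < K → p i → p j → m i = m j → i = j) (l : ℕ) (hl : l < K)
    (hp : p l) : (A K m n p).coeff (m l) = n l := by
  rw [A_coeff, sum_eq_single l]
  · rw [if_pos rfl]
  · intro b hb hbl
    rw [mem_filter, mem_range] at hb
    rw [if_neg]
    intro h
    exact hbl (hinj b l hb.1 hl hb.2 hp h)
  · intro h
    exact absurd (mem_filter.mpr ⟨mem_range.mpr hl, hp⟩) h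

end sums

/-- the level vectors -/
noncomputable def T (τ : ℂ) (a : ℤ) (m : ℕ → ℤ) (e : ℕ → ℕ) (l : ℕ) : ℂ :=
  (if e l = 0 then 1 else τ ^ a + τ ^ (-a)) * τ ^ m l

section main

variable {τ : ℂ} (h0 : τ ≠ 0) (h1 : ‖τ‖ = 1) (htr : Transcendental ℤ τ) (a : ℤ) (ha : 0 < a)
  (hodd : a % 2 = 1) (K : ℕ) (m n : ℕ → ℤ) (hm : ∀ l, m l % 2 = 0) (e : ℕ → ℕ)
  (hS : ∀ i j k, i < K → j < K → k < K → (e i = 0 ↔ e k = 0) → m i + m k = 2 * m j →
    i = j ∧ k = j)

lemma sum_T : ∑ l ∈ range K, (n l : ℂ) * T τ a m e l =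
    ev τ h0 (A K m n (fun l => e l = 0) + A K m n (fun l => e l ≠ 0) * R' a) := by
  rw [map_add, map_mul, R', map_add, ev_single, ev_single, A, A, map_sum, map_sum,
    ← sum_filter_add_sum_filter_not (range K) (fun l => e l = 0), sum_mul]
  congr 1
  · refine sum_congr rfl fun l hl => ?_
    rw [mem_filter] at hl
    rw [T, if_pos hl.2, ev_single, one_mul]
  · refine sum_congr rfl fun l hl => ?_
    rw [mem_filter] at hl
    rw [T, if_neg hl.2, ev_single]
    push_cast
    ring

include h1 in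
lemma conj_r : (starRingEnd ℂ) (τ ^ a + τ ^ (-a)) = τ ^ a + τ ^ (-a) := by
  rw [map_add, map_zpow₀, map_zpow₀, conj_unit h1, inv_zpow, inv_zpow, zpow_neg, inv_inv, add_comm]

include h0 h1 htr ha hodd hm in
/-- the consequence of reality after division by a power of `τ` -/
lemma mono (c : ℤ) (h : (∑ l ∈ range K, (n l : ℂ) * T τ a m e l) * τ ^ (-c) =
      (starRingEnd ℂ) ((∑ l ∈ range K, (n l : ℂ) * T τ a m e l) * τ ^ (-c))) :
    sg c (A K m n (fun l => e l = 0)) = 0 ∧ sg c (A K m n (fun l => e l ≠ 0)) = 0 := by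
  have e1 : τ ^ (-c) = ev τ h0 (single (-c) 1) := by rw [ev_single]; simp
  rw [sum_T h0, e1, ← map_mul, ← ev_cj h0 h1, ← sub_eq_zero, ← map_sub] at h
  have h2 := ev_inj h0 htr _ h
  refine split h0 htr a ha hodd c _ _ ?_ ?_ ?_
  · intro z hz
    rw [sg_coeff] at hz
    by_cases h3 : (A K m n (fun l => e l = 0)).coeff (c + z) = 0
    · rw [h3, zero_sub, neg_ne_zero] at hz
      obtain ⟨l, -, -, hl, -⟩ := A_ne K m n _ _ hz
      have := hm l
      omega
    · obtain ⟨l, -, -, hl, -⟩ := A_ne K m n _ _ h3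
      have := hm l
      omega
  · intro z hz
    rw [sg_coeff] at hz
    by_cases h3 : (A K m n (fun l => e l ≠ 0)).coeff (c + z) = 0
    · rw [h3, zero_sub, neg_ne_zero] at hz
      obtain ⟨l, -, -, hl, -⟩ := A_ne K m n _ _ hz
      have := hm l
      omega
    · obtain ⟨l, -, -, hl, -⟩ := A_ne K m n _ _ h3
      have := hm l
      omega
  · rw [← h2]
    simp only [sg, map_mul, map_add, cj_single, cj_R, neg_neg]
    ring

/-- symmetric coefficients -/
lemma sg_zero {c : ℤ} {B : LP} (h : sg c B = 0) (x : ℤ) : B.coeff x = B.coeff (2 * c - x) := by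
  have := congrArg (fun y => AddMonoidAlgebra.coeff y (x - c)) h
  simp only [sg_coeff, coeff_zero, Finsupp.zero_apply] at this
  have e1 : c + (x - c) = x := by ring
  have e2 : c - (x - c) = 2 * c - x := by ring
  rw [e1, e2] at this
  linarith

include hS in
lemma inj0 : ∀ i j, i < K → j < K → e i = 0 → e j = 0 → m i = m j → i = j := by
  intro i j hi hj _ _ h
  exact (hS i j i hi hj hi Iff.rfl (by omega)).1

include hS in
lemma inj1 : ∀ i j, i < K → j < K → e i ≠ 0 → e j ≠ 0 → m i = m j → i = j := by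
  intro i j hi hj _ _ h
  exact (hS i j i hi hj hi Iff.rfl (by omega)).1

include h1 htr ha hodd hm hS in
/-- the general consequence -/
lemma mono' (c : ℤ) (h : (∑ l ∈ range K, (n l : ℂ) * T τ a m e l) * τ ^ (-c) =
      (starRingEnd ℂ) ((∑ l ∈ range K, (n l : ℂ) * T τ a m e l) * τ ^ (-c))) (l : ℕ) (hl : l < K)
    (hn : n l ≠ 0) : ∃ l', l' < K ∧ (e l = 0 ↔ e l' = 0) ∧ m l + m l' = 2 * c ∧ n l' = n l := by
  have h0 : τ ≠ 0 := by
    intro h; rw [h, norm_zero] at h1; exact zero_ne_one h1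
  obtain ⟨s0, s1⟩ := mono h0 h1 htr a ha hodd K m n hm e c h
  by_cases he : e l = 0
  · have h2 := sg_zero s0 (m l)
    rw [A_at K m n _ (inj0 K m e hS) l hl he] at h2
    obtain ⟨l', g1, g2, g3, g4⟩ := A_ne K m n _ _ (h2 ▸ hn)
    refine ⟨l', g1, iff_of_true he g2, by omega, ?_⟩
    rw [h2, ← g3, A_at K m n _ (inj0 K m e hS) l' g1 g2]
  · have h2 := sg_zero s1 (m l)
    rw [A_at K m n _ (inj1 K m e hS) l hl he] at h2
    obtain ⟨l', g1, g2, g3, g4⟩ := A_ne K m n _ _ (h2 ▸ hn)
    refine ⟨l', g1, iff_of_false he g2, by omega, ?_⟩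
    rw [h2, ← g3, A_at K m n _ (inj1 K m e hS) l' g1 g2]

include h1 htr ha hodd hm hS in
/-- short edges -/
theorem short (k : ℕ) (hk : k < K) (θ : ℝ)
    (h : ∑ l ∈ range K, (n l : ℂ) * T τ a m e l = θ * T τ a m e k) :
    ∀ l < K, l ≠ k → n l = 0 := by
  have h0 : τ ≠ 0 := by
    intro h; rw [h, norm_zero] at h1; exact zero_ne_one h1
  have hreal : (∑ l ∈ range K, (n l : ℂ) * T τ a m e l) * τ ^ (-m k) =
      (starRingEnd ℂ) ((∑ l ∈ range K, (n l : ℂ) * T τ a m e l) * τ ^ (-m k)) := by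
    rw [h]
    have e1 : (θ : ℂ) * T τ a m e k * τ ^ (-m k) =
        θ * (if e k = 0 then 1 else τ ^ a + τ ^ (-a)) := by
      rw [T]
      have : τ ^ m k * τ ^ (-m k) = 1 := by rw [← zpow_add₀ h0]; simp
      linear_combination ((θ : ℂ) * (if e k = 0 then 1 else τ ^ a + τ ^ (-a))) * this
    rw [e1, map_mul, Complex.conj_ofReal]
    split_ifs
    · simp
    · rw [conj_r h1]
  intro l hl hlk
  by_contra hn
  obtain ⟨l', g1, g2, g3, g4⟩ := mono' h1 htr a ha hodd K m n hm e hS (m k) hreal l hl hn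
  exact hlk (hS l k l' hl hk g1 g2 (by omega)).1

include h1 htr ha hodd hm hS in
/-- long edges inside the first class -/
theorem rho (k : ℕ) (hk : k + 1 < K) (θ : ℝ) (e0 : e k = 0) (e1 : e (k + 1) = 0)
    (hstep : m (k + 1) = m k + 2 * a ∨ m (k + 1) = m k - 2 * a)
    (hL : ∀ i j, i < K → j < K → (e i = 0 ↔ e j = 0) → m i + m j = m k + m (k + 1) →
      (i = k ∧ j = k + 1) ∨ (i = k + 1 ∧ j = k))
    (h : ∑ l ∈ range K, (n l : ℂ) * T τ a m e l = θ * (T τ a m e k + T τ a m e (k + 1))) :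
    n k = n (k + 1) ∧ ∀ l < K, l ≠ k → l ≠ k + 1 → n l = 0 := by
  have h0 : τ ≠ 0 := by
    intro h; rw [h, norm_zero] at h1; exact zero_ne_one h1
  obtain ⟨c, hc, hV⟩ : ∃ c, m k + m (k + 1) = 2 * c ∧
      T τ a m e k + T τ a m e (k + 1) = τ ^ c * (τ ^ a + τ ^ (-a)) := by
    rcases hstep with hs | hs
    · refine ⟨m k + a, by omega, ?_⟩
      rw [T, T, if_pos e0, if_pos e1, hs, one_mul, one_mul, mul_add, ← zpow_add₀ h0,
        ← zpow_add₀ h0, show m k + a + a = m k + 2 * a by ring,
        show m k + a + -a = m k by ring, add_comm]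
    · refine ⟨m k - a, by omega, ?_⟩
      rw [T, T, if_pos e0, if_pos e1, hs, one_mul, one_mul, mul_add, ← zpow_add₀ h0,
        ← zpow_add₀ h0, show m k - a + a = m k by ring,
        show m k - a + -a = m k - 2 * a by ring]
  have hreal : (∑ l ∈ range K, (n l : ℂ) * T τ a m e l) * τ ^ (-c) =
      (starRingEnd ℂ) ((∑ l ∈ range K, (n l : ℂ) * T τ a m e l) * τ ^ (-c)) := by
    rw [h, hV]
    have e1 : (θ : ℂ) * (τ ^ c * (τ ^ a + τ ^ (-a))) * τ ^ (-c) = θ * (τ ^ a + τ ^ (-a)) := by
      have : τ ^ c * τ ^ (-c) = 1 := by rw [← zpow_add₀ h0]; simp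
      linear_combination ((θ : ℂ) * (τ ^ a + τ ^ (-a))) * this
    rw [e1, map_mul, Complex.conj_ofReal, conj_r h1]
  have key := mono' h1 htr a ha hodd K m n hm e hS c hreal
  refine ⟨?_, ?_⟩
  · by_cases hn : n k = 0
    · by_contra hne
      obtain ⟨l', g1, g2, g3, g4⟩ := key (k + 1) hk (fun h' => hne (by rw [hn, h']))
      rcases hL (k + 1) l' hk g1 g2 (by omega) with ⟨q1, -⟩ | ⟨-, q2⟩
      · omega
      · rw [q2] at g4; exact hne g4
    · obtain ⟨l', g1, g2, g3, g4⟩ := key k (by omega) hn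
      rcases hL k l' (by omega) g1 g2 (by omega) with ⟨-, q2⟩ | ⟨q1, -⟩
      · rw [q2] at g4; exact g4.symm
      · omega
  · intro l hl hlk hlk1
    by_contra hn
    obtain ⟨l', g1, g2, g3, g4⟩ := key l hl hn
    rcases hL l l' hl g1 g2 (by omega) with ⟨q1, -⟩ | ⟨q1, -⟩
    · exact hlk q1
    · exact hlk1 q1

lemma coeff_mul_RR (a : ℤ) (G : LP) (z : ℤ) :
    (G * R' a * R' a).coeff z = G.coeff (z - 2 * a) + 2 * G.coeff z + G.coeff (z + 2 * a) := by
  rw [coeff_mul_R, coeff_mul_R, coeff_mul_R, show z - a - a = z - 2 * a by ring,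
    show z - a + a = z by ring, show z + a - a = z by ring, show z + a + a = z + 2 * a by ring]
  ring

include h1 htr ha hodd hm hS in
/-- long edges between the classes -/
theorem mixed (P Q : ℕ) (hP : P < K) (hQ : Q < K) (eP : e P = 0) (eQ : e Q ≠ 0)
    (hab : |m P - m Q| < a) (θ : ℝ)
    (h : ∑ l ∈ range K, (n l : ℂ) * T τ a m e l = θ * (T τ a m e P + T τ a m e Q)) :
    n P = n Q ∧ ∀ l < K, l ≠ P → l ≠ Q → n l = 0 := by
  have h0 : τ ≠ 0 := by
    intro h; rw [h, norm_zero] at h1; exact zero_ne_one h1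
  have hPQ : P ≠ Q := by
    intro h'; rw [h'] at eP; exact eQ eP
  set A0 := A K m n (fun l => e l = 0) with hA0
  set A1 := A K m n (fun l => e l ≠ 0) with hA1
  set p := m P with hp
  set q := m Q with hq
  have i0 := inj0 K m e hS
  have i1 := inj1 K m e hS
  -- the two identities
  have hv : T τ a m e P + T τ a m e Q = ev τ h0 (single p 1 + single q 1 * R' a) := by
    rw [T, T, if_pos eP, if_neg eQ, R', map_add, map_mul, map_add, ev_single, ev_single, ev_single,
      ev_single]
    push_cast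
    ring
  have hs := sum_T h0 a K m n e
  rw [← hA0, ← hA1] at hs
  have hev : ev τ h0 ((A0 + A1 * R' a) * cj (single p 1 + single q 1 * R' a)) =
      ev τ h0 (cj ((A0 + A1 * R' a) * cj (single p 1 + single q 1 * R' a))) := by
    rw [ev_cj h0 h1, map_mul, ev_cj h0 h1, ← hs, h, ← hv, map_mul, map_mul, Complex.conj_ofReal,
      Complex.conj_conj]
    ring
  rw [← sub_eq_zero, ← map_sub] at hev
  have hid := ev_inj h0 htr _ hev
  obtain ⟨G0, G1⟩ := split h0 htr a ha hodd 0 (sg p A0 + sg q A1 * R' a * R' a)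
    (sg q A0 + sg p A1) (by
      intro z hz
      rw [coeff_add, Finsupp.add_apply, coeff_mul_RR] at hz
      simp only [sg_coeff] at hz
      by_contra hpar
      have z0 : ∀ x, x % 2 = 1 → A0.coeff x = 0 := by
        intro x hx
        by_contra hne
        obtain ⟨l, -, -, hl, -⟩ := A_ne K m n _ _ hne
        have := hm l
        omega
      have z1 : ∀ x, x % 2 = 1 → A1.coeff x = 0 := by
        intro x hx
        by_contra hne
        obtain ⟨l, -, -, hl, -⟩ := A_ne K m n _ _ hne
        have := hm l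
        omega
      have mp := hm P
      have mq := hm Q
      apply hz
      rw [z0 _ (by omega), z0 _ (by omega), z1 _ (by omega), z1 _ (by omega), z1 _ (by omega),
        z1 _ (by omega), z1 _ (by omega), z1 _ (by omega)]
      norm_num) (by
      intro z hz
      rw [coeff_add, Finsupp.add_apply] at hz
      simp only [sg_coeff] at hz
      by_contra hpar
      have z0 : ∀ x, x % 2 = 1 → A0.coeff x = 0 := by
        intro x hx
        by_contra hne
        obtain ⟨l, -, -, hl, -⟩ := A_ne K m n _ _ hne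
        have := hm l
        omega
      have z1 : ∀ x, x % 2 = 1 → A1.coeff x = 0 := by
        intro x hx
        by_contra hne
        obtain ⟨l, -, -, hl, -⟩ := A_ne K m n _ _ hne
        have := hm l
        omega
      have mp := hm P
      have mq := hm Q
      apply hz
      rw [z0 _ (by omega), z0 _ (by omega), z1 _ (by omega), z1 _ (by omega)]
      norm_num) (by
      rw [← hid]
      simp only [sg, map_mul, map_add, cj_single, cj_R, neg_neg]
      ring)
  have I1 : ∀ z, (A0.coeff (p + z) - A0.coeff (p - z)) +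
      ((A1.coeff (q + (z - 2 * a)) - A1.coeff (q - (z - 2 * a))) +
        2 * (A1.coeff (q + z) - A1.coeff (q - z)) +
        (A1.coeff (q + (z + 2 * a)) - A1.coeff (q - (z + 2 * a)))) = 0 := by
    intro z
    have := congrArg (fun x => AddMonoidAlgebra.coeff x z) G0
    simp only [coeff_add, Finsupp.add_apply, coeff_mul_RR, sg_coeff, coeff_zero,
      Finsupp.zero_apply] at this
    exact this
  have I2 : ∀ z, (A0.coeff (q + z) - A0.coeff (q - z)) +
      (A1.coeff (p + z) - A1.coeff (p - z)) = 0 := by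
    intro z
    have := congrArg (fun x => AddMonoidAlgebra.coeff x z) G1
    simp only [coeff_add, Finsupp.add_apply, sg_coeff, coeff_zero, Finsupp.zero_apply] at this
    exact this
  rw [abs_lt] at hab
  -- no further indices in the second class
  have step1 : ∀ l < K, e l ≠ 0 → l ≠ Q → n l = 0 := by
    by_contra hcon
    push Not at hcon
    obtain ⟨lb, hb1, hb2, hb3, hb4⟩ := hcon
    obtain ⟨l1, hl1, hmax⟩ := exists_max_image
      ((range K).filter fun l => e l ≠ 0 ∧ l ≠ Q ∧ n l ≠ 0) (fun l => |m l - q|)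
      ⟨lb, mem_filter.mpr ⟨mem_range.mpr hb1, hb2, hb3, hb4⟩⟩
    rw [mem_filter, mem_range] at hl1
    obtain ⟨g1, g2, g3, g4⟩ := hl1
    have hmax' : ∀ l < K, e l ≠ 0 → l ≠ Q → n l ≠ 0 → |m l - q| ≤ |m l1 - q| := by
      intro l a1 a2 a3 a4
      exact hmax l (mem_filter.mpr ⟨mem_range.mpr a1, a2, a3, a4⟩)
    have hz0 : m l1 - q ≠ 0 := by
      intro h'
      exact g3 (i1 l1 Q g1 hQ g2 eQ (by omega))
    have b0 : A1.coeff (q + (m l1 - q)) - A1.coeff (q - (m l1 - q)) = n l1 := by
      have e1 : q + (m l1 - q) = m l1 := by ring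
      have e2 : A1.coeff (q - (m l1 - q)) = 0 := by
        by_contra hne
        obtain ⟨l', c1, c2, c3, c4⟩ := A_ne K m n _ _ hne
        exact g3 (hS l1 Q l' g1 hQ c1 (iff_of_false g2 c2) (by omega)).1
      rw [e2, e1, sub_zero]
      exact A_at K m n _ i1 l1 g1 g2
    have bz : ∀ z : ℤ, |m l1 - q| < |z| → A1.coeff (q + z) = 0 := by
      intro z hz
      by_contra hne
      obtain ⟨l', c1, c2, c3, c4⟩ := A_ne K m n _ _ hne
      have hQ' : l' ≠ Q := by
        intro h'
        rw [h'] at c3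
        have : z = 0 := by omega
        rw [this, abs_zero] at hz
        have := abs_nonneg (m l1 - q)
        omega
      have := hmax' l' c1 c2 hQ' c4
      rw [c3, show q + z - q = z by ring] at this
      omega
    have bz' : ∀ z : ℤ, |m l1 - q| < |z| → A1.coeff (q - z) = 0 := by
      intro z hz
      rw [sub_eq_add_neg]
      exact bz (-z) (by rw [abs_neg]; exact hz)
    obtain ⟨z, hz1, hz2⟩ : ∃ z, |z| = |m l1 - q| + 2 * a ∧
        A0.coeff (p + z) - A0.coeff (p - z) ≠ 0 := by
      rcases lt_or_gt_of_ne hz0 with hneg | hpos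
      · refine ⟨m l1 - q - 2 * a, ?_, ?_⟩
        · rw [abs_of_neg hneg, abs_of_neg (by omega)]; ring
        · have hI := I1 (m l1 - q - 2 * a)
          have ab1 : |m l1 - q| < |m l1 - q - 2 * a| := by
            rw [abs_of_neg hneg, abs_of_neg (by omega)]; omega
          have ab2 : |m l1 - q| < |m l1 - q - 2 * a - 2 * a| := by
            rw [abs_of_neg hneg, abs_of_neg (by omega)]; omega
          rw [bz _ ab1, bz' _ ab1, bz _ ab2, bz' _ ab2,
            show m l1 - q - 2 * a + 2 * a = m l1 - q by ring, b0] at hI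
          omega
      · refine ⟨m l1 - q + 2 * a, ?_, ?_⟩
        · rw [abs_of_pos hpos, abs_of_pos (by omega)]
        · have hI := I1 (m l1 - q + 2 * a)
          have ab1 : |m l1 - q| < |m l1 - q + 2 * a| := by
            rw [abs_of_pos hpos, abs_of_pos (by omega)]; omega
          have ab2 : |m l1 - q| < |m l1 - q + 2 * a + 2 * a| := by
            rw [abs_of_pos hpos, abs_of_pos (by omega)]; omega
          rw [bz _ ab1, bz' _ ab1, bz _ ab2, bz' _ ab2,
            show m l1 - q + 2 * a - 2 * a = m l1 - q by ring, b0] at hI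
          omega
    obtain ⟨l0, d1, d2, d3, d4⟩ : ∃ l0, l0 < K ∧ e l0 = 0 ∧ |m l0 - p| = |z| ∧ n l0 ≠ 0 := by
      by_cases hc : A0.coeff (p + z) = 0
      · rw [hc, zero_sub, neg_ne_zero] at hz2
        obtain ⟨l', c1, c2, c3, c4⟩ := A_ne K m n _ _ hz2
        exact ⟨l', c1, c2, by rw [c3, show p - z - p = -z by ring, abs_neg], c4⟩
      · obtain ⟨l', c1, c2, c3, c4⟩ := A_ne K m n _ _ hc
        exact ⟨l', c1, c2, by rw [c3, show p + z - p = z by ring], c4⟩
    have hI := I2 (m l0 - q)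
    have f1 : A0.coeff (q + (m l0 - q)) = n l0 := by
      rw [show q + (m l0 - q) = m l0 by ring]
      exact A_at K m n _ i0 l0 d1 d2
    have f2 : A0.coeff (q - (m l0 - q)) = 0 := by
      by_contra hne
      obtain ⟨l', c1, c2, c3, c4⟩ := A_ne K m n _ _ hne
      have := (hS l0 Q l' d1 hQ c1 (iff_of_true d2 c2) (by omega)).1
      rw [this] at d2
      exact eQ d2
    rw [f1, f2, sub_zero] at hI
    obtain ⟨l2, j1, j2, j3, j4⟩ : ∃ l2, l2 < K ∧ e l2 ≠ 0 ∧ |m l2 - p| = |m l0 - q| ∧ n l2 ≠ 0 := by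
      by_cases hc : A1.coeff (p + (m l0 - q)) = 0
      · have hc2 : A1.coeff (p - (m l0 - q)) ≠ 0 := by
          intro h'
          rw [hc, h'] at hI
          omega
        obtain ⟨l', c1, c2, c3, c4⟩ := A_ne K m n _ _ hc2
        exact ⟨l', c1, c2, by
          rw [c3, show p - (m l0 - q) - p = -(m l0 - q) by ring, abs_neg], c4⟩
      · obtain ⟨l', c1, c2, c3, c4⟩ := A_ne K m n _ _ hc
        exact ⟨l', c1, c2, by rw [c3, show p + (m l0 - q) - p = m l0 - q by ring], c4⟩
    have k1 : |m l0 - p| ≤ |m l0 - q| + |q - p| := abs_sub_le _ _ _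
    have k2 : |m l2 - p| ≤ |m l2 - q| + |q - p| := abs_sub_le _ _ _
    have k3 : |q - p| < a := by rw [abs_lt]; constructor <;> omega
    have k4 : l2 ≠ Q := by
      intro h'
      rw [h', ← hq] at j3
      have := abs_nonneg (m l1 - q)
      omega
    have := hmax' l2 j1 j2 k4 j4
    omega
  have A1z : ∀ x, x ≠ q → A1.coeff x = 0 := by
    intro x hx
    by_contra hne
    obtain ⟨l', c1, c2, c3, c4⟩ := A_ne K m n _ _ hne
    by_cases hQ' : l' = Q
    · rw [hQ'] at c3; exact hx c3.symm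
    · exact c4 (step1 l' c1 c2 hQ')
  have I3 : ∀ z, A0.coeff (p + z) = A0.coeff (p - z) := by
    intro z
    have hI := I1 z
    have hb : ∀ w : ℤ, A1.coeff (q + w) = A1.coeff (q - w) := by
      intro w
      by_cases hw : w = 0
      · rw [hw]; simp
      · rw [A1z _ (by omega), A1z _ (by omega)]
    rw [hb z, hb (z - 2 * a), hb (z + 2 * a)] at hI
    omega
  have step2 : ∀ l < K, e l = 0 → l ≠ P → n l = 0 := by
    intro l hl hel hlP
    have hI := I3 (m l - p)
    rw [show p + (m l - p) = m l by ring, A_at K m n _ i0 l hl hel] at hI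
    rw [hI]
    by_contra hne
    obtain ⟨l', c1, c2, c3, c4⟩ := A_ne K m n _ _ hne
    exact hlP (hS l P l' hl hP c1 (iff_of_true hel c2) (by omega)).1
  refine ⟨?_, ?_⟩
  · have hI := I2 (p - q)
    have f1 : A0.coeff (q + (p - q)) = n P := by
      rw [show q + (p - q) = p by ring]
      exact A_at K m n _ i0 P hP eP
    have f2 : A0.coeff (q - (p - q)) = 0 := by
      by_contra hne
      obtain ⟨l', c1, c2, c3, c4⟩ := A_ne K m n _ _ hne
      exact hPQ (hS P Q l' hP hQ c1 (iff_of_true eP c2) (by omega)).1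
    have f3 : A1.coeff (p + (p - q)) = 0 := by
      by_contra hne
      obtain ⟨l', c1, c2, c3, c4⟩ := A_ne K m n _ _ hne
      exact hPQ (hS l' P Q c1 hP hQ (iff_of_false c2 eQ) (by omega)).2.symm
    have f4 : A1.coeff (p - (p - q)) = n Q := by
      rw [show p - (p - q) = q by ring]
      exact A_at K m n _ i1 Q hQ eQ
    rw [f1, f2, f3, f4] at hI
    omega
  · intro l hl hlP hlQ
    by_cases hel : e l = 0
    · exact step2 l hl hel hlP
    · exact step1 l hl hel hlQ

end main

end Pool.Agent.Lib.MP_4dd93e_co.Un
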