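import Mathlib

/-!
# An infinite word over six letters without abelian squares

The word is the fixed point of the cyclic morphism `a ↦ a + (0 5 3 5 2 5 1 5 2 5 4 0)` over
`ZMod 6`.
-/

set_option autoImplicit false

namespace Pool.Agent.Lib.MP_4dd93e_co

open Finset

/-- the image of the letter `0` -/
def ww : List (Fin 6) := [0, 5, 3, 5, 2, 5, 1, 5, 2, 5, 4, 0]

/-- the letters of the image of `0` -/
def wl (s : ℕ) : Fin 6 := ww.getD s 0

/-- the infinite word -/
def fw (i : ℕ) : Fin 6 :=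
  if _h : i = 0 then 0 else fw (i / 12) + wl (i % 12)
termination_by i
decreasing_by exact Nat.div_lt_self (Nat.pos_of_ne_zero _h) (by norm_num)

lemma fw_zero : fw 0 = 0 := by rw [fw]; rfl

lemma fw_block (q s : ℕ) (hs : s < 12) : fw (12 * q + s) = fw q + wl s := by
  rw [fw]
  by_cases h : 12 * q + s = 0
  · have hq : q = 0 := by omega
    have hs0 : s = 0 := by omega
    subst hq; subst hs0
    rw [dif_pos h, fw, dif_pos rfl]; rfl
  · rw [dif_neg h]
    congr 2 <;> omega

/-- prefix Parikh vector -/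
def pv (i : ℕ) : Fin 6 → ℤ := fun a => ∑ l ∈ range i, if fw l = a then 1 else 0

/-- Parikh vector of the prefix of length `s` of the image of the letter `x` -/
def pre (x : Fin 6) (s : ℕ) : Fin 6 → ℤ := fun a => ∑ l ∈ range s, if x + wl l = a then 1 else 0

lemma pv_succ (i : ℕ) (a : Fin 6) : pv (i + 1) a = pv i a + if fw i = a then 1 else 0 := by
  unfold pv; rw [sum_range_succ]

lemma pre_succ (x : Fin 6) (s : ℕ) (a : Fin 6) :
    pre x (s + 1) a = pre x s a + if x + wl s = a then 1 else 0 := by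
  unfold pre; rw [sum_range_succ]

/-- the incidence matrix applied to a vector -/
def mm (u : Fin 6 → ℤ) : Fin 6 → ℤ := fun a => ∑ b, u b * pre b 12 a

lemma mm_pv_succ (q : ℕ) (a : Fin 6) : mm (pv (q + 1)) a = mm (pv q) a + pre (fw q) 12 a := by
  unfold mm
  simp only [pv_succ, add_mul, sum_add_distrib, ite_mul, one_mul, zero_mul]
  simp

lemma pv_block_aux (q : ℕ) : ∀ s, s ≤ 12 → ∀ a : Fin 6,
    pv (12 * q) a = mm (pv q) a → pv (12 * q + s) a = mm (pv q) a + pre (fw q) s a := by
  intro s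
  induction s with
  | zero => intro _ a h; simp [h, pre]
  | succ s ih =>
    intro hs a h
    rw [← add_assoc, pv_succ, ih (by omega) a h, pre_succ, fw_block q s (by omega)]
    ring

lemma pv_mul (q : ℕ) (a : Fin 6) : pv (12 * q) a = mm (pv q) a := by
  induction q with
  | zero => simp [pv, mm]
  | succ q ih =>
    have := pv_block_aux q 12 le_rfl a ih
    rw [show 12 * (q + 1) = 12 * q + 12 by ring, this, mm_pv_succ]

lemma pv_block (q s : ℕ) (hs : s ≤ 12) (a : Fin 6) :
    pv (12 * q + s) a = mm (pv q) a + pre (fw q) s a :=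
  pv_block_aux q s hs a (pv_mul q a)

lemma pv_sum (i : ℕ) : ∑ a, pv i a = i := by
  induction i with
  | zero => simp [pv]
  | succ i ih =>
    simp only [pv_succ, sum_add_distrib, ih]
    simp

lemma wl_ne : ∀ s : ℕ, s < 11 → wl s ≠ wl (s + 1) := by decide

lemma fw_ne (i : ℕ) : fw i ≠ fw (i + 1) := by
  induction i using Nat.strong_induction_on with
  | _ i ih =>
    obtain ⟨q, s, hs, rfl⟩ : ∃ q s, s < 12 ∧ i = 12 * q + s :=
      ⟨i / 12, i % 12, Nat.mod_lt _ (by norm_num), by omega⟩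
    rcases Nat.lt_or_ge s 11 with h | h
    · rw [add_assoc, fw_block q s hs, fw_block q (s + 1) (by omega)]
      intro h'
      exact wl_ne s h (add_left_cancel h')
    · have hs' : s = 11 := by omega
      subst hs'
      rw [fw_block q 11 hs, show 12 * q + 11 + 1 = 12 * (q + 1) + 0 by ring,
        fw_block (q + 1) 0 (by norm_num)]
      have h1 : wl 11 = 0 := by decide
      have h2 : wl 0 = 0 := by decide
      rw [h1, h2, add_zero, add_zero]
      exact ih q (by omega)

/-- the matrix entries -/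
def cnt : Fin 6 → ℤ := ![2, 1, 2, 1, 1, 5]

lemma pre_twelve : ∀ b a : Fin 6, pre b 12 a = cnt (a - b) := by decide +kernel

lemma mm_inj (u : Fin 6 → ℤ) (h : ∀ a, mm u a = 0) : ∀ a, u a = 0 := by
  unfold mm at h
  simp only [pre_twelve, Fin.sum_univ_six] at h
  have h0 : u 0 * 2 + u 1 * 5 + u 2 * 1 + u 3 * 1 + u 4 * 2 + u 5 * 1 = 0 := h 0
  have h1 : u 0 * 1 + u 1 * 2 + u 2 * 5 + u 3 * 1 + u 4 * 1 + u 5 * 2 = 0 := h 1
  have h2 : u 0 * 2 + u 1 * 1 + u 2 * 2 + u 3 * 5 + u 4 * 1 + u 5 * 1 = 0 := h 2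
  have h3 : u 0 * 1 + u 1 * 2 + u 2 * 1 + u 3 * 2 + u 4 * 5 + u 5 * 1 = 0 := h 3
  have h4 : u 0 * 1 + u 1 * 1 + u 2 * 2 + u 3 * 1 + u 4 * 2 + u 5 * 5 = 0 := h 4
  have h5 : u 0 * 5 + u 1 * 1 + u 2 * 1 + u 3 * 2 + u 4 * 1 + u 5 * 2 = 0 := h 5
  have k0 : 6552 * u 0 = 0 := by
    linear_combination (-191)*h0 + 157*h1 + (-575)*h2 + 61*h3 + (-599)*h4 + 1693*h5
  have k1 : 6552 * u 1 = 0 := by
    linear_combination 1693*h0 + (-191)*h1 + 157*h2 + (-575)*h3 + 61*h4 + (-599)*h5
  have k2 : 6552 * u 2 = 0 := by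
    linear_combination (-599)*h0 + 1693*h1 + (-191)*h2 + 157*h3 + (-575)*h4 + 61*h5
  have k3 : 6552 * u 3 = 0 := by
    linear_combination 61*h0 + (-599)*h1 + 1693*h2 + (-191)*h3 + 157*h4 + (-575)*h5
  have k4 : 6552 * u 4 = 0 := by
    linear_combination (-575)*h0 + 61*h1 + (-599)*h2 + 1693*h3 + (-191)*h4 + 157*h5
  have k5 : 6552 * u 5 = 0 := by
    linear_combination 157*h0 + (-575)*h1 + 61*h2 + (-599)*h3 + 1693*h4 + (-191)*h5
  intro a
  fin_cases a
  · exact (mul_eq_zero.mp k0).resolve_left (by norm_num)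
  · exact (mul_eq_zero.mp k1).resolve_left (by norm_num)
  · exact (mul_eq_zero.mp k2).resolve_left (by norm_num)
  · exact (mul_eq_zero.mp k3).resolve_left (by norm_num)
  · exact (mul_eq_zero.mp k4).resolve_left (by norm_num)
  · exact (mul_eq_zero.mp k5).resolve_left (by norm_num)

/-- weights -/
def rr : Fin 6 → ℕ := ![191, 6395, 575, 6491, 599, 4859]

/-- weighted sums -/
def vv (x : Fin 6) (s : ℕ) : ℕ := (∑ l ∈ range s, rr (x + wl l)) % 6552

/-- table of weighted sums -/
def tab : List ℕ := [0, 191, 5050, 4989, 3296, 3871, 2178, 2021, 328, 903, 5762, 6361, 0, 6395, 34,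
  633, 824, 763, 954, 1529, 1720, 1659, 1850, 157, 0, 575, 418, 5277, 5120, 5719, 5562, 5501, 5344,
  5943, 5786, 5977, 0, 6491, 514, 705, 1280, 6139, 162, 761, 1336, 6195, 218, 61, 0, 599, 538, 381,
  320, 511, 450, 5309, 5248, 5439, 5378, 5953, 0, 4859, 5458, 6033, 80, 6475, 522, 713, 1312, 1155,
  1754, 1693]

lemma vv_tab : ∀ x : Fin 6, ∀ s : Fin 12, vv x s = tab.getD (12 * x.val + s.val) 0 := by
  decide +kernel

/-- the finite check, in terms of the table -/
def chk (x y z : Fin 6) (i j : Fin 12) : Bool :=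
  let k := (2 * j.val + 12 - i.val) % 12
  (tab.getD (12 * x.val + i.val) 0 + tab.getD (12 * z.val + k) 0) % 6552 !=
      (2 * tab.getD (12 * y.val + j.val) 0) % 6552 ||
    (i.val == j.val && k == j.val && (i.val == 0 || (x == y && y == z))) ||
    (j.val == 0 && x == z && ((i.val == 1 && k == 11) || (i.val == 11 && k == 1)))

lemma chk_all : ∀ x y : Fin 6, ∀ i j : Fin 12, ∀ z : Fin 6, chk x y z i j = true := by
  decide +kernel

lemma weight_cnt : ∀ b : Fin 6, (6552 : ℤ) ∣ ∑ a, (rr a : ℤ) * cnt (a - b) := by decide +kernel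

lemma weight_mm (u : Fin 6 → ℤ) : (6552 : ℤ) ∣ ∑ a, (rr a : ℤ) * mm u a := by
  have : ∑ a, (rr a : ℤ) * mm u a = ∑ b, u b * ∑ a, (rr a : ℤ) * cnt (a - b) := by
    unfold mm
    simp only [pre_twelve, mul_sum]
    rw [sum_comm]
    refine sum_congr rfl fun b _ => sum_congr rfl fun a _ => ?_
    ring
  rw [this]
  exact dvd_sum fun b _ => Dvd.dvd.mul_left (weight_cnt b) _

lemma weight_pre (x : Fin 6) (s : ℕ) :
    ∑ a, (rr a : ℤ) * pre x s a = ((∑ l ∈ range s, rr (x + wl l) : ℕ) : ℤ) := by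
  induction s with
  | zero => simp [pre]
  | succ s ih =>
    simp only [pre_succ, mul_add, sum_add_distrib, ih, sum_range_succ]
    simp

lemma mm_comb (u v w : Fin 6 → ℤ) (a : Fin 6) :
    mm (fun a => u a + v a - 2 * w a) a = mm u a + mm v a - 2 * mm w a := by
  unfold mm
  rw [mul_sum, ← sum_add_distrib, ← sum_sub_distrib]
  refine sum_congr rfl fun b _ => ?_
  ring

lemma mm_cancel (u v w : Fin 6 → ℤ) (h : ∀ a, mm u a + mm v a = 2 * mm w a) :
    ∀ a, u a + v a = 2 * w a := by
  have := mm_inj (fun a => u a + v a - 2 * w a) (fun a => by rw [mm_comb, h a, sub_self])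
  intro a
  have := this a
  linarith

/-- the word has no abelian squares -/
theorem no_abelian_square (j : ℕ) : ∀ i k : ℕ, i ≤ j → (∀ a, pv i a + pv k a = 2 * pv j a) →
    i = j := by
  induction j using Nat.strong_induction_on with
  | _ j ih =>
    intro i k hij H
    rcases Nat.eq_zero_or_pos j with hj | hj
    · omega
    have hsum : (i : ℤ) + k = 2 * j := by
      rw [← pv_sum i, ← pv_sum k, ← pv_sum j, ← sum_add_distrib, mul_sum]
      exact sum_congr rfl fun a _ => H a
    obtain ⟨α, i', hi', rfl⟩ : ∃ q s, s < 12 ∧ i = 12 * q + s :=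
      ⟨i / 12, i % 12, Nat.mod_lt _ (by norm_num), by omega⟩
    obtain ⟨β, j', hj', rfl⟩ : ∃ q s, s < 12 ∧ j = 12 * q + s :=
      ⟨j / 12, j % 12, Nat.mod_lt _ (by norm_num), by omega⟩
    obtain ⟨γ, k', hk', rfl⟩ : ∃ q s, s < 12 ∧ k = 12 * q + s :=
      ⟨k / 12, k % 12, Nat.mod_lt _ (by norm_num), by omega⟩
    have E : ∀ a, mm (pv α) a + pre (fw α) i' a + (mm (pv γ) a + pre (fw γ) k' a) =
        2 * (mm (pv β) a + pre (fw β) j' a) := by
      intro a
      rw [← pv_block α i' hi'.le, ← pv_block β j' hj'.le, ← pv_block γ k' hk'.le]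
      exact H a
    have hk : k' = (2 * j' + 12 - i') % 12 := by omega
    -- the weighted identity
    have hW : (6552 : ℤ) ∣ 2 * ((∑ l ∈ range j', rr (fw β + wl l) : ℕ) : ℤ) -
        ((∑ l ∈ range i', rr (fw α + wl l) : ℕ) : ℤ) -
        ((∑ l ∈ range k', rr (fw γ + wl l) : ℕ) : ℤ) := by
      rw [← weight_pre, ← weight_pre, ← weight_pre]
      have h1 := weight_mm (fun a => pv α a + pv γ a - 2 * pv β a)
      have h2 : ∑ a, (rr a : ℤ) * mm (fun a => pv α a + pv γ a - 2 * pv β a) a =
          2 * ∑ a, (rr a : ℤ) * pre (fw β) j' a - ∑ a, (rr a : ℤ) * pre (fw α) i' a -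
            ∑ a, (rr a : ℤ) * pre (fw γ) k' a := by
        rw [mul_sum, ← sum_sub_distrib, ← sum_sub_distrib]
        refine sum_congr rfl fun a _ => ?_
        rw [mm_comb]
        linear_combination (rr a : ℤ) * E a
      rw [← h2]; exact h1
    have hC := chk_all (fw α) (fw β) ⟨i', hi'⟩ ⟨j', hj'⟩ (fw γ)
    have t1 := vv_tab (fw α) ⟨i', hi'⟩
    have t2 := vv_tab (fw β) ⟨j', hj'⟩
    have t3 := vv_tab (fw γ) ⟨k', hk'⟩
    simp only [vv] at t1 t2 t3
    have hmod : (tab.getD (12 * (fw α).val + i') 0 + tab.getD (12 * (fw γ).val + k') 0) % 6552 =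
        (2 * tab.getD (12 * (fw β).val + j') 0) % 6552 := by
      rw [← t1, ← t2, ← t3]
      omega
    have hC2 : (i' = j' ∧ k' = j' ∧ (i' = 0 ∨ (fw α = fw β ∧ fw β = fw γ))) ∨
        (j' = 0 ∧ fw α = fw γ ∧ ((i' = 1 ∧ k' = 11) ∨ (i' = 11 ∧ k' = 1))) := by
      unfold chk at hC
      simp only [← hk] at hC
      rw [hmod] at hC
      simp only [bne_self_eq_false, Bool.false_or, Bool.or_eq_true, Bool.and_eq_true,
        beq_iff_eq] at hC
      rcases hC with ⟨⟨h1, h2⟩, h3⟩ | ⟨⟨h1, h2⟩, h3⟩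
      · exact Or.inl ⟨h1, h2, h3⟩
      · exact Or.inr ⟨h1, h2, h3⟩
    clear hC hmod t1 t2 t3 hW
    have w0 : wl 0 = 0 := by decide
    have w11 : wl 11 = 0 := by decide
    have eend : ∀ (x a : Fin 6), pre x 12 a = pre x 11 a + if x = a then 1 else 0 := by
      intro x a; rw [pre_succ, w11, add_zero]
    have ebeg : ∀ (x a : Fin 6), pre x 1 a = if x = a then 1 else 0 := by
      intro x a; rw [pre_succ, w0, add_zero]; simp [pre]
    rcases hC2 with ⟨h1, h2, h3⟩ | ⟨h1, h2, h3⟩
    · -- aligned case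
      subst h1; subst h2
      have E2 : ∀ a, mm (pv α) a + mm (pv γ) a = 2 * mm (pv β) a := by
        intro a
        have := E a
        rcases h3 with h3 | ⟨h3, h4⟩
        · subst h3
          simp only [pre, range_zero, sum_empty] at this
          linarith
        · rw [h3, h4] at this
          linarith
      have E3 := mm_cancel _ _ _ E2
      rcases Nat.eq_zero_or_pos β with hb | hb
      · subst hb; omega
      · have := ih β (by omega) α γ (by omega) E3
        omega
    · subst h1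
      rcases h3 with ⟨h3, h4⟩ | ⟨h3, h4⟩
      · subst h3; subst h4
        have E2 : ∀ a, mm (pv α) a + mm (pv (γ + 1)) a = 2 * mm (pv β) a := by
          intro a
          have := E a
          rw [mm_pv_succ, eend, h2.symm]
          rw [ebeg, h2.symm] at this
          simp only [pre, range_zero, sum_empty] at this ⊢
          linarith
        have E3 := mm_cancel _ _ _ E2
        have := ih β (by omega) α (γ + 1) (by omega) E3
        omega
      · subst h3; subst h4
        have E2 : ∀ a, mm (pv (α + 1)) a + mm (pv γ) a = 2 * mm (pv β) a := by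
          intro a
          have := E a
          rw [mm_pv_succ, eend, h2]
          rw [ebeg, h2] at this
          simp only [pre, range_zero, sum_empty] at this ⊢
          linarith
        have E3 := mm_cancel _ _ _ E2
        have hαβ := ih β (by omega) (α + 1) γ (by omega) E3
        exfalso
        apply fw_ne α
        have : γ = α + 1 := by omega
        rw [h2, this]

end Pool.Agent.Lib.MP_4dd93e_co
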